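import Pool.Agent.Helper73.SS.AddPoly
import Pool.Agent.Helper73.QW.Gal
import Pool.Agent.Helper75.QC.Defs

/-! Supersingular twists: the base change by an additive polynomial, and the covers of the plane. -/

set_option autoImplicit false

namespace Pool.Agent.Helper73.SS

open IntermediateField Module Pool.Agent.Helper75.QC Pool.Agent.Helper73.QX
  Pool.Agent.Helper73.QW

theorem uniruled_hom {Ω K K' : Type} [Field Ω] [Field K] [Algebra Ω K] [Field K'] [Algebra Ω K']
    {i : ℕ} (h : Uniruled Ω K' i) (g : K →ₐ[Ω] K') : Uniruled Ω K i := by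
  obtain ⟨E, _, _, a, S, θ, h1, h2⟩ := h
  exact ⟨E, inferInstance, inferInstance, a.comp g, S, θ, h1, fun k => h2 (g k)⟩

/-- the degree over a field which is given in two ways -/
theorem finrank_of_range {Ω R M : Type} [Field Ω] [Field R] [Field M] [Algebra Ω M] [Algebra R M]
    (B : IntermediateField Ω M) (h1 : ∀ r : R, algebraMap R M r ∈ B)
    (h2 : ∀ b ∈ B, ∃ r : R, algebraMap R M r = b) : finrank B M = finrank R M := by
  let i : R →+* B := (algebraMap R M).codRestrict B h1
  let _ : Algebra R B := i.toAlgebra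
  have : IsScalarTower R B M := IsScalarTower.of_algebraMap_eq fun _ => rfl
  have h3 : finrank R B = 1 := by
    have h4 : (⊥ : Subalgebra R B) = ⊤ := by
      rw [eq_top_iff]
      rintro ⟨b, hb⟩ -
      obtain ⟨r, hr⟩ := h2 b hb
      exact ⟨r, Subtype.ext hr⟩
    rw [← Subalgebra.bot_eq_top_iff_finrank_eq_one]
    exact h4
  have h5 := finrank_mul_finrank R B M
  rw [h3, one_mul] at h5
  exact h5

section

variable {p : ℕ} [hp : Fact p.Prime] {Ω : Type} [Field Ω] [Algebra (ZMod p) Ω]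
  {K : Type} [Field K] [Algebra Ω K]

omit hp [Algebra (ZMod p) Ω] in
/-- generators of `M` -/
theorem gens_of {x y z w : K} (R : IntermediateField Ω K) (hR : R = adjoin Ω {x, y, z})
    (M : IntermediateField R K) (hM : M = adjoin R {w}) (hx : x ∈ M) (hy : y ∈ M) (hz : z ∈ M)
    (hw : w ∈ M) :
    (∀ r : R, algebraMap R M r ∈ adjoin Ω {(⟨x, hx⟩ : M), ⟨y, hy⟩, ⟨z, hz⟩}) ∧
      (∀ b ∈ adjoin Ω {(⟨x, hx⟩ : M), ⟨y, hy⟩, ⟨z, hz⟩}, ∃ r : R, algebraMap R M r = b) ∧
      adjoin Ω {(⟨x, hx⟩ : M), ⟨y, hy⟩, ⟨z, hz⟩, ⟨w, hw⟩} = ⊤ := by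
  subst hR
  let f : M →ₐ[Ω] K := M.val.restrictScalars Ω
  have hf : ∀ m : M, f m = m := fun _ => rfl
  have h1 : (adjoin Ω {(⟨x, hx⟩ : M), ⟨y, hy⟩, ⟨z, hz⟩}).map f = adjoin Ω {x, y, z} := by
    rw [adjoin_map]
    congr 1
    rw [Set.image_insert_eq, Set.image_insert_eq, Set.image_singleton]
    rfl
  have h2 : (adjoin Ω {(⟨x, hx⟩ : M), ⟨y, hy⟩, ⟨z, hz⟩, ⟨w, hw⟩}).map f =
      adjoin Ω {x, y, z, w} := by
    rw [adjoin_map]
    congr 1
    rw [Set.image_insert_eq, Set.image_insert_eq, Set.image_insert_eq, Set.image_singleton]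
    rfl
  refine ⟨fun r => ?_, fun b hb => ?_, ?_⟩
  · have h3 : (r : K) ∈ (adjoin Ω {(⟨x, hx⟩ : M), ⟨y, hy⟩, ⟨z, hz⟩}).map f := by
      rw [h1]
      exact r.2
    obtain ⟨m, hm, hm'⟩ := h3
    have h4 : algebraMap (adjoin Ω {x, y, z}) M r = m := Subtype.ext hm'.symm
    rw [h4]
    exact hm
  · have h3 : f b ∈ (adjoin Ω {(⟨x, hx⟩ : M), ⟨y, hy⟩, ⟨z, hz⟩}).map f := ⟨b, hb, rfl⟩
    rw [h1] at h3
    exact ⟨⟨b, h3⟩, Subtype.ext rfl⟩
  · rw [eq_top_iff]
    intro m _
    have hRN : adjoin Ω {x, y, z} ≤ adjoin Ω {x, y, z, w} := by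
      rw [adjoin_le_iff]
      rintro s (rfl | rfl | hs)
      · exact subset_adjoin _ _ (by simp)
      · exact subset_adjoin _ _ (by simp)
      · rw [Set.mem_singleton_iff] at hs
        rw [hs]
        exact subset_adjoin _ _ (by simp)
    have hMN : M ≤ extendScalars hRN := by
      rw [hM, adjoin_le_iff]
      intro s hs
      rw [Set.mem_singleton_iff] at hs
      rw [hs]
      exact subset_adjoin Ω _ (by simp)
    have h3 : f m ∈ adjoin Ω {x, y, z, w} := hMN m.2
    rw [← h2] at h3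
    obtain ⟨m', hm', h4⟩ := h3
    have h5 : m' = m := f.injective h4
    rw [← h5]
    exact hm'

variable [IsAlgClosed Ω] {e : ℕ} {l : ℕ → Ω}

/-- the zeros of `L` are constants -/
theorem zer_algebraic (h0 : l e ≠ 0) {d : K} (hd : addV p (e + 1) l d = 0) :
    ∃ v : zer p (e + 1) l, algebraMap Ω K v = d := by
  have hint : IsIntegral Ω d := isAlgebraic_iff_isIntegral.1
    ⟨addP p (e + 1) l, addP_ne_zero hp.out.one_lt (Nat.lt_succ_self e) h0, by
      rw [aeval_addP, hd]⟩
  have hmem : d ∈ IntermediateField.adjoin Ω {d} := IntermediateField.mem_adjoin_simple_self Ω _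
  have := IntermediateField.isAlgebraic_adjoin_simple hint
  rw [IntermediateField.eq_bot_of_isAlgClosed_of_isAlgebraic (IntermediateField.adjoin Ω {d}),
    IntermediateField.mem_bot] at hmem
  obtain ⟨v, hv⟩ := hmem
  refine ⟨⟨v, ?_⟩, hv⟩
  rw [mem_zer]
  apply (algebraMap Ω K).injective
  rw [addV_algebraMap, hv, hd, map_zero]

/-- **The extension is Galois.** -/
theorem galois_add (h0 : l 0 ≠ 0) (he : l e ≠ 0) {w : K} (R : IntermediateField Ω K)
    (hu : addV p (e + 1) l w ∈ R) (htop : adjoin R {w} = ⊤) :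
    FiniteDimensional R K ∧ IsGalois R K := by
  classical
  have hcK := charP_of p Ω K
  have hcR : CharP R p := charP_of p Ω _
  have hcΩ : CharP Ω p := charP_of p Ω Ω
  refine gal_of_roots {w} (Set.finite_singleton w) htop ?_
  intro s hs
  rw [Set.mem_singleton_iff] at hs
  rw [hs]
  obtain ⟨Q, hQ⟩ : ∃ Q : Polynomial R, Q = (addP p (e + 1) l).map (algebraMap Ω R) -
      Polynomial.C ⟨_, hu⟩ := ⟨_, rfl⟩
  have hQmap : Q.map (algebraMap R K) = (addP p (e + 1) l).map (algebraMap Ω K) -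
      Polynomial.C (addV p (e + 1) l w) := by
    rw [hQ, Polynomial.map_sub, Polynomial.map_map, Polynomial.map_C]
    rfl
  refine ⟨Q, ?_, ?_, ?_⟩
  · rw [Polynomial.separable_def]
    have h1 : Polynomial.derivative Q = Polynomial.C (algebraMap Ω R (l 0)) := by
      rw [hQ, Polynomial.derivative_sub, Polynomial.derivative_C, sub_zero,
        Polynomial.derivative_map, derivative_addP, Polynomial.map_C]
    rw [h1]
    refine ⟨0, Polynomial.C (algebraMap Ω R (l 0))⁻¹, ?_⟩
    rw [zero_mul, zero_add, ← Polynomial.C_mul, inv_mul_cancel₀ ((_root_.map_ne_zero _).2 h0),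
      Polynomial.C_1]
  · have h1 : Polynomial.aeval w Q = Polynomial.aeval w (addP p (e + 1) l) -
        addV p (e + 1) l w := by
      rw [hQ, map_sub, Polynomial.aeval_map_algebraMap, Polynomial.aeval_C]
      rfl
    rw [h1, aeval_addP, sub_self]
  · -- the roots are `w + v`
    have hcard := card_zer (p := p) h0 he
    have hfin : Finite (zer p (e + 1) l) := Nat.finite_of_card_ne_zero (by
      rw [hcard]
      exact pow_ne_zero _ hp.out.ne_zero)
    have : Fintype (zer p (e + 1) l) := Fintype.ofFinite _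
    have hne : addP p (e + 1) l ≠ 0 := addP_ne_zero hp.out.one_lt (Nat.lt_succ_self e) he
    have hnd : ((addP p (e + 1) l).map (algebraMap Ω K)).natDegree = p ^ e := by
      rw [Polynomial.natDegree_map, natDegree_addP hp.out.one_lt he]
    have hdeg : (Q.map (algebraMap R K)).natDegree = p ^ e := by
      rw [hQmap, Polynomial.natDegree_sub_C, hnd]
    have hne' : Q.map (algebraMap R K) ≠ 0 := by
      intro h
      rw [h, Polynomial.natDegree_zero] at hdeg
      exact pow_ne_zero _ hp.out.ne_zero hdeg.symm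
    have hroots : (Finset.univ.image fun v : zer p (e + 1) l => w + algebraMap Ω K v) ⊆
        (Q.map (algebraMap R K)).roots.toFinset := by
      intro z hz
      obtain ⟨v, -, rfl⟩ := Finset.mem_image.1 hz
      rw [Multiset.mem_toFinset, Polynomial.mem_roots hne', Polynomial.IsRoot.def, hQmap,
        Polynomial.eval_sub, Polynomial.eval_C, Polynomial.eval_map_algebraMap, aeval_addP,
        addV_add, ← addV_algebraMap, mem_zer.1 v.2, map_zero, add_zero, sub_self]
    have h2 := Finset.card_le_card hroots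
    rw [Finset.card_image_of_injective _ (fun v v' h =>
      Subtype.ext ((algebraMap Ω K).injective (add_left_cancel h))), Finset.card_univ,
      ← Nat.card_eq_fintype_card, hcard, ← hdeg] at h2
    have h3 := h2.trans (Multiset.toFinset_card_le _)
    exact Polynomial.splits_iff_card_roots.2 (le_antisymm (Polynomial.card_roots' _) h3)

/-- two automorphisms which agree on `w` -/
theorem aut_ext {w : K} {R : IntermediateField Ω K} (htop : adjoin R {w} = ⊤)
    {g g' : K ≃ₐ[R] K} (hg : g w = g' w) : g = g' := by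
  have h1 : (g : K →ₐ[R] K) = g' := by
    refine AlgHom.ext fun z => ?_
    have hz : z ∈ adjoin R {w} := by rw [htop]; exact mem_top
    induction hz using adjoin_induction with
    | mem z hz =>
      rw [Set.mem_singleton_iff] at hz
      rw [hz]
      exact hg
    | algebraMap c => rw [AlgHom.commutes, AlgHom.commutes]
    | add x y _ _ hx hy => rw [map_add, map_add, hx, hy]
    | inv x _ hx => rw [map_inv₀, map_inv₀, hx]
    | mul x y _ _ hx hy => rw [map_mul, map_mul, hx, hy]
  exact AlgEquiv.ext fun z => DFunLike.congr_fun h1 z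

/-- **The cyclic subextensions.** -/
theorem add_cyclic (h0 : l 0 ≠ 0) (he : l e ≠ 0) (he0 : 0 < e) {w : K}
    (R : IntermediateField Ω K) (hu : addV p (e + 1) l w ∈ R) (htop : adjoin R {w} = ⊤) :
    (∀ g h : K ≃ₐ[R] K, g * h = h * g) ∧
    ∀ M : IntermediateField R K, IsCyclic (M ≃ₐ[R] M) → M = ⊥ ∨
      ∃ (w' : K) (c : Ω), c ≠ 0 ∧ w' ^ p - w' = algebraMap Ω K c * addV p (e + 1) l w ∧
        M = adjoin R {w'} ∧ Module.finrank R M = p := by
  classical
  have hcK := charP_of p Ω K
  obtain ⟨hfd, hgal⟩ := galois_add h0 he R hu htop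
  have hcard := card_zer (p := p) h0 he
  have hfin : Finite (zer p (e + 1) l) := Nat.finite_of_card_ne_zero (by
    rw [hcard]
    exact pow_ne_zero _ hp.out.ne_zero)
  have hfdz : Module.Finite (ZMod p) (zer p (e + 1) l) := Module.Finite.of_finite
  have hfd' : Module.Finite (ZMod p) (zer p (e + 1) l →ₗ[ZMod p] ZMod p) := inferInstance
  have hfin' : Finite (zer p (e + 1) l →ₗ[ZMod p] ZMod p) := Module.finite_of_finite (ZMod p)
  have : Fintype (zer p (e + 1) l →ₗ[ZMod p] ZMod p) := Fintype.ofFinite _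
  choose b c hb hbc _ using fun f => exists_equation (p := p) h0 he he0 f
  let E := Fintype.equivFin (zer p (e + 1) l →ₗ[ZMod p] ZMod p)
  obtain ⟨ww, hww⟩ : ∃ ww : Fin (Fintype.card (zer p (e + 1) l →ₗ[ZMod p] ZMod p)) → K,
      ∀ i, ww i = addV p e (b (E.symm i)) w := ⟨_, fun _ => rfl⟩
  have hwu : ∀ i, ww i ^ p - ww i = algebraMap Ω K (c (E.symm i)) * addV p (e + 1) l w := by
    intro i
    rw [hww]
    exact hbc _ w
  have hwR : ∀ i, ww i ^ p - ww i ∈ R := fun i => by
    rw [hwu]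
    exact mul_mem (R.algebraMap_mem _) hu
  have hinj : ∀ g : K ≃ₐ[R] K, (∀ i, g (ww i) = ww i) → g = 1 := by
    intro g hg
    have h1 : g (addV p (e + 1) l w) = addV p (e + 1) l w := g.commutes ⟨_, hu⟩
    let g' : K →ₐ[Ω] K := (g : K →ₐ[R] K).restrictScalars Ω
    have hg' : ∀ z, g' z = g z := fun _ => rfl
    obtain ⟨v, hv⟩ := zer_algebraic (p := p) (K := K) he (d := g w - w) (by
      have h2 : addV p (e + 1) l (g w - w) + addV p (e + 1) l w = addV p (e + 1) l (g w) := by
        rw [← addV_add, sub_add_cancel]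
      have h3 : g (addV p (e + 1) l w) = addV p (e + 1) l (g w) := addV_map g' w
      rw [← h3, h1] at h2
      exact add_eq_right.1 h2)
    have hgw : g w = w + algebraMap Ω K v := by rw [hv]; ring
    have hfv : ∀ f : zer p (e + 1) l →ₗ[ZMod p] ZMod p, f v = 0 := by
      intro f
      have h2 := hg (E f)
      rw [hww, Equiv.symm_apply_apply] at h2
      have h3 : g (addV p e (b f) w) = addV p e (b f) (g w) := addV_map g' w
      rw [h3, hgw, addV_add, ← addV_algebraMap, ← hb] at h2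
      have h4 : algebraMap Ω K (em p Ω Ω (f v)) = 0 := add_eq_left.1 h2
      apply em_injective p Ω Ω
      rw [map_zero]
      exact (map_eq_zero _).1 h4
    have hv0 : v = 0 := (Module.forall_dual_apply_eq_zero_iff (ZMod p) v).1 hfv
    refine aut_ext htop ?_
    rw [hgw, hv0]
    show w + algebraMap Ω K 0 = w
    rw [map_zero, add_zero]
  obtain ⟨h1, h2⟩ := elem_cyclic (p := p) hwR hinj
  refine ⟨h1, fun M hM => ?_⟩
  rcases h2 M hM with h3 | ⟨⟨k, hk⟩, hfr⟩
  · exact Or.inl h3
  right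
  obtain ⟨w', hw'⟩ : ∃ w', w' = comb p Ω k ww := ⟨_, rfl⟩
  obtain ⟨c', hc'⟩ : ∃ c' : Ω, c' = ∑ i, em p Ω Ω (k i) * c (E.symm i) := ⟨_, rfl⟩
  have heq : w' ^ p - w' = algebraMap Ω K c' * addV p (e + 1) l w := by
    rw [hw', comb_sub, hc', map_sum, Finset.sum_mul]
    unfold comb
    refine Finset.sum_congr rfl fun i _ => ?_
    show em p Ω K (k i) * (ww i ^ p - ww i) = _
    rw [hwu, map_mul, ← mul_assoc]
    rfl
  rw [← hw'] at hk
  refine ⟨w', c', ?_, heq, hk, hfr⟩
  rintro rfl
  rw [map_zero, zero_mul] at heq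
  obtain ⟨d, hd⟩ := exists_em p Ω (z := w') (by
    exact sub_eq_zero.1 heq)
  have h3 : w' ∈ R := by
    rw [hd]
    exact R.algebraMap_mem _
  have h4 : adjoin R {w'} = ⊥ := by
    rw [adjoin_simple_eq_bot_iff, mem_bot]
    exact ⟨⟨w', h3⟩, rfl⟩
  rw [hk, h4, IntermediateField.finrank_bot] at hfr
  exact hp.out.one_lt.ne hfr

end

end Pool.Agent.Helper73.SS
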