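import Pool.Agent.Helper73.SS.Final

/-! Wild covers without the independence of `x` and `y`. -/

set_option autoImplicit false

namespace Pool.Agent.Helper73.SS

open IntermediateField Pool.Agent.Helper75.QC

theorem indep_or {Ω K : Type} [Field Ω] [Field K] [Algebra Ω K] (x y : K) :
    AlgebraicIndependent Ω ![x, y] ∨
      ∃ S : Finset K, S.card < 2 ∧ x ∈ Acl Ω (S : Set K) ∧ y ∈ Acl Ω (S : Set K) := by
  classical
  obtain ⟨u, hu⟩ := (AlgebraicIndependent.matroid Ω K).exists_isBasis {x, y}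
  obtain ⟨h1, h2, h3⟩ := AlgebraicIndependent.matroid_isBasis_iff.1 hu
  have hfin : u.Finite := (Set.toFinite {x, y}).subset h2
  by_cases hxy : ∃ (hx : x ∈ u) (hy : y ∈ u), x ≠ y
  · left
    obtain ⟨hx, hy, hne⟩ := hxy
    have h4 := h1.comp ![⟨x, hx⟩, ⟨y, hy⟩] (by
      intro i j hij
      fin_cases i <;> fin_cases j <;> simp_all)
    convert h4 using 1
    funext i
    fin_cases i <;> rfl
  · right
    have h4 : ∀ a ∈ ({x, y} : Set K), a ∈ Acl Ω u := by
      intro a ha
      obtain ⟨P, hP0, hP⟩ := h3 a ha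
      have h5 : Algebra.adjoin Ω u ≤ (adjoin Ω u).toSubalgebra := algebra_adjoin_le_adjoin Ω u
      refine ⟨P.map (Subalgebra.inclusion h5).toRingHom, ?_, ?_⟩
      · rw [Ne, Polynomial.map_eq_zero_iff]
        · exact hP0
        · exact Subalgebra.inclusion_injective _
      · rw [Polynomial.aeval_def, Polynomial.eval₂_map]
        rw [Polynomial.aeval_def] at hP
        exact hP
    refine ⟨hfin.toFinset, ?_, ?_⟩
    · refine Nat.lt_succ_of_le (Finset.card_le_one.2 fun a ha b hb => ?_)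
      rw [Set.Finite.mem_toFinset] at ha hb
      push Not at hxy
      rcases h2 ha with rfl | rfl <;> rcases h2 hb with rfl | rfl
      · rfl
      · exact hxy ha hb
      · exact (hxy hb ha).symm
      · rfl
    · rw [Set.Finite.coe_toFinset]
      exact ⟨h4 x (by simp), h4 y (by simp)⟩

/-- a field which is algebraic over `Ω(x, y)`, if `x`, `y` are algebraically dependent -/
theorem uniruled_of_dep {Ω K : Type} [Field Ω] [Field K] [Algebra Ω K] {x y : K}
    (h : ∃ S : Finset K, S.card < 2 ∧ x ∈ Acl Ω (S : Set K) ∧ y ∈ Acl Ω (S : Set K))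
    (hK : ∀ k : K, k ∈ Acl Ω {x, y}) : Uniruled Ω K 2 := by
  obtain ⟨S, hS, hx, hy⟩ := h
  refine ⟨K, inferInstance, inferInstance, AlgHom.id Ω K, S, 0, hS, fun k => ?_⟩
  refine subset_adjoin _ _ (Or.inl ?_)
  have h1 : ({x, y} : Set K) ⊆ AF Ω (S : Set K) := by
    rintro a (rfl | rfl)
    · exact mem_AF.2 hx
    · exact mem_AF.2 hy
  exact mem_AF.1 (AF_le h1 (mem_AF.2 (hK k)))

/-- a root of `T ^ n - T = a` -/
theorem mem_AF_of_root {Ω K : Type} [Field Ω] [Field K] [Algebra Ω K] {S : Set K} {n : ℕ}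
    (hn : 1 < n) {w : K} (h : w ^ n - w ∈ AF Ω S) : w ∈ AF Ω S := by
  apply AF_closed
  refine ⟨Polynomial.X ^ n - Polynomial.X - Polynomial.C ⟨_, h⟩, ?_, ?_⟩
  · intro h0
    have h1 := congrArg (fun P => Polynomial.coeff P n) h0
    simp only [Polynomial.coeff_sub, Polynomial.coeff_X_pow, Polynomial.coeff_X,
      Polynomial.coeff_C, Polynomial.coeff_zero] at h1
    rw [if_pos trivial, if_neg (by omega), if_neg (by omega)] at h1
    simp at h1
  · rw [map_sub, map_sub, map_pow, Polynomial.aeval_X, Polynomial.aeval_C]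
    exact sub_self _

end Pool.Agent.Helper73.SS
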