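import Pool.Agent.Helper73.SS.Final
import Pool.Agent.Helper73.SS.Dep
import Pool.Agent.Helper75.WC.CurveFin

/-! The classes of covers in the statement. -/

set_option autoImplicit false

namespace Pool.Agent.Helper73.SS

open IntermediateField MvPolynomial Pool.Agent.Helper75.QC Pool.Agent.Helper75.WC
  Pool.Agent.Helper73.QX

theorem wdeg_le {R : Type} [CommSemiring R] {a b d : ℕ} {f : MvPolynomial (Fin 2) R}
    (h : ∀ m ∈ f.support, a * m 0 + b * m 1 ≤ d) : wdeg a b f ≤ d :=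
  Finset.sup_le h

theorem wdeg_sq_le {R : Type} [CommSemiring R] {a b d : ℕ} {f : MvPolynomial (Fin 2) R}
    (h : ∀ m ∈ f.support, a * m 0 + b * m 1 ≤ d) : wdeg a b (f ^ 2) ≤ 2 * d := by
  classical
  refine wdeg_le fun m hm => ?_
  rw [sq] at hm
  obtain ⟨u, hu, v, hv, rfl⟩ := Finset.mem_add.1 (MvPolynomial.support_mul f f hm)
  have h1 := h u hu
  have h2 := h v hv
  simp only [Finsupp.add_apply, mul_add]
  omega

theorem wdeg_one {R : Type} [CommSemiring R] (a b : ℕ) :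
    wdeg a b (1 : MvPolynomial (Fin 2) R) = 0 := by
  classical
  refine Nat.le_zero.1 (wdeg_le fun m hm => ?_)
  have h2 : m = 0 := by
    have h3 := MvPolynomial.mem_support_iff.1 hm
    by_contra h4
    apply h3
    rw [MvPolynomial.coeff_one, if_neg (Ne.symm h4)]
  rw [h2]
  simp

/-- covers with `t = 0` or `p = 2` -/
theorem isWildPlane_of {p : ℕ} {Ω K : Type} [Field Ω] [Field K] [Algebra Ω K]
    {a b d e r : ℕ} {f : Fin r → MvPolynomial (Fin 2) Ω} {g B : MvPolynomial (Fin 2) Ω} {x y t : K}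
    {w : Fin r → K} (hab : 0 < a + b) (hf : ∀ i, ∀ m ∈ (f i).support, a * m 0 + b * m 1 ≤ d)
    (hg : ∀ m ∈ g.support, a * m 0 + b * m 1 ≤ e) (he : e ≤ a + b)
    (hd : (max p 3 - 2) * d + 4 * e ≤ 2 * max p 3 * (a + b))
    (hB : ∀ m ∈ B.support, a * m 0 + b * m 1 + 2 * e ≤ 4 * (a + b))
    (hxy : AlgebraicIndependent Ω ![x, y]) (hK : adjoin Ω ({x, y, t} ∪ Set.range w) = ⊤)
    (ht : t = 0 ∨ p = 2)
    (hg0 : aeval ![x, y] g ≠ 0) (htB : (t ^ 4 + t) * aeval ![x, y] g ^ 2 = aeval ![x, y] B)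
    (hw : ∀ i, (w i ^ p - w i) * aeval ![x, y] g ^ 2 = aeval ![x, y] (f i) ∨
      (w i ^ p - w i - t ^ 3) * aeval ![x, y] g ^ 2 = aeval ![x, y] (f i)) :
    IsWildPlane p Ω K := by
  have hgg := pow_ne_zero 2 hg0
  refine ⟨a, b, r, f, B, g, g ^ 2, 1, x, y, t, w, hab, ?_, by rw [one_pow, mul_one], ?_,
    fun i => ?_, ?_, hxy, hK, ht, ?_, fun i => ?_⟩
  · rintro rfl
    exact hg0 (map_zero _)
  · have h1 := wdeg_sq_le hg
    rw [wdeg_one]
    omega
  · have h1 := wdeg_sq_le hg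
    have h2 : (max p 3 - 2) * wdeg a b (f i) ≤ (max p 3 - 2) * d :=
      Nat.mul_le_mul_left _ (wdeg_le (hf i))
    omega
  · have h1 := wdeg_sq_le hg
    have h2 : wdeg a b B ≤ 4 * (a + b) - 2 * e := wdeg_le fun m hm => by
      have := hB m hm
      omega
    omega
  · rw [one_pow, mul_one, map_pow, eq_div_iff hgg, htB]
  · rcases hw i with h | h
    · left
      rw [eq_div_iff hgg, h]
    · right
      rw [← sub_eq_iff_eq_add', eq_div_iff hgg, h]

/-- wild covers, without the independence of `x` and `y` -/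
theorem wild_or_uniruled {p : ℕ} (hp : 1 < p) {Ω K : Type} [Field Ω] [Field K] [Algebra Ω K]
    {a b d e r : ℕ} {f : Fin r → MvPolynomial (Fin 2) Ω} {g : MvPolynomial (Fin 2) Ω} {x y : K}
    {w : Fin r → K} (hab : 0 < a + b) (hf : ∀ i, ∀ m ∈ (f i).support, a * m 0 + b * m 1 ≤ d)
    (hg : ∀ m ∈ g.support, a * m 0 + b * m 1 ≤ e) (he : e ≤ a + b)
    (hd : (max p 3 - 2) * d + 4 * e ≤ 2 * max p 3 * (a + b))
    (hK : adjoin Ω ({x, y} ∪ Set.range w) = ⊤) (hg0 : aeval ![x, y] g ≠ 0)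
    (hw : ∀ i, (w i ^ p - w i) * aeval ![x, y] g ^ 2 = aeval ![x, y] (f i)) :
    IsWildPlane p Ω K ∨ Uniruled Ω K 2 := by
  rcases indep_or (Ω := Ω) x y with hxy | hxy
  · left
    refine isWildPlane_of (B := 0) (t := 0) hab hf hg he hd (fun m hm => ?_) hxy ?_ (Or.inl rfl)
      hg0 (by simp) fun i => Or.inl (hw i)
    · simp at hm
    · rw [eq_top_iff, ← hK, adjoin_le_iff]
      exact fun s hs => subset_adjoin _ _ (by
        rcases hs with (h | h) | h
        · exact Or.inl (Or.inl h)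
        · exact Or.inl (Or.inr (Or.inl h))
        · exact Or.inr h)
  · right
    refine uniruled_of_dep hxy fun k => ?_
    have hx : x ∈ AF Ω ({x, y} : Set K) := subset_AF _ (by simp)
    have hy : y ∈ AF Ω ({x, y} : Set K) := subset_AF _ (by simp)
    have hP : ∀ P : MvPolynomial (Fin 2) Ω, aeval ![x, y] P ∈ AF Ω ({x, y} : Set K) :=
      fun P => mem_valr75 P x y _ hx hy
    have h1 : adjoin Ω ({x, y} ∪ Set.range w) ≤ AF Ω ({x, y} : Set K) := by
      rw [adjoin_le_iff]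
      rintro s ((rfl | rfl) | ⟨i, rfl⟩)
      · exact hx
      · exact hy
      · refine mem_AF_of_root hp ?_
        rw [(eq_div_iff (pow_ne_zero 2 hg0)).2 (hw i)]
        exact div_mem (hP _) (pow_mem (hP _) 2)
    rw [hK] at h1
    exact mem_AF.1 (h1 (mem_top (x := k)))

end Pool.Agent.Helper73.SS
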