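import Pool.Agent.Helper73.SS.Natural
import Pool.Agent.Helper73.WT.Prim

/-! Supersingular twists: the cyclic covers `M = B(w)`, `w ^ p - w ∈ B`, of any surface `B`, and
the abelian covers whose cyclic subextensions have a tame or a wild uniruled twist. -/

set_option autoImplicit false

namespace Pool.Agent.Helper73.SS

open IntermediateField TensorProduct Module Pool.Agent.Helper75.QC Pool.Agent.Helper48.TT
  Pool.Agent.Helper75.WC Pool.Agent.Helper15.WC Pool.Agent.Helper15.V7 Pool.Agent.Helper15.GD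
  Pool.Agent.Helper73.QX Pool.Agent.Helper73.QW Pool.Agent.Helper73.WT

variable {p : ℕ} {Ω L G : Type} [Field Ω] [Field L]

/-- **One cyclic cover of degree `p`.** -/
theorem SSTheory.good_wildT [hp : Fact p.Prime] [Algebra (ZMod p) Ω] [IsAlgClosed Ω] [CharZero L]
    [IsAlgClosed L] (T : SSTheory p Ω L G) {K : Type} [Field K] [Algebra Ω K]
    (R : IntermediateField Ω K) (M : IntermediateField R K) [FiniteDimensional R M]
    [IsGalois R M] (h : RowW p Ω R M) {K₁ : Type} [Field K₁] [Algebra Ω K₁] (j : M →ₐ[Ω] K₁)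
    (hj : ∀ k : K₁, IsAlgebraic j.fieldRange k) (s : T.H 2 K₁ →ₗ[L] T.H 2 M)
    (hs : ∀ γ t, T.act 2 M γ (s t) = s (T.act 2 K₁ γ t)) (c : (M ≃ₐ[R] M) → L)
    (hc : ∀ (g : M ≃ₐ[R] M) t, T.map 2 ((g : M →ₐ[R] M).restrictScalars Ω) (s t) = c g • s t)
    (hc1 : ∀ (g : M ≃ₐ[R] M) (d : ℕ), c g ^ d = 1 → g ^ d = 1) (hs0 : s ≠ 0) :
    T.map 2 j ∘ₗ s ∈ T.Good K₁ := by
  classical
  obtain ⟨X, Y, Z, w, hZ, hR, htop, hfin, hwn, huni⟩ := h
  obtain ⟨t₀, ht₀⟩ : ∃ t, s t ≠ 0 := by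
    by_contra h
    push Not at h
    exact hs0 (LinearMap.ext h)
  have hBw : adjoin Ω ((adjoin Ω {X, Y, Z} : Set M) ∪ {w}) = ⊤ := by
    rw [← Pool.Agent.Helper35.V7.gen3 X Y Z w, htop]
  obtain ⟨g, hgB, hgw⟩ := exists_shift (p := p) (adjoin Ω {X, Y, Z}) w hR hBw hfin hwn
  have hch := charP_of p Ω M
  have hg1 : g ≠ 1 := by
    intro h
    rw [h, AlgEquiv.one_apply] at hgw
    exact one_ne_zero (left_eq_add.1 hgw)
  obtain ⟨σ, hσ⟩ : ∃ σ : M →ₐ[Ω] M, σ = ((g : M →ₐ[R] M).restrictScalars Ω) := ⟨_, rfl⟩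
  have hσ1 : (∀ k ∈ adjoin Ω {X, Y, Z}, σ k = k) ∧ σ w = w + 1 := by
    rw [hσ]
    exact ⟨hgB, hgw⟩
  have hσp : σ ^ p = AlgHom.id Ω M := by
    have h1 := pow_sigma hσ1 p
    refine Pool.Agent.Helper75.QC.hom_ext ((adjoin Ω {X, Y, Z} : Set M) ∪ {w}) hBw _ _ ?_
    rintro b (hb | hb)
    · exact h1.1 b hb
    · rw [Set.mem_singleton_iff] at hb
      rw [hb, h1.2, CharP.cast_eq_zero, add_zero]
      rfl
  obtain ⟨ξ, hξe⟩ : ∃ ξ : L, ξ = c g := ⟨_, rfl⟩
  have hξt : ∀ t, T.map 2 σ (s t) = ξ • s t := by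
    intro t
    rw [hσ, hc, hξe]
  have hξp : ξ ^ p = 1 := by
    have h1 := map_pow_eigen T.toCohomology 2 σ (hξt t₀) p
    rw [hσp, T.map_id] at h1
    have h2 : (ξ ^ p - 1) • s t₀ = 0 := by
      rw [sub_smul, ← h1, one_smul]
      exact sub_self _
    exact sub_eq_zero.1 ((smul_eq_zero.1 h2).resolve_right ht₀)
  have hξ1 : ξ ≠ 1 := by
    intro h
    apply hg1
    have h1 := hc1 g 1 (by rw [← hξe, h, one_pow])
    rwa [pow_one] at h1
  have hξ0 : ξ ≠ 0 := by
    rintro rfl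
    rw [zero_pow hp.out.ne_zero] at hξp
    exact zero_ne_one hξp
  obtain ⟨C, N, iC, jC, iN, jN, u, v, a, b, hu, hv, hCt, hb, hN, huniv⟩ :=
    exists_as_curve p (Ω := Ω) (aux_prime p) M
  obtain ⟨σC, hσC⟩ : ∃ τ : C →ₐ[Ω] C, τ u = u + 1 ∧ τ v = v := by
    obtain ⟨τ, h1, h2⟩ := huniv C _ _ (transcendental_add hu 1) (by rw [sub_add_em, hv])
    rw [map_one] at h1
    exact ⟨τ, h1, h2⟩
  have hfinC : (⊤ : IntermediateField Ω C).FG := by
    rw [← hCt]
    exact fg_adjoin_of_finite (Set.toFinite _)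
  have hfg : (⊤ : IntermediateField Ω M).FG := by
    rw [← htop]
    exact fg_adjoin_of_finite (Set.toFinite _)
  obtain ⟨z, hz0, hz⟩ := Helper35.WW.wildCurve_aux T.toBaseTheory C u v σC hu hv hCt hσC.1 hσC.2
    ξ⁻¹ (by rw [inv_pow, hξp, inv_one]) (by
      intro h
      exact hξ1 (inv_eq_one.1 h))
  have : CharP Ω p := charP_of p Ω Ω
  have hSS : T.IsSS C := T.isSS_wild C u v hu hv hCt
  have hst : Transcendental a.fieldRange (b v) := by
    intro h3
    apply hb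
    have h4 : IsAlgebraic (algebraicClosure a.fieldRange N) (b u) := by
      obtain ⟨P, hP1, hP2, -⟩ := as_poly p Ω (F := algebraicClosure a.fieldRange N) (b u)
        ⟨b v ^ aux p, pow_mem ((mem_algebraicClosure_iff).2 h3) (aux p)⟩ (by
          have e1 : b u ^ p - b u = b v ^ aux p := by
            rw [← map_pow, ← map_sub, hv, map_pow]
          rw [e1]
          rfl)
      exact ⟨P, hP1.ne_zero, hP2⟩
    exact h4.restrictScalars a.fieldRange
  have huni' : Uniruled Ω (adjoin Ω (a '' (adjoin Ω {X, Y, Z} : Set M) ∪ {b u - a w, b v}) :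
      IntermediateField Ω N) 3 := by
    rw [Pool.Agent.Helper35.V7.img3]
    refine huni N a (b u - a w) (b v) hst ?_
    have := charP_of p Ω N
    rw [sub_pow_char, ← map_pow b v (aux p), ← hv, map_sub, map_sub, map_pow, map_pow]
    ring
  obtain ⟨l, hl⟩ : ∃ l : T.H 1 C →ₗ[L] L, l z = 1 := by
    obtain ⟨l₀, hl₀⟩ : ∃ l₀ : T.H 1 C →ₗ[L] L, l₀ z ≠ 0 := by
      by_contra hcon
      push Not at hcon
      exact hz0 ((Module.forall_dual_apply_eq_zero_iff L z).1 hcon)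
    exact ⟨(l₀ z)⁻¹ • l₀, inv_mul_cancel₀ hl₀⟩
  obtain ⟨mt, hmt⟩ : ∃ mt : T.H 2 K₁ →ₗ[L] T.H 2 M ⊗[L] T.H 1 C,
      ∀ t, mt t = s t ⊗ₜ[L] z := ⟨(TensorProduct.mk L _ _).flip z ∘ₗ s, fun _ => rfl⟩
  have key := T.good_of_map j hj a b X Y u hfg hfinC
    (fun k => alg_wild hp.out.two_le hZ htop hwn k)
    (fun k => sq_pow_ne (aux_prime p).pos hu hv k hCt) hb hSS mt
    (fun t => by
      rw [hmt, TensorProduct.lift.tmul, LinearMap.compl₁₂_apply]
      exact cross_wild T.toBaseTheory (adjoin Ω {X, Y, Z}) w hBw hwn σ hσ1 u v hCt a b hN σC hσC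
        huni' hξ0 z hz (s t) (hξt t))
    (fun γ t => by
      rw [hmt, hmt, map_tmul, hSS γ z, TensorProduct.tmul_smul, hs]) l
  have h1 : con l ∘ₗ mt = s := by
    refine LinearMap.ext fun t => ?_
    rw [LinearMap.comp_apply, hmt, con_tmul, hl, one_smul]
  rwa [h1] at key

theorem RowB.of_le {T : BaseTheory Ω L} {R B M : Type} [Field R] [Field B] [Field M] [Algebra Ω M]
    [Algebra R M] [Algebra B M] (hRB : ∀ r : R, ∃ b : B, algebraMap R M r = algebraMap B M b)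
    {n : ℕ} (h : RowB T B M n) : RowB T R M n := by
  obtain ⟨α, β, B', x, y, w, h1, h2, h3, h4, h5, h6, h7⟩ := h
  refine ⟨α, β, B', x, y, w, h1, h2, h3, h4, h5, fun r => ?_, h7⟩
  obtain ⟨b, hb⟩ := hRB r
  rw [hb]
  exact h6 b

/-- A cyclic subextension `M / R` with a tame twist: `R ⊆ B ⊆ M`, `[M : B]` divides `p ^ k + 1`, and
`M / B` is in the list `LstN` of project V7. -/
def TameRow (p : ℕ) (Ω R M : Type) [Field Ω] [Field R] [Field M] [Algebra Ω M] [Algebra R M] :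
    Prop :=
  ∃ (B : IntermediateField Ω M) (k : ℕ), (∀ r : R, algebraMap R M r ∈ B) ∧
    Module.finrank B M ∣ p ^ k + 1 ∧ Pool.Agent.Helper35.V7.LstN Ω B M

/-- the data of a cyclic subextension -/
theorem TameRow.row [IsAlgClosed Ω] (T : BaseTheory Ω L) {R M : Type} [Field R] [Field M]
    [Algebra Ω R] [Algebra Ω M] [Algebra R M] [IsScalarTower Ω R M] [FiniteDimensional R M]
    [IsGalois R M] (h : TameRow p Ω R M) :
    Uniruled Ω M 2 ∨ ∃ n f, n ∣ p ^ f + 1 ∧ RowB T R M n := by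
  obtain ⟨B, k, hRB, hk, h⟩ := h
  let i : R →+* B := (algebraMap R M).codRestrict B hRB
  letI : Algebra R B := i.toAlgebra
  haveI : IsScalarTower R B M := IsScalarTower.of_algebraMap_eq fun _ => rfl
  haveI : FiniteDimensional B M := FiniteDimensional.right R B M
  haveI : IsGalois B M := IsGalois.tower_top_of_isGalois R B M
  rcases rowB_of_lst T h with h1 | ⟨n, h1⟩
  · exact Or.inl h1
  · exact Or.inr ⟨n, k, (RowB.dvd h1).trans hk, RowB.of_le (fun r => ⟨⟨_, hRB r⟩, rfl⟩) h1⟩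

/-- `K` is a finite abelian extension of `R`, and for each cyclic subextension `M / R` the surface
with the function field `M` is uniruled or has a tame or a wild twist. -/
def IsCoverX (p : ℕ) (Ω K : Type) [Field Ω] [Field K] [Algebra Ω K] : Prop :=
  ∃ R : IntermediateField Ω K, FiniteDimensional R K ∧ IsGalois R K ∧
    (∀ g h : K ≃ₐ[R] K, g * h = h * g) ∧
    ∀ M : IntermediateField R K, IsCyclic (M ≃ₐ[R] M) →
      Uniruled Ω M 2 ∨ TameRow p Ω R M ∨ RowW p Ω R M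

/-- **Abelian covers.** -/
theorem id_good_coverX [hp : Fact p.Prime] [CharP Ω p] [IsAlgClosed Ω] [CharZero L]
    [IsAlgClosed L] (T : SSTheory p Ω L G) {K : Type} [Field K] [Algebra Ω K]
    (hK : IsCoverX p Ω K) : LinearMap.id ∈ T.Good K := by
  classical
  let _ : Algebra (ZMod p) Ω := ZMod.algebra Ω p
  obtain ⟨R, hfin, hgal, hab, hM⟩ := hK
  obtain ⟨m, χ, E, hsum, hE, hcomm⟩ := exists_projectors hab (galRep T.toBaseTheory R 2)
  have hl := fun i => exists_lift T.toBaseTheory R 2 (χ i) (E i) (fun g t => hE i g t)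
  choose M hcyc s c hs hc hc1 using hl
  have h1 : (LinearMap.id : T.H 2 K →ₗ[L] T.H 2 K) = ∑ i, T.map 2 (incl R (M i)) ∘ₗ s i := by
    refine LinearMap.ext fun t => ?_
    rw [LinearMap.sum_apply]
    exact ((Finset.sum_congr rfl fun i _ => hs i t).trans (hsum t)).symm
  rw [h1]
  refine Submodule.sum_mem _ fun i _ => ?_
  by_cases h0 : s i = 0
  · rw [h0, LinearMap.comp_zero]
    exact Submodule.zero_mem _
  have hG : IsGalois R (M i) := Pool.Agent.Helper35.WC.isGalois_of_comm hab (M i)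
  have hact : ∀ γ t, T.act 2 (M i) γ (s i t) = s i (T.act 2 K γ t) := by
    intro γ t
    apply T.inj 2 _ (incl_alg R (M i))
    rw [T.map_act, hs, hs]
    exact hcomm i (T.act 2 K γ) (fun g v => (T.map_act 2 _ γ v).symm) t
  have huni : Uniruled Ω (M i) 2 → s i = 0 := fun h =>
    LinearMap.ext fun t => T.uniruled 2 (M i) h (s i t)
  have htame : TameRow p Ω R (M i) → T.map 2 (incl R (M i)) ∘ₗ s i ∈ T.Good K := by
    intro h
    rcases h.row T.toBaseTheory with h | ⟨n, f, hn, h⟩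
    · exact absurd (huni h) h0
    · obtain ⟨C, N, iC, jC, iN, jN, a, b, x, y, α, β, ζ, v, u, τ, ξ, z, P⟩ :=
        exists_preB T.toBaseTheory R (M i) h (s i) (c i) (hc i) (hc1 i) h0
      exact T.good_pre hn (incl R (M i)) (incl_alg R (M i)) (s i) hact P
  rcases hM (M i) (hcyc i) with h | h | h
  · exact absurd (huni h) h0
  · exact htame h
  · exact T.good_wildT R (M i) h (incl R (M i)) (incl_alg R (M i)) (s i) hact (c i) (hc i)
      (hc1 i) h0

/-- **The main theorem.** -/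
theorem FrobCoh.mainX [hp : Fact p.Prime] [CharP Ω p] [IsAlgClosed Ω] [CharZero L] [IsAlgClosed L]
    (T : FrobCoh Ω L) (h : T.IsFrob p) {K K' K₀ K₀' : Ext Ω} (hK : IsCoverX p Ω K)
    (hK' : IsCoverX p Ω K') (j : K₀.Hom K) (j' : K₀'.Hom K') (hj : j.IsAlgebraic)
    (hj' : j'.IsAlgebraic) :
    T.sup K₀ K₀' = ⊤ ∧ T.tateClasses p K₀ K₀' ≤ T.cyc K₀ K₀' :=
  T.main_of_good h (id_good_coverX (T.toSS h) (K := K) hK)
    (id_good_coverX (T.toSS h) (K := K') hK') j j' hj hj'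

end Pool.Agent.Helper73.SS
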