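import Pool.Agent.Helper73.SS.AddCover
import Pool.Agent.Helper73.SS.WildT
import Pool.Agent.Helper73.WT.Pull
import Pool.Agent.Helper73.SS.Listed

/-! Supersingular twists: examples of abelian covers with wild twists. -/

set_option autoImplicit false

namespace Pool.Agent.Helper73.SS

open IntermediateField Module Pool.Agent.Helper75.QC Pool.Agent.Helper73.QX
  Pool.Agent.Helper73.QW Pool.Agent.Helper73.WT Pool.Agent.Helper73.V7 Pool.Agent.Helper9.TR

/-- `K` is a finite abelian extension of `R`, and for each cyclic subextension `M / R` the surface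
with the function field `M` is uniruled or has a wild twist. -/
def IsCoverW (p : ℕ) (Ω K : Type) [Field Ω] [Field K] [Algebra Ω K] : Prop :=
  ∃ R : IntermediateField Ω K, FiniteDimensional R K ∧ IsGalois R K ∧
    (∀ g h : K ≃ₐ[R] K, g * h = h * g) ∧
    ∀ M : IntermediateField R K, IsCyclic (M ≃ₐ[R] M) → Uniruled Ω M 2 ∨ RowW p Ω R M

/-- a uniruled surface -/
theorem isCoverW_of_uniruled {p : ℕ} {Ω K : Type} [Field Ω] [Field K] [Algebra Ω K]
    (h : Uniruled Ω K 2) : IsCoverW p Ω K := by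
  have hfd : FiniteDimensional (⊤ : IntermediateField Ω K) K :=
    Module.finite_of_finrank_pos (by rw [IntermediateField.finrank_top]; exact one_pos)
  refine ⟨⊤, hfd, ?_, fun g g' => ?_, fun M _ => Or.inl (uniruled_hom h (M.val.restrictScalars Ω))⟩
  · refine isGalois_iff.2 ⟨⟨fun k => ?_⟩, ⟨fun k => ?_⟩⟩
    · have h1 : k = algebraMap (⊤ : IntermediateField Ω K) K ⟨k, mem_top⟩ := rfl
      rw [h1]
      exact isSeparable_algebraMap _
    · have h1 : k = algebraMap (⊤ : IntermediateField Ω K) K ⟨k, mem_top⟩ := rfl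
      rw [h1, minpoly.eq_X_sub_C, Polynomial.map_sub, Polynomial.map_X, Polynomial.map_C]
      exact Polynomial.Splits.X_sub_C _
  · have h1 : ∀ g : K ≃ₐ[(⊤ : IntermediateField Ω K)] K, g = 1 := fun g =>
      AlgEquiv.ext fun k => g.commutes ⟨k, mem_top⟩
    rw [h1 g, h1 g']

section

variable {p : ℕ} [hp : Fact p.Prime] {Ω : Type} [Field Ω] [Algebra (ZMod p) Ω] [IsAlgClosed Ω]
  {K : Type} [Field K] [Algebra Ω K]

omit hp [Algebra (ZMod p) Ω] [IsAlgClosed Ω] in
theorem adjoin_scale {x y u : K} {c : Ω} (hc : c ≠ 0) :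
    adjoin Ω {x, y, u} = adjoin Ω {x, y, algebraMap Ω K c * u} := by
  have hck : algebraMap Ω K c ≠ 0 := (_root_.map_ne_zero _).2 hc
  apply le_antisymm
  · rw [adjoin_le_iff]
    rintro s (rfl | rfl | hs)
    · exact subset_adjoin _ _ (by simp)
    · exact subset_adjoin _ _ (by simp)
    · rw [Set.mem_singleton_iff] at hs
      have h1 : s = (algebraMap Ω K c)⁻¹ * (algebraMap Ω K c * u) := by
        rw [hs, ← mul_assoc, inv_mul_cancel₀ hck, one_mul]
      rw [h1]
      exact mul_mem (inv_mem (IntermediateField.algebraMap_mem _ _)) (subset_adjoin _ _ (by simp))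
  · rw [adjoin_le_iff]
    rintro s (rfl | rfl | hs)
    · exact subset_adjoin _ _ (by simp)
    · exact subset_adjoin _ _ (by simp)
    · rw [Set.mem_singleton_iff] at hs
      rw [hs]
      exact mul_mem (IntermediateField.algebraMap_mem _ _) (subset_adjoin _ _ (by simp))

/-- the base is uniruled -/
theorem uniruled_bot {R : IntermediateField Ω K} (h : Uniruled Ω R 2) :
    Uniruled Ω (⊥ : IntermediateField R K) 2 :=
  uniruled_hom h (((botEquiv R K).toAlgHom).restrictScalars Ω)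

/-- **Base change by an additive polynomial.** `K = Ω(x, y, w)` and `F(x, y, L(w)) = 0`, where
`L(w) = l_0 * w + l_1 * w ^ p + ⋯ + l_e * w ^ p ^ e`, `l_0 * l_e ≠ 0`. -/
theorem isCoverW_add {e : ℕ} {l : ℕ → Ω} (hl0 : l 0 ≠ 0) (hle : l e ≠ 0) (a b c : ℕ)
    (F : MvPolynomial (Fin 3) Ω) (x y w : K) (hK : adjoin Ω {x, y, w} = ⊤)
    (hpos : 0 < a + b + c) (hF : F ≠ 0)
    (hd : ∀ m ∈ F.support, a * m 0 + b * m 1 + 2 * c * m 2 ≤ a + b + c)
    (h0 : MvPolynomial.aeval ![x, y, addV p (e + 1) l w] F = 0) : IsCoverW p Ω K := by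
  classical
  obtain ⟨u, hu⟩ : ∃ u, u = addV p (e + 1) l w := ⟨_, rfl⟩
  rw [← hu] at h0
  have hd' : WLE ![a, b, 2 * c] (a + b + c) F := by
    intro m hm
    rw [Fin.sum_univ_three]
    exact hd m hm
  have huni : Uniruled Ω (adjoin Ω {x, y, u} : IntermediateField Ω K) 2 :=
    uni_low one_pos one_le_two F hF hd' hpos x y u (by rw [pow_one]; exact h0)
  rcases Nat.eq_zero_or_pos e with he0 | he0
  · subst he0
    have h1 : u = algebraMap Ω K (l 0) * w := by
      rw [hu]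
      unfold addV
      rw [Finset.sum_range_one, pow_zero, pow_one]
    have h2 : adjoin Ω {x, y, u} = ⊤ := by
      rw [h1, ← adjoin_scale hl0, hK]
    rw [h2] at huni
    exact isCoverW_of_uniruled (uniruled_hom huni (topEquiv (F := Ω) (E := K)).symm.toAlgHom)
  have huR : addV p (e + 1) l w ∈ adjoin Ω {x, y, u} := by
    rw [← hu]
    exact subset_adjoin _ _ (by simp)
  have htop : adjoin (adjoin Ω {x, y, u} : IntermediateField Ω K) {w} = ⊤ := by
    rw [eq_top_iff]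
    intro z _
    have h1 : adjoin Ω {x, y, w} ≤
        (adjoin (adjoin Ω {x, y, u} : IntermediateField Ω K) {w}).restrictScalars Ω := by
      rw [adjoin_le_iff]
      rintro v (hv | hv | hv)
      · rw [hv]
        exact (adjoin (adjoin Ω {x, y, u} : IntermediateField Ω K) {w}).algebraMap_mem
          ⟨x, subset_adjoin _ _ (by simp)⟩
      · rw [hv]
        exact (adjoin (adjoin Ω {x, y, u} : IntermediateField Ω K) {w}).algebraMap_mem
          ⟨y, subset_adjoin _ _ (by simp)⟩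
      · rw [hv]
        exact mem_adjoin_simple_self (adjoin Ω {x, y, u} : IntermediateField Ω K) _
    apply h1
    rw [hK]
    exact mem_top
  obtain ⟨hfd, hgal⟩ := galois_add (p := p) hl0 hle _ huR htop
  obtain ⟨hab, hcyc⟩ := add_cyclic (p := p) hl0 hle he0 _ huR htop
  refine ⟨_, hfd, hgal, hab, fun M hM => ?_⟩
  rcases hcyc M hM with h1 | ⟨w', c', hc0, hw', hMw, hfr⟩
  · left
    rw [h1]
    exact uniruled_bot huni
  right
  rw [← hu] at hw'
  have hR : (adjoin Ω {x, y, u} : IntermediateField Ω K) = adjoin Ω {x, y, w' ^ p - w'} := by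
    rw [hw']
    exact adjoin_scale hc0
  have hxM : x ∈ M := M.algebraMap_mem ⟨x, subset_adjoin _ _ (by simp)⟩
  have hyM : y ∈ M := M.algebraMap_mem ⟨y, subset_adjoin _ _ (by simp)⟩
  have huM : u ∈ M := M.algebraMap_mem ⟨u, subset_adjoin _ _ (by simp)⟩
  have hwM : w' ∈ M := by
    rw [hMw]
    exact mem_adjoin_simple_self _ _
  obtain ⟨g1, g2, g3⟩ := gens_of _ hR M hMw hxM hyM (sub_mem (pow_mem hwM p) hwM) hwM
  -- the equation
  obtain ⟨G, hG⟩ : ∃ G : Fin 3 → MvPolynomial (Fin 3) Ω, G = ![MvPolynomial.X 0,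
    MvPolynomial.X 1, MvPolynomial.C c'⁻¹ * MvPolynomial.X 2] := ⟨_, rfl⟩
  have hval : ∀ (A : Type) [Field A] [Algebra Ω A] (r s t : A),
      MvPolynomial.aeval ![r, s, t] (MvPolynomial.bind₁ G F) =
        MvPolynomial.aeval ![r, s, algebraMap Ω A c'⁻¹ * t] F := by
    intro A _ _ r s t
    rw [MvPolynomial.aeval_bind₁]
    congr 2
    funext i
    fin_cases i
    · simp [hG]
    · simp [hG]
    · simp [hG]
  refine pull_rowW a b c (MvPolynomial.bind₁ G F) ⟨x, hxM⟩ ⟨y, hyM⟩ ⟨w', hwM⟩ g1 ?_ ?_ hpos ?_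
    ?_ ?_
  · rw [eq_top_iff, ← g3, adjoin_le_iff]
    have mw : (⟨w', hwM⟩ : M) ∈ adjoin Ω {(⟨x, hxM⟩ : M), ⟨y, hyM⟩, ⟨w', hwM⟩} :=
      subset_adjoin _ _ (by simp)
    rintro s (rfl | rfl | rfl | rfl)
    · exact subset_adjoin _ _ (by simp)
    · exact subset_adjoin _ _ (by simp)
    · exact sub_mem (pow_mem mw p) mw
    · exact mw
  · exact (finrank_of_range _ g1 g2).trans hfr
  · intro h
    apply hF
    refine MvPolynomial.funext fun q => ?_
    have h2 := congrArg (MvPolynomial.aeval ![q 0, q 1, c' * q 2]) h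
    rw [hval, map_zero] at h2
    have h3 : (![q 0, q 1, algebraMap Ω Ω c'⁻¹ * (c' * q 2)] : Fin 3 → Ω) = q := by
      have h4 : algebraMap Ω Ω c'⁻¹ * (c' * q 2) = q 2 := by
        show c'⁻¹ * (c' * q 2) = q 2
        rw [← mul_assoc, inv_mul_cancel₀ hc0, one_mul]
      rw [h4]
      funext i
      fin_cases i <;> rfl
    rw [h3, MvPolynomial.aeval_eq_eval] at h2
    rw [map_zero]
    exact h2
  · have h1 : WLE ![a, b, 2 * c] (a + b + c) (MvPolynomial.bind₁ G F) := by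
      refine wle_bind (u := ![a, b, 2 * c]) hd' G ?_
      intro k
      rw [hG]
      fin_cases k
      · exact wle_X 0
      · exact wle_X 1
      · have h2 := wle_mul (w := ![a, b, 2 * c]) (wle_C c'⁻¹) (wle_X (2 : Fin 3))
        rw [zero_add] at h2
        exact h2
    intro m hm
    have h2 := h1 m hm
    rw [Fin.sum_univ_three] at h2
    exact h2
  · rw [hval]
    apply Subtype.ext
    let f : M →ₐ[Ω] K := M.val.restrictScalars Ω
    have hck : algebraMap Ω K c' ≠ 0 := (_root_.map_ne_zero _).2 hc0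
    have h1 : f ∘ ![(⟨x, hxM⟩ : M), ⟨y, hyM⟩,
        algebraMap Ω M c'⁻¹ * ((⟨w', hwM⟩ : M) ^ p - ⟨w', hwM⟩)] = ![x, y, u] := by
      funext i
      fin_cases i
      · rfl
      · rfl
      · show algebraMap Ω K c'⁻¹ * (w' ^ p - w') = u
        rw [hw', map_inv₀, ← mul_assoc, inv_mul_cancel₀ hck, one_mul]
    have h2 : f (MvPolynomial.aeval ![(⟨x, hxM⟩ : M), ⟨y, hyM⟩,
        algebraMap Ω M c'⁻¹ * ((⟨w', hwM⟩ : M) ^ p - ⟨w', hwM⟩)] F) = 0 := by
      rw [← AlgHom.comp_apply, MvPolynomial.comp_aeval]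
      show MvPolynomial.aeval (f ∘ _) F = 0
      rw [h1, h0]
    exact h2

/-- **Elliptic surfaces.** -/
theorem isCoverW_elliptic {e : ℕ} {l : ℕ → Ω} (hl0 : l 0 ≠ 0) (hle : l e ≠ 0)
    (a₁ a₂ a₃ a₄ a₆ : Polynomial Ω) (h₁ : 2 * a₁.natDegree ≤ 1)
    (h₂ : 2 * a₂.natDegree ≤ 2) (h₃ : 2 * a₃.natDegree ≤ 3) (h₄ : 2 * a₄.natDegree ≤ 4)
    (h₆ : 2 * a₆.natDegree ≤ 6) (x y w u : K) (hK : adjoin Ω {x, y, w} = ⊤)
    (hu : u = addV p (e + 1) l w)
    (h : y ^ 2 + Polynomial.aeval u a₁ * x * y + Polynomial.aeval u a₃ * y =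
      x ^ 3 + Polynomial.aeval u a₂ * x ^ 2 + Polynomial.aeval u a₄ * x +
        Polynomial.aeval u a₆) : IsCoverW p Ω K := by
  obtain ⟨a, b, c, F, hpos, hF, hd, h0⟩ := elliptic_data 1 a₁ a₂ a₃ a₄ a₆ h₁ h₂ h₃ h₄ h₆ x y
    u (by simp only [pow_one]; exact h)
  rw [pow_one, hu] at h0
  exact isCoverW_add hl0 hle a b c F x y w hK hpos hF hd h0

/-- the plane is rational -/
theorem uniruled_plane {x y : K} :
    Uniruled Ω (⊥ : IntermediateField (adjoin Ω {x, y} : IntermediateField Ω K) K) 2 := by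
  apply uniruled_bot
  refine ⟨K, inferInstance, inferInstance, (adjoin Ω {x, y}).val, {x}, y, by simp, fun k => ?_⟩
  have h2 : adjoin Ω {x, y} ≤ adjoin Ω (Acl Ω (({x} : Finset K) : Set K) ∪ {y}) := by
    rw [adjoin_le_iff]
    rintro s (hs | hs)
    · rw [hs]
      refine subset_adjoin _ _ (Or.inl ?_)
      rw [← coe_AF]
      exact subset_AF _ (by simp)
    · exact subset_adjoin _ _ (Or.inr hs)
  exact h2 k.2

/-- A cyclic covering `w ^ p - w = F(x, y) / g(x, y) ^ 2` of the plane. -/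
theorem rowW_plane {a b d e : ℕ} {F g : MvPolynomial (Fin 2) Ω} {x y w' : K} (hab : 0 < a + b)
    (hF : ∀ m ∈ F.support, a * m 0 + b * m 1 ≤ d)
    (hg : ∀ m ∈ g.support, a * m 0 + b * m 1 ≤ e) (he : e ≤ a + b)
    (hd : (max p 3 - 2) * d + 4 * e ≤ 2 * max p 3 * (a + b))
    (hg0 : MvPolynomial.aeval ![x, y] g ≠ 0)
    (hw : (w' ^ p - w') * MvPolynomial.aeval ![x, y] g ^ 2 = MvPolynomial.aeval ![x, y] F)
    (M : IntermediateField (adjoin Ω {x, y} : IntermediateField Ω K) K)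
    (hMw : M = adjoin (adjoin Ω {x, y} : IntermediateField Ω K) {w'})
    (hfr : finrank (adjoin Ω {x, y} : IntermediateField Ω K) M = p) :
    RowW p Ω (adjoin Ω {x, y} : IntermediateField Ω K) M := by
  classical
  have hgg := pow_ne_zero 2 hg0
  have e3 : ∀ {A : Type} (r s : A), ({r, s, r} : Set A) = {r, s} := by
    intro A r s
    ext t
    simp only [Set.mem_insert_iff, Set.mem_singleton_iff]
    tauto
  have hR : (adjoin Ω {x, y} : IntermediateField Ω K) = adjoin Ω {x, y, x} := by rw [e3]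
  have hxM : x ∈ M := M.algebraMap_mem ⟨x, subset_adjoin _ _ (by simp)⟩
  have hyM : y ∈ M := M.algebraMap_mem ⟨y, subset_adjoin _ _ (by simp)⟩
  have hwM : w' ∈ M := by
    rw [hMw]
    exact mem_adjoin_simple_self _ _
  obtain ⟨g1, g2, g3⟩ := gens_of _ hR M hMw hxM hyM hxM hwM
  have hwR : w' ^ p - w' ∈ adjoin Ω {x, y} := by
    rw [(eq_div_iff hgg).2 hw]
    have hx : x ∈ adjoin Ω {x, y} := subset_adjoin Ω _ (by simp)
    have hy : y ∈ adjoin Ω {x, y} := subset_adjoin Ω _ (by simp)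
    exact div_mem (aeval_mem_of _ hx hy _) (pow_mem (aeval_mem_of _ hx hy _) 2)
  have hval : ∀ P : MvPolynomial (Fin 2) Ω,
      ((MvPolynomial.aeval ![(⟨x, hxM⟩ : M), ⟨y, hyM⟩] P : M) : K) =
        MvPolynomial.aeval ![x, y] P := by
    intro P
    have h1 := map_aeval75 (M.val.restrictScalars Ω : M →ₐ[Ω] K) ⟨x, hxM⟩ ⟨y, hyM⟩ P
    exact h1
  have h2 : p = 2 ∨ (2 : Ω) ≠ 0 := by
    by_cases hp2 : p = 2
    · exact Or.inl hp2
    · exact Or.inr (two_ne_zero' hp2)
  have hgeo : Geo Ω p (aux p) (⟨x, hxM⟩ : M) ⟨y, hyM⟩ ((⟨w', hwM⟩ : M) ^ p - ⟨w', hwM⟩) := by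
    refine geo_of_pole hp.out h2 a b d (2 * e) 0 hab F g (g ^ 2) 1 hF ?_ ?_
      (by rw [one_pow, mul_one]) (by omega) (by omega) ?_ ?_
    · intro m hm
      have h3 := wdeg_sq_le hg
      exact (le_wdeg a b (g ^ 2) m hm).trans h3
    · intro m hm
      have h3 := le_wdeg a b (1 : MvPolynomial (Fin 2) Ω) m hm
      rw [wdeg_one] at h3
      exact h3
    · intro h
      apply hg0
      rw [← hval, h]
      rfl
    · apply Subtype.ext
      show (w' ^ p - w') * ((MvPolynomial.aeval ![(⟨x, hxM⟩ : M), ⟨y, hyM⟩] g : M) : K) ^ 2 =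
        ((MvPolynomial.aeval ![(⟨x, hxM⟩ : M), ⟨y, hyM⟩] _ : M) : K)
      rw [hval, hval, hw]
  refine ⟨⟨x, hxM⟩, ⟨y, hyM⟩, ⟨x, hxM⟩, ⟨w', hwM⟩, ?_, g1, g3, ?_, ?_, ?_⟩
  · rw [← coe_AF]
    exact subset_AF _ (by simp)
  · exact (finrank_of_range _ g1 g2).trans hfr
  · have h3 := g1 ⟨w' ^ p - w', hwR⟩
    exact h3
  · intro N _ _ γ δ s hs heq
    have e5 : ∀ r s t u : N, ({r, s, r, t, u} : Set N) = {r, s, t, u} := by
      intro r s t u
      ext v
      simp only [Set.mem_insert_iff, Set.mem_singleton_iff]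
      tauto
    rw [e5]
    refine hgeo N γ δ s ?_ hs heq
    intro h3
    apply hs
    have h4 : IsAlgebraic γ.fieldRange (s ^ aux p) := by
      have h5 : s ^ aux p = δ ^ p - δ + γ ((⟨w', hwM⟩ : M) ^ p - ⟨w', hwM⟩) := by
        rw [heq]
        ring
      rw [h5]
      exact ((h3.pow p).sub h3).add (isAlgebraic_algebraMap
        (⟨γ ((⟨w', hwM⟩ : M) ^ p - ⟨w', hwM⟩), ⟨_, rfl⟩⟩ : γ.fieldRange))
    exact IsAlgebraic.of_pow (aux_prime p).pos h4

/-- The composite of the coverings `w ^ p - w = f_i(x, y) / g(x, y) ^ 2` of the plane. -/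
theorem isCoverW_plane {a b d e r : ℕ} {f : Fin r → MvPolynomial (Fin 2) Ω}
    {g : MvPolynomial (Fin 2) Ω} {x y : K} {w : Fin r → K} (hab : 0 < a + b)
    (hf : ∀ i, ∀ m ∈ (f i).support, a * m 0 + b * m 1 ≤ d)
    (hg : ∀ m ∈ g.support, a * m 0 + b * m 1 ≤ e) (he : e ≤ a + b)
    (hd : (max p 3 - 2) * d + 4 * e ≤ 2 * max p 3 * (a + b))
    (hxy : AlgebraicIndependent Ω ![x, y])
    (hK : adjoin Ω ({x, y} ∪ Set.range w) = ⊤) (hg0 : MvPolynomial.aeval ![x, y] g ≠ 0)
    (hw : ∀ i, (w i ^ p - w i) * MvPolynomial.aeval ![x, y] g ^ 2 =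
      MvPolynomial.aeval ![x, y] (f i)) : IsCoverW p Ω K := by
  classical
  have hgg := pow_ne_zero 2 hg0
  have hw2 : ∀ i, w i ^ p - w i =
      MvPolynomial.aeval ![x, y] (f i) / MvPolynomial.aeval ![x, y] g ^ 2 := fun i =>
    (eq_div_iff hgg).2 (hw i)
  have hC : Cov p Ω x y w := cov_of hxy hK hw2
  obtain ⟨hfd, hgal⟩ := hC.galois
  obtain ⟨hcomm, hcyc⟩ := elem_cyclic (p := p) (Ω := Ω) hC.hw (by
    intro τ hτ
    apply toHom_injective
    refine hC.hom_ext _ _ ?_ ?_ fun i => ?_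
    · rw [toHom_x, toHom_x]
    · rw [toHom_y, toHom_y]
    · exact hτ i)
  refine ⟨adjoin Ω {x, y}, hfd, hgal, hcomm, fun M hM => ?_⟩
  rcases hcyc M hM with h1 | ⟨⟨k, hMw⟩, hfr⟩
  · left
    rw [h1]
    exact uniruled_plane
  right
  refine rowW_plane (F := ∑ i, MvPolynomial.C (algebraMap (ZMod p) Ω (k i)) * f i) hab ?_ hg he hd
    hg0 ?_ M hMw hfr
  · intro m hm
    have h3 : ∃ i, m ∈ (f i).support := by
      by_contra hcon
      push Not at hcon
      rw [MvPolynomial.mem_support_iff] at hm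
      apply hm
      rw [MvPolynomial.coeff_sum]
      refine Finset.sum_eq_zero fun i _ => ?_
      rw [MvPolynomial.coeff_C_mul, MvPolynomial.notMem_support_iff.1 (hcon i), mul_zero]
    obtain ⟨i, hi⟩ := h3
    exact hf i m hi
  · rw [comb_sub]
    unfold comb
    rw [map_sum, Finset.sum_mul]
    refine Finset.sum_congr rfl fun i _ => ?_
    show em p Ω K (k i) * (w i ^ p - w i) * _ = _
    rw [map_mul, MvPolynomial.aeval_C, mul_assoc, hw i]
    rfl

/-- The covering `L(w) = f(x, y) / g(x, y) ^ 2` of the plane, where `L` is a separable additive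
polynomial. -/
theorem isCoverW_plane_add {a b d e j : ℕ} {l : ℕ → Ω} (hl0 : l 0 ≠ 0) (hle : l j ≠ 0)
    (hj : 0 < j) {f g : MvPolynomial (Fin 2) Ω} {x y w : K} (hab : 0 < a + b)
    (hf : ∀ m ∈ f.support, a * m 0 + b * m 1 ≤ d)
    (hg : ∀ m ∈ g.support, a * m 0 + b * m 1 ≤ e) (he : e ≤ a + b)
    (hd : (max p 3 - 2) * d + 4 * e ≤ 2 * max p 3 * (a + b))
    (hK : adjoin Ω {x, y, w} = ⊤) (hg0 : MvPolynomial.aeval ![x, y] g ≠ 0)
    (hw : addV p (j + 1) l w * MvPolynomial.aeval ![x, y] g ^ 2 =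
      MvPolynomial.aeval ![x, y] f) : IsCoverW p Ω K := by
  classical
  have hgg := pow_ne_zero 2 hg0
  have hu : addV p (j + 1) l w ∈ adjoin Ω {x, y} := by
    rw [(eq_div_iff hgg).2 hw]
    have hx : x ∈ adjoin Ω {x, y} := subset_adjoin Ω _ (by simp)
    have hy : y ∈ adjoin Ω {x, y} := subset_adjoin Ω _ (by simp)
    exact div_mem (aeval_mem_of _ hx hy _) (pow_mem (aeval_mem_of _ hx hy _) 2)
  have htop : adjoin (adjoin Ω {x, y} : IntermediateField Ω K) {w} = ⊤ := by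
    rw [eq_top_iff]
    intro z _
    have h1 : adjoin Ω {x, y, w} ≤
        (adjoin (adjoin Ω {x, y} : IntermediateField Ω K) {w}).restrictScalars Ω := by
      rw [adjoin_le_iff]
      rintro v (hv | hv | hv)
      · rw [hv]
        exact (adjoin (adjoin Ω {x, y} : IntermediateField Ω K) {w}).algebraMap_mem
          ⟨x, subset_adjoin _ _ (by simp)⟩
      · rw [hv]
        exact (adjoin (adjoin Ω {x, y} : IntermediateField Ω K) {w}).algebraMap_mem
          ⟨y, subset_adjoin _ _ (by simp)⟩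
      · rw [hv]
        exact mem_adjoin_simple_self (adjoin Ω {x, y} : IntermediateField Ω K) _
    apply h1
    rw [hK]
    exact mem_top
  obtain ⟨hfd, hgal⟩ := galois_add (p := p) hl0 hle _ hu htop
  obtain ⟨hcomm, hcyc⟩ := add_cyclic (p := p) hl0 hle hj _ hu htop
  refine ⟨adjoin Ω {x, y}, hfd, hgal, hcomm, fun M hM => ?_⟩
  rcases hcyc M hM with h1 | ⟨w', c', hc0, hw', hMw, hfr⟩
  · left
    rw [h1]
    exact uniruled_plane
  right
  refine rowW_plane (F := MvPolynomial.C c' * f) hab ?_ hg he hd hg0 ?_ M hMw hfr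
  · intro m hm
    refine hf m ?_
    rw [MvPolynomial.mem_support_iff] at hm ⊢
    intro h3
    apply hm
    rw [MvPolynomial.coeff_C_mul, h3, mul_zero]
  · rw [hw', map_mul, MvPolynomial.aeval_C, mul_assoc, hw]

end

end Pool.Agent.Helper73.SS
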