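import Pool.Agent.Helper73.SS.ElemAb

/-! Separable additive polynomials `L = ∑ l_i X ^ p ^ i`, `i ≤ e`: for each linear form on the zeros
there is an additive polynomial `P` with these values, and `P ^ p - P = c L`. -/

set_option autoImplicit false

namespace Pool.Agent.Helper73.SS

open Polynomial Pool.Agent.Helper73.QX

section

variable {O : Type} [Field O]

/-- the additive polynomial with the coefficients `l i` -/
noncomputable def addP (p e : ℕ) (l : ℕ → O) : O[X] := ∑ i ∈ Finset.range e, C (l i) * X ^ p ^ i

/-- its value -/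
noncomputable def addV (p e : ℕ) (l : ℕ → O) {E : Type} [Field E] [Algebra O E] (z : E) : E :=
  ∑ i ∈ Finset.range e, algebraMap O E (l i) * z ^ p ^ i

variable {p e : ℕ} {l : ℕ → O} {E : Type} [Field E] [Algebra O E]

theorem aeval_addP (z : E) : aeval z (addP p e l) = addV p e l z := by
  unfold addP addV
  rw [map_sum]
  exact Finset.sum_congr rfl fun i _ => by rw [map_mul, aeval_C, map_pow, aeval_X]

theorem eval_addP (z : O) : eval z (addP p e l) = addV p e l z := by
  rw [← coe_aeval_eq_eval]
  exact aeval_addP z

theorem addV_add [Fact p.Prime] [CharP E p] (z z' : E) :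
    addV p e l (z + z') = addV p e l z + addV p e l z' := by
  unfold addV
  rw [← Finset.sum_add_distrib]
  exact Finset.sum_congr rfl fun i _ => by rw [add_pow_char_pow, mul_add]

theorem addV_zero [hp : Fact p.Prime] : addV p e l (0 : E) = 0 := by
  unfold addV
  exact Finset.sum_eq_zero fun i _ => by
    rw [zero_pow (pow_ne_zero _ hp.out.ne_zero), mul_zero]

theorem addV_map {F : Type} [Field F] [Algebra O F] (g : E →ₐ[O] F) (z : E) :
    g (addV p e l z) = addV p e l (g z) := by
  unfold addV
  rw [map_sum]
  exact Finset.sum_congr rfl fun i _ => by rw [map_mul, AlgHom.commutes, map_pow]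

theorem addV_algebraMap (z : O) : algebraMap O E (addV p e l z) = addV p e l (algebraMap O E z) :=
  addV_map (Algebra.ofId O E) z

theorem addV_em [hp : Fact p.Prime] [Algebra (ZMod p) O] (c : ZMod p) (z : E) :
    addV p e l (em p O E c * z) = em p O E c * addV p e l z := by
  unfold addV
  rw [Finset.mul_sum]
  refine Finset.sum_congr rfl fun i _ => ?_
  rw [mul_pow, em_pow']
  ring

theorem natDegree_addP_le (hp : 1 < p) : (addP p (e + 1) l).natDegree ≤ p ^ e := by
  unfold addP
  refine natDegree_sum_le_of_forall_le _ _ fun i hi => ?_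
  refine (natDegree_C_mul_le _ _).trans ?_
  rw [natDegree_X_pow]
  exact Nat.pow_le_pow_right (by omega) (Nat.lt_succ_iff.1 (Finset.mem_range.1 hi))

theorem coeff_addP (hp : 1 < p) {i : ℕ} (hi : i < e) : (addP p e l).coeff (p ^ i) = l i := by
  unfold addP
  rw [finsetSum_coeff, Finset.sum_eq_single i]
  · rw [coeff_C_mul, coeff_X_pow, if_pos rfl, mul_one]
  · intro j _ hj
    rw [coeff_C_mul, coeff_X_pow, if_neg, mul_zero]
    intro h
    exact hj (Nat.pow_right_injective hp h).symm
  · intro h
    exact absurd (Finset.mem_range.2 hi) h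

theorem addP_ne_zero (hp : 1 < p) {i : ℕ} (hi : i < e) (h : l i ≠ 0) : addP p e l ≠ 0 := by
  intro h0
  apply h
  rw [← coeff_addP (l := l) hp hi, h0, coeff_zero]

theorem natDegree_addP (hp : 1 < p) (h : l e ≠ 0) : (addP p (e + 1) l).natDegree = p ^ e := by
  refine le_antisymm (natDegree_addP_le hp) (le_natDegree_of_ne_zero ?_)
  rw [coeff_addP hp (Nat.lt_succ_self e)]
  exact h

theorem derivative_addP [hp : Fact p.Prime] [CharP O p] :
    derivative (addP p (e + 1) l) = C (l 0) := by
  unfold addP
  rw [derivative_sum, Finset.sum_eq_single 0]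
  · rw [pow_zero, pow_one, derivative_C_mul, derivative_X, mul_one]
  · intro i _ hi
    rw [derivative_C_mul, derivative_X_pow, Nat.cast_pow, CharP.cast_eq_zero, zero_pow hi, C_0,
      zero_mul, mul_zero]
  · intro h
    exact absurd (Finset.mem_range.2 (Nat.succ_pos e)) h

/-- the zeros -/
def zer (p e : ℕ) [Fact p.Prime] [Algebra (ZMod p) O] (l : ℕ → O) : Submodule (ZMod p) O where
  carrier := {v | addV p e l v = 0}
  add_mem' := by
    intro a b ha hb
    have := charP_of p O O
    rw [Set.mem_ofPred_eq] at ha hb ⊢
    rw [addV_add, ha, hb, add_zero]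
  zero_mem' := addV_zero
  smul_mem' := by
    intro c a ha
    rw [Set.mem_ofPred_eq] at ha ⊢
    rw [Algebra.smul_def]
    have h1 := addV_em (p := p) (e := e) (l := l) (E := O) c a
    rw [ha, mul_zero] at h1
    exact h1

section

variable [hp : Fact p.Prime] [Algebra (ZMod p) O]

theorem mem_zer {v : O} : v ∈ zer p e l ↔ addV p e l v = 0 := Iff.rfl

theorem card_zer [IsAlgClosed O] (h0 : l 0 ≠ 0) (he : l e ≠ 0) :
    Nat.card (zer p (e + 1) l) = p ^ e := by
  have := charP_of p O O
  have hp1 := hp.out.one_lt
  have hsep : (addP p (e + 1) l).Separable := by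
    rw [separable_def, derivative_addP]
    exact ⟨0, C (l 0)⁻¹, by rw [zero_mul, zero_add, ← C_mul, inv_mul_cancel₀ h0, C_1]⟩
  have h1 := Polynomial.card_rootSet_eq_natDegree (K := O) hsep (IsAlgClosed.splits _)
  rw [natDegree_addP hp1 he] at h1
  rw [← h1, ← Nat.card_eq_fintype_card]
  refine Nat.card_congr (Equiv.subtypeEquivRight fun v => ?_)
  have hne : addP p (e + 1) l ≠ 0 := addP_ne_zero hp1 (Nat.lt_succ_self e) he
  rw [mem_rootSet]
  constructor
  · intro h
    exact ⟨hne, by rw [aeval_addP]; exact h⟩
  · rintro ⟨-, h⟩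
    rw [aeval_addP] at h
    exact h

/-- **Interpolation.** -/
theorem exists_interp [IsAlgClosed O] (h0 : l 0 ≠ 0) (he : l e ≠ 0)
    (f : zer p (e + 1) l →ₗ[ZMod p] O) :
    ∃ b : ℕ → O, ∀ v : zer p (e + 1) l, f v = addV p e b (v : O) := by
  classical
  have := charP_of p O O
  have hp1 := hp.out.one_lt
  have hcard := card_zer (p := p) h0 he
  have hfin : Finite (zer p (e + 1) l) := Nat.finite_of_card_ne_zero (by
    rw [hcard]
    exact pow_ne_zero _ hp.out.ne_zero)
  have hfd : Module.Finite (ZMod p) (zer p (e + 1) l) := Module.Finite.of_finite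
  have hrank : Module.finrank (ZMod p) (zer p (e + 1) l) = e := by
    have h1 := Module.natCard_eq_pow_finrank (K := ZMod p) (V := zer p (e + 1) l)
    rw [hcard, Nat.card_zmod] at h1
    exact (Nat.pow_right_injective hp.out.two_le h1).symm
  let ext : (Fin e → O) → ℕ → O := fun b i => if h : i < e then b ⟨i, h⟩ else 0
  have hval : ∀ (b : Fin e → O) (z : O), addV p e (ext b) z = ∑ i, b i * z ^ p ^ (i : ℕ) := by
    intro b z
    unfold addV
    rw [← Fin.sum_univ_eq_sum_range (fun i => algebraMap O O (ext b i) * z ^ p ^ i)]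
    refine Finset.sum_congr rfl fun i _ => ?_
    have h1 : ext b i = b i := dif_pos i.2
    rw [h1]
    rfl
  let Φ : (Fin e → O) →ₗ[O] (zer p (e + 1) l →ₗ[ZMod p] O) :=
    { toFun := fun b =>
        { toFun := fun v => addV p e (ext b) (v : O)
          map_add' := fun v v' => addV_add _ _
          map_smul' := fun c v => by
            show addV p e (ext b) ((c • v : zer p (e + 1) l) : O) = c • addV p e (ext b) (v : O)
            rw [Submodule.coe_smul, Algebra.smul_def, Algebra.smul_def]
            exact addV_em (E := O) c (v : O) }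
      map_add' := fun b b' => by
        refine LinearMap.ext fun v => ?_
        show addV p e (ext (b + b')) (v : O) = addV p e (ext b) (v : O) + addV p e (ext b') (v : O)
        rw [hval, hval, hval, ← Finset.sum_add_distrib]
        exact Finset.sum_congr rfl fun i _ => by rw [Pi.add_apply, add_mul]
      map_smul' := fun c b => by
        refine LinearMap.ext fun v => ?_
        show addV p e (ext (c • b)) (v : O) = c * addV p e (ext b) (v : O)
        rw [hval, hval, Finset.mul_sum]
        exact Finset.sum_congr rfl fun i _ => by rw [Pi.smul_apply, smul_eq_mul, mul_assoc] }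
  have hinj : Function.Injective Φ := by
    rw [injective_iff_map_eq_zero]
    intro b hb
    rcases Nat.eq_zero_or_pos e with h1 | h1
    · subst h1
      exact Subsingleton.elim _ _
    funext i
    have hP : addP p e (ext b) = 0 := by
      by_contra hne
      have : Fintype (zer p (e + 1) l) := Fintype.ofFinite _
      have hroots : (Finset.univ.image fun v : zer p (e + 1) l => (v : O)) ⊆
          (addP p e (ext b)).roots.toFinset := by
        intro z hz
        obtain ⟨v, -, rfl⟩ := Finset.mem_image.1 hz
        rw [Multiset.mem_toFinset, mem_roots hne, IsRoot.def, eval_addP]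
        exact LinearMap.congr_fun hb v
      have h2 := Finset.card_le_card hroots
      rw [Finset.card_image_of_injective _ Subtype.val_injective, Finset.card_univ,
        ← Nat.card_eq_fintype_card, hcard] at h2
      obtain ⟨e', rfl⟩ : ∃ e', e = e' + 1 := ⟨e - 1, by omega⟩
      have h3 := ((h2.trans (Multiset.toFinset_card_le _)).trans (card_roots' _)).trans
        (natDegree_addP_le hp1)
      have h4 : p ^ e' < p ^ (e' + 1) := Nat.pow_lt_pow_right hp1 (Nat.lt_succ_self _)
      omega
    have h2 := coeff_addP (l := ext b) hp1 i.2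
    rw [hP, coeff_zero] at h2
    have h3 : ext b i = b i := dif_pos i.2
    rw [Pi.zero_apply, ← h3, ← h2]
  have hdim : Module.finrank O (Fin e → O) =
      Module.finrank O (zer p (e + 1) l →ₗ[ZMod p] O) := by
    rw [Module.finrank_linearMap, hrank, Module.finrank_self, Module.finrank_fin_fun, mul_one]
  have hsurj := (LinearMap.injective_iff_surjective_of_finrank_eq_finrank hdim).1 hinj
  obtain ⟨b, rfl⟩ := hsurj f
  exact ⟨ext b, fun _ => rfl⟩

/-- **The equation.** -/
theorem exists_equation [IsAlgClosed O] (h0 : l 0 ≠ 0) (he : l e ≠ 0) (he0 : 0 < e)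
    (f : zer p (e + 1) l →ₗ[ZMod p] ZMod p) :
    ∃ (b : ℕ → O) (c : O), (∀ v : zer p (e + 1) l, em p O O (f v) = addV p e b (v : O)) ∧
      (∀ {E : Type} [Field E] [Algebra O E] (z : E),
        addV p e b z ^ p - addV p e b z = algebraMap O E c * addV p (e + 1) l z) ∧
      (c = 0 → ∀ {E : Type} [Field E] [Algebra O E] (z : E), addV p e b z = 0) := by
  classical
  have hO := charP_of p O O
  have hp1 := hp.out.one_lt
  have hcard := card_zer (p := p) h0 he
  have hfin : Finite (zer p (e + 1) l) := Nat.finite_of_card_ne_zero (by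
    rw [hcard]
    exact pow_ne_zero _ hp.out.ne_zero)
  obtain ⟨b, hb⟩ := exists_interp h0 he
    ((Algebra.linearMap (ZMod p) O) ∘ₗ f)
  have hb' : ∀ v : zer p (e + 1) l, em p O O (f v) = addV p e b (v : O) := fun v => hb v
  obtain ⟨e', rfl⟩ : ∃ e', e = e' + 1 := ⟨e - 1, by omega⟩
  -- the polynomial `P ^ p - P`
  have hPp : addP p (e' + 1) b ^ p =
      ∑ i ∈ Finset.range (e' + 1), C (b i ^ p) * X ^ p ^ (i + 1) := by
    unfold addP
    rw [sum_pow_char]
    refine Finset.sum_congr rfl fun i _ => ?_
    rw [mul_pow, ← C_pow, ← pow_mul, pow_succ]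
  obtain ⟨c, hc⟩ : ∃ c : O, c = b e' ^ p / l (e' + 1) := ⟨_, rfl⟩
  have key : addP p (e' + 1) b ^ p - addP p (e' + 1) b = C c * addP p (e' + 1 + 1) l := by
    rw [← sub_eq_zero]
    by_contra hne
    obtain ⟨Q, hQ⟩ : ∃ Q, Q = addP p (e' + 1) b ^ p - addP p (e' + 1) b -
      C c * addP p (e' + 1 + 1) l := ⟨_, rfl⟩
    rw [← hQ] at hne
    have hdeg : Q.natDegree < p ^ (e' + 1) := by
      have h1 : p ^ e' < p ^ (e' + 1) := Nat.pow_lt_pow_right hp1 (Nat.lt_succ_self _)
      have h2 : Q = (∑ i ∈ Finset.range e', C (b i ^ p) * X ^ p ^ (i + 1)) -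
          addP p (e' + 1) b - C c * addP p (e' + 1) l := by
        rw [hQ, hPp, Finset.sum_range_succ]
        have h3 : addP p (e' + 1 + 1) l = addP p (e' + 1) l +
            C (l (e' + 1)) * X ^ p ^ (e' + 1) := by
          unfold addP
          rw [Finset.sum_range_succ]
        rw [h3, mul_add, ← mul_assoc, ← C_mul, hc, div_mul_cancel₀ _ he]
        ring
      have h3 : Q.natDegree ≤ p ^ e' := by
        rw [h2]
        have h4 : (∑ i ∈ Finset.range e', C (b i ^ p) * X ^ p ^ (i + 1) : O[X]).natDegree ≤
            p ^ e' := by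
          refine natDegree_sum_le_of_forall_le _ _ fun i hi => ?_
          refine (natDegree_C_mul_le _ _).trans ?_
          rw [natDegree_X_pow]
          have := Finset.mem_range.1 hi
          exact Nat.pow_le_pow_right hp.out.pos (by omega)
        have h5 : (addP p (e' + 1) b).natDegree ≤ p ^ e' := natDegree_addP_le hp1
        have h6 : (C c * addP p (e' + 1) l).natDegree ≤ p ^ e' :=
          (natDegree_C_mul_le _ _).trans (natDegree_addP_le hp1)
        exact (natDegree_sub_le _ _).trans (max_le ((natDegree_sub_le _ _).trans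
          (max_le h4 h5)) h6)
      omega
    have : Fintype (zer p (e' + 1 + 1) l) := Fintype.ofFinite _
    have hroots : (Finset.univ.image fun v : zer p (e' + 1 + 1) l => (v : O)) ⊆
        Q.roots.toFinset := by
      intro z hz
      obtain ⟨v, -, rfl⟩ := Finset.mem_image.1 hz
      rw [Multiset.mem_toFinset, mem_roots hne, IsRoot.def, hQ, eval_sub, eval_sub, eval_pow,
        eval_addP, eval_mul, eval_addP, eval_C, ← hb', mem_zer.1 v.2, mul_zero, sub_zero]
      have h1 := em_pow' p O O (f v) 1
      rw [pow_one] at h1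
      rw [h1, sub_self]
    have h2 := Finset.card_le_card hroots
    rw [Finset.card_image_of_injective _ Subtype.val_injective, Finset.card_univ,
      ← Nat.card_eq_fintype_card, hcard] at h2
    have h3 := (h2.trans (Multiset.toFinset_card_le _)).trans (card_roots' _)
    omega
  refine ⟨b, c, hb', fun {E} _ _ z => ?_, fun hc0 {E} _ _ z => ?_⟩
  · have h1 := congrArg (fun P => aeval z P) key
    simp only [map_sub, map_pow, map_mul, aeval_addP, aeval_C] at h1
    exact h1
  · rw [hc0, C_0, zero_mul] at key
    -- `P = 0`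
    have hP : addP p (e' + 1) b = 0 := by
      by_contra hne
      have h1 : addP p (e' + 1) b ^ p = addP p (e' + 1) b := sub_eq_zero.1 key
      have h2 := congrArg natDegree h1
      rw [natDegree_pow] at h2
      have h3 : (addP p (e' + 1) b).natDegree = 0 := by
        rcases Nat.eq_zero_or_pos (addP p (e' + 1) b).natDegree with h | h
        · exact h
        · have := Nat.mul_lt_mul_of_pos_right hp1 h
          omega
      rw [eq_C_of_natDegree_eq_zero h3] at hne
      apply hne
      have h4 : eval 0 (addP p (e' + 1) b) = 0 := by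
        rw [eval_addP]
        exact addV_zero
      rw [← coeff_zero_eq_eval_zero] at h4
      rw [h4, C_0]
    rw [← aeval_addP, hP, map_zero]

end

end

end Pool.Agent.Helper73.SS
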