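import Pool.Agent.Helper15.GD.Base

/-!
# Frobenius, correspondences and coniveau: the axioms

`Ω` is an algebraic closure of the field with `p` elements, `L` an algebraic closure of the field of
`ℓ`-adic numbers, `ℓ ≠ p`, and `H^i(K)` (`Helper15/GD/Base.lean`) the part of weight `i` of the
cohomology in degree `i` of the generic point of a variety over `Ω` with function field `K`, that is
`H^i(X)` modulo the classes supported on divisors.

The operator `frob` on `H^i(K)`. Let `s` be an idempotent endomorphism of the group `L^*` whose kernel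
is the group of the roots of unity and for which `s(p) = p`. The image of `s` is a vector space over
the field of rational numbers. Let `X` be defined over the field with `p ^ m` elements. On the
generalised eigenspace of Frobenius for the eigenvalue `λ`, Frobenius is `λ * u`, where `u` is
unipotent, and `frob` is defined as `s(λ) ^ (1 / m) * u ^ (1 / m)`. This does not depend on `m` and on
the choice of the model of `X` over a finite field, and commutes with all homomorphisms of fields over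
`Ω`. So up to roots of unity, the power `m` of `frob` is Frobenius. The classes `t` with
`frob t = p ^ j * t` are the Tate classes (for some finite field).
-/

set_option autoImplicit false

namespace Pool.Agent.Helper73.SS

open IntermediateField CategoryTheory MonoidalCategory Pool.Agent.Helper15.GD

/-- `H^i(K) ⊗ H^j(K')` -/
abbrev Coh.tensor {Ω L : Type} [Field Ω] [Field L] (T : Coh Ω L) (i j : ℕ) (K K' : Ext Ω) :
    ModuleCat.{0} L :=
  T.H i K ⊗ T.H j K'

/-- The operator `frob`; the square root `half` of `p`; the homomorphisms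
`H^1(D)(-1) → H^2(K) ⊗ H^1(C)` given by correspondences; the classes in `H^2(K) ⊗ H^2(K')` which are
supported on divisors; the span of the classes of algebraic cycles in `H^2(K) ⊗ H^2(K')`. -/
structure FrobCoh (Ω L : Type) [Field Ω] [Field L] extends Coh Ω L where
  frob : ∀ (i : ℕ) (K : Ext Ω), H i K ⟶ H i K
  half : L
  corr : ∀ K C D : Ext Ω, Set (H 1 D ⟶ Coh.tensor toCoh 2 1 K C)
  sup : ∀ K K' : Ext Ω, Submodule L (Coh.tensor toCoh 2 2 K K')
  cyc : ∀ K K' : Ext Ω, Submodule L (Coh.tensor toCoh 2 2 K K')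

variable {Ω L : Type} [Field Ω] [Field L]

/-- `H^i(K) ⊗ H^j(K')` -/
abbrev FrobCoh.tensor (T : FrobCoh Ω L) (i j : ℕ) (K K' : Ext Ω) : ModuleCat.{0} L :=
  Coh.tensor T.toCoh i j K K'

/-- the operator `frob` on `H^i(K) ⊗ H^j(K')` -/
def FrobCoh.frobTensor (T : FrobCoh Ω L) (i j : ℕ) (K K' : Ext Ω) :
    T.tensor i j K K' ⟶ T.tensor i j K K' :=
  T.frob i K ⊗ₘ T.frob j K'

/-- the homomorphism `H^2(K) ⊗ H^2(K') → H^2(K₁) ⊗ H^2(K₁')` -/
def FrobCoh.mapTensor (T : FrobCoh Ω L) {K K₁ K' K₁' : Ext Ω} (j : K.Hom K₁) (j' : K'.Hom K₁') :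
    T.tensor 2 2 K K' ⟶ T.tensor 2 2 K₁ K₁' :=
  T.map 2 j ⊗ₘ T.map 2 j'

/-- naturality -/
def FrobCoh.NaturalFrob (T : FrobCoh Ω L) : Prop :=
  ∀ (i : ℕ) (K K' : Ext Ω) (g : K.Hom K'), T.frob i K ≫ T.map i g = T.map i g ≫ T.frob i K'

/-- The action on `H^1(K)` is semisimple (Weil). -/
def FrobCoh.Weil (T : FrobCoh Ω L) : Prop :=
  ∀ K : Ext Ω, K.FG → Module.End.IsSemisimple (T.frob 1 K).hom

/-- If `n` divides `p ^ k + 1` the curve `x ^ n + y ^ n = 1` is supersingular (Tate, Shafarevich). -/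
def FrobCoh.Fermat (T : FrobCoh Ω L) (p : ℕ) : Prop :=
  ∀ (C : Ext Ω) (x y : C) (n k : ℕ), n ∣ p ^ k + 1 → Transcendental Ω x → x ^ n + y ^ n = 1 →
    adjoin Ω {x, y} = ⊤ → T.frob 1 C = T.half • 𝟙 (T.H 1 C)

/-- Correspondences commute with Frobenius. -/
def FrobCoh.NaturalCorr (T : FrobCoh Ω L) (p : ℕ) : Prop :=
  ∀ (K C D : Ext Ω), ∀ g ∈ T.corr K C D, g ≫ T.frobTensor 2 1 K C = (p : L) • (T.frob 1 D ≫ g)

/-- Let `X` be a surface and `C` a curve. The classes in `H^2(X) ⊗ H^1(C)` which vanish at the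
generic point of `X × C` are supported on a divisor: they are in the image of the first cohomology of
a variety `D` under a correspondence. -/
def FrobCoh.Gysin (T : FrobCoh Ω L) : Prop :=
  ∀ (K C N : Ext Ω) (a : K.Hom N) (b : C.Hom N), IsProd a b →
    ∃ (D : Ext Ω) (g : T.H 1 D ⟶ T.tensor 2 1 K C), D.FG ∧ g ∈ T.corr K C D ∧
      ∀ t, (T.cross a b).hom t = 0 → ∃ s, g.hom s = t

/-- bilinear forms on `H^1(C) ⊗ H^1(C')` -/
abbrev FrobCoh.Form (T : FrobCoh Ω L) (C C' : Ext Ω) : Type :=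
  T.tensor 1 1 C C' ⟶ 𝟙_ (ModuleCat.{0} L)

/-- The form `q` is invariant; by the theorem of Tate it is given by a divisor on `C × C'`. -/
def FrobCoh.IsTateForm (T : FrobCoh Ω L) (p : ℕ) {C C' : Ext Ω} (q : T.Form C C') : Prop :=
  T.frobTensor 1 1 C C' ≫ q = (p : L) • q

/-- The homomorphism `H^1(D) ⊗ H^1(D') → H^2(K) ⊗ H^2(K')` which is the product of `g` and `g'`,
contracted with the form `q` on `H^1(C) ⊗ H^1(C')`. -/
noncomputable def FrobCoh.product (T : FrobCoh Ω L) {K C D K' C' D' : Ext Ω}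
    (g : T.H 1 D ⟶ T.tensor 2 1 K C) (g' : T.H 1 D' ⟶ T.tensor 2 1 K' C') (q : T.Form C C') :
    T.tensor 1 1 D D' ⟶ T.tensor 2 2 K K' :=
  (g ⊗ₘ g') ≫ tensorμ _ _ _ _ ≫ (_ ◁ q) ≫ (ρ_ _).hom

/-- `h : H^1(D) ⊗ H^1(D') → H^2(K) ⊗ H^2(K')` is the product of two correspondences, contracted with
an invariant form on `H^1(C) ⊗ H^1(C')`: it is given by a correspondence from `D × D'` to `X × X'`. -/
def FrobCoh.IsProduct (T : FrobCoh Ω L) (p : ℕ) {K K' D D' : Ext Ω}
    (h : T.tensor 1 1 D D' ⟶ T.tensor 2 2 K K') : Prop :=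
  ∃ (C C' : Ext Ω), ∃ g ∈ T.corr K C D, ∃ g' ∈ T.corr K' C' D', ∃ q : T.Form C C',
    T.IsTateForm p q ∧ h = T.product g g' q

/-- The images of such a correspondence are supported on divisors. -/
def FrobCoh.Support (T : FrobCoh Ω L) (p : ℕ) : Prop :=
  ∀ (K K' D D' : Ext Ω) (h : T.tensor 1 1 D D' ⟶ T.tensor 2 2 K K'), T.IsProduct p h →
    ∀ r, h.hom r ∈ T.sup K K'

/-- The image of an invariant class, which is the class of a divisor on `D × D'` by the theorem of
Tate, is algebraic. -/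
def FrobCoh.Tate (T : FrobCoh Ω L) (p : ℕ) : Prop :=
  ∀ (K K' D D' : Ext Ω) (h : T.tensor 1 1 D D' ⟶ T.tensor 2 2 K K'), T.IsProduct p h →
    ∀ r, (T.frobTensor 1 1 D D').hom r = (p : L) • r → h.hom r ∈ T.cyc K K'

/-- Classes which become supported on divisors on surfaces which dominate the given ones. -/
def FrobCoh.TransferSup (T : FrobCoh Ω L) : Prop :=
  ∀ (K K₁ K' K₁' : Ext Ω) (j : K.Hom K₁) (j' : K'.Hom K₁'), j.IsAlgebraic → j'.IsAlgebraic →
    ∀ t, (T.mapTensor j j').hom t ∈ T.sup K₁ K₁' ↔ t ∈ T.sup K K'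

/-- Classes which become algebraic on surfaces which dominate the given ones. -/
def FrobCoh.TransferCyc (T : FrobCoh Ω L) : Prop :=
  ∀ (K K₁ K' K₁' : Ext Ω) (j : K.Hom K₁) (j' : K'.Hom K₁'), j.IsAlgebraic → j'.IsAlgebraic →
    ∀ t, (T.mapTensor j j').hom t ∈ T.cyc K₁ K₁' ↔ t ∈ T.cyc K K'

/-- The axioms. -/
structure FrobCoh.IsFrob (T : FrobCoh Ω L) (p : ℕ) : Prop where
  base : T.IsBase
  natural : T.NaturalFrob
  weil : T.Weil
  half_sq : T.half ^ 2 = (p : L)
  fermat : T.Fermat p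
  corr : T.NaturalCorr p
  gysin : T.Gysin
  support : T.Support p
  tate : T.Tate p
  transferSup : T.TransferSup
  transferCyc : T.TransferCyc

/-- The classes `t` in `H^2(K) ⊗ H^2(K')` for which the eigenvalues of Frobenius on the
representation generated by `t(2)` are roots of unity: the generalised eigenspace of `frob` for the
eigenvalue `p ^ 2`. -/
noncomputable def FrobCoh.tateClasses (T : FrobCoh Ω L) (p : ℕ) (K K' : Ext Ω) :
    Submodule L (T.tensor 2 2 K K') :=
  Module.End.maxGenEigenspace (T.frobTensor 2 2 K K').hom ((p : L) ^ 2)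

end Pool.Agent.Helper73.SS
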