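import Pool.Agent.Helper73.SS.WildAb
import Pool.Agent.Helper73.SS.Span
import Pool.Agent.Helper73.QT.Main

/-!
# Supersingular twists: the coverings of the plane in characteristic two
-/

set_option autoImplicit false

namespace Pool.Agent.Helper73.SS

open IntermediateField TensorProduct Module Pool.Agent.Helper75.QC Pool.Agent.Helper48.TT
  Pool.Agent.Helper73.QX Pool.Agent.Helper73.QW Pool.Agent.Helper73.QQ

/-- The operator `∑ g, tr (g | H¹ (C)) g` is good, if the quotient of the product by the diagonal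
action is uniruled. -/
theorem SSTheory.sum_trace_good {p : ℕ} {Ω L G : Type} [Field Ω] [Field L]
    (T : SSTheory p Ω L G) {K C N : Type} [Field K] [Algebra Ω K] [Field C] [Algebra Ω C]
    [Field N] [Algebra Ω N] (a : K →ₐ[Ω] N) (b : C →ₐ[Ω] N) (x y : K) (v : C)
    (hK : (⊤ : IntermediateField Ω K).FG) (hC : (⊤ : IntermediateField Ω C).FG)
    (hxy : ∀ k : K, k ∈ Acl Ω {x, y}) (hv : ∀ k : C, k ∈ Acl Ω {v})
    (htr : Transcendental a.fieldRange (b v)) (hSS : T.IsSS C) {I : Type} [Fintype I]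
    (A : I → (K →ₐ[Ω] K)) (B : I → (C →ₐ[Ω] C))
    (h0 : ∀ (t : T.H 2 K) (z : T.H 1 C),
      ∑ g, T.cup N (T.map 2 a (T.map 2 (A g) t)) (T.map 1 b (T.map 1 (B g) z)) = 0) :
    ∑ g, LinearMap.trace L (T.H 1 C) (T.map 1 (B g)) • T.map 2 (A g) ∈ T.Good K := by
  classical
  have : FiniteDimensional L (T.H 1 C) := T.fin 1 C hC
  obtain ⟨m, hm⟩ : ∃ m : T.H 1 C → (T.H 2 K →ₗ[L] T.H 2 K ⊗[L] T.H 1 C),
      ∀ z t, m z t = ∑ g, T.map 2 (A g) t ⊗ₜ[L] T.map 1 (B g) z :=
    ⟨fun z => ∑ g, (TensorProduct.mk L _ _).flip (T.map 1 (B g) z) ∘ₗ T.map 2 (A g),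
      fun z t => by
        rw [LinearMap.sum_apply]
        rfl⟩
  have key : ∀ z l, con l ∘ₗ m z ∈ T.Good K := fun z l =>
    T.good_of_map' a b x y v hK hC hxy hv htr hSS (m z) (fun t => by
      rw [hm, map_sum, ← h0 t z]
      rfl) (fun γ t => by
      rw [hm, hm, map_sum, Finset.smul_sum]
      refine Finset.sum_congr rfl fun g _ => ?_
      rw [map_tmul, hSS, TensorProduct.tmul_smul, T.map_act]) l
  let bs := Module.finBasis L (T.H 1 C)
  have h1 : ∑ g, LinearMap.trace L (T.H 1 C) (T.map 1 (B g)) • T.map 2 (A g) =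
      ∑ i, con (bs.coord i) ∘ₗ m (bs i) := by
    refine LinearMap.ext fun t => ?_
    rw [LinearMap.sum_apply, LinearMap.sum_apply]
    have h2 : ∀ i, (con (bs.coord i) ∘ₗ m (bs i)) t =
        ∑ g, bs.repr (T.map 1 (B g) (bs i)) i • T.map 2 (A g) t := by
      intro i
      rw [LinearMap.comp_apply, hm, map_sum]
      refine Finset.sum_congr rfl fun g _ => ?_
      rw [con_tmul]
      rfl
    simp only [h2]
    rw [Finset.sum_comm]
    refine Finset.sum_congr rfl fun g _ => ?_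
    rw [LinearMap.smul_apply, LinearMap.trace_eq_matrix_trace L bs, Matrix.trace,
      Finset.sum_smul]
    refine Finset.sum_congr rfl fun i _ => ?_
    rw [Matrix.diag_apply, LinearMap.toMatrix_apply]
  rw [h1]
  exact Submodule.sum_mem _ fun i _ => key _ _

section

variable {Ω L G : Type} [Field Ω] [IsAlgClosed Ω] [Algebra (ZMod 2) Ω] [Field L]
  {K : Type} [Field K] [Algebra Ω K] {x y : K} {S : Set K}

theorem cc_good [CharZero L] [IsAlgClosed L] (T : SSTheory 2 Ω L G) (hC : QCov Ω x y S) {t v : K}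
    (ht : t ^ 4 + t ∈ adjoin Ω {x, y}) (hv : v ^ 2 + v + t ^ 3 ∈ adjoin Ω {x, y})
    (hG : GeoQ Ω x y (t ^ 4 + t) (v ^ 2 + v + t ^ 3))
    (hSS : ∀ (C : Type) [Field C] [Algebra Ω C] (u s : C), Transcendental Ω u →
      u ^ 2 - u = s ^ 3 → adjoin Ω {u, s} = ⊤ → T.IsSS C)
    [Fintype (Gp Ω x y)] :
    ∑ g : Gp Ω x y, cc L t v g • T.map 2 (toHom g) ∈ T.Good K := by
  classical
  have : Fact (Nat.Prime 2) := ⟨Nat.prime_two⟩
  have hchΩ : CharP Ω 2 := charP_of_injective_algebraMap (algebraMap (ZMod 2) Ω).injective 2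
  have hchK := char_two (Ω := Ω) K
  have h2Ω : (2 : Ω) = 0 := CharTwo.two_eq_zero
  obtain ⟨C, N, iC, jC, iN, jN, u, s, a, b, hu, hs, hCt, hb, hN, huniv⟩ :=
    exists_as_curve 2 (Ω := Ω) Nat.prime_three K
  have hchC := char_two (Ω := Ω) C
  have hsh : ∀ g : Gp Ω x y, ∃ α β : Ω, α ^ 4 = α ∧ β ^ 2 + β = α ^ 3 ∧
      toHom g t = t + algebraMap Ω K α ∧
      toHom g v = v + algebraMap Ω K α ^ 2 * t + algebraMap Ω K β := fun g =>
    exists_shifts ht hv (toHom g) (toHom_x g) (toHom_y g)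
  choose α β hα hβ hα' hβ' using hsh
  have hB : ∀ g : Gp Ω x y, ∃ τ : C →ₐ[Ω] C, IsAuto u s (α g) (β g) τ := fun g =>
    exists_auto hu hs huniv (α g) (β g) (hα g) (hβ g)
  choose B hB using hB
  have hfinC : (⊤ : IntermediateField Ω C).FG := by
    rw [← hCt]
    exact fg_adjoin_of_finite (Set.toFinite _)
  have : FiniteDimensional L (T.H 1 C) := T.fin 1 C hfinC
  have hmem := T.sum_trace_good a b x y u hC.fg hfinC (by
      intro k
      have : FiniteDimensional (adjoin Ω {x, y}) K := hC.galois.1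
      exact Algebra.IsAlgebraic.isAlgebraic k) (fun k => sq_pow_ne (by norm_num) hu hs k hCt) hb
    (hSS C u s hu hs hCt) (fun g : Gp Ω x y => toHom g) B
    (hC.sum_zero T.toBaseTheory ht hv hG u s hs hCt a b hN α β hα hα' hβ' B hB)
  -- the traces
  obtain ⟨z0, hz0⟩ := Helper35.WW.exists_ne_zero (p := 2) T.toBaseTheory u s hu hs hCt
  have hD : (Module.finrank L (T.H 1 C) : L) ≠ 0 := by
    rw [Nat.cast_ne_zero]
    have : Nontrivial (T.H 1 C) := ⟨⟨z0, 0, hz0⟩⟩
    exact Module.finrank_pos.ne'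
  have h3 : ∑ g : Gp Ω x y, LinearMap.trace L (T.H 1 C) (T.map 1 (B g)) • T.map 2 (toHom g) =
      (Module.finrank L (T.H 1 C) : L) • ∑ g : Gp Ω x y, cc L t v g • T.map 2 (toHom g) := by
    rw [Finset.smul_sum]
    refine Finset.sum_congr rfl fun g _ => ?_
    have h5 := trace_eq_cc T.toBaseTheory hu hs hCt huniv g (hα g) (hβ g) (hα' g) (hβ' g) (hB g)
    rw [h5, smul_smul]
  rw [h3] at hmem
  exact (Submodule.smul_mem_iff _ hD).1 hmem

theorem id_good_two [CharZero L] [IsAlgClosed L] (T : SSTheory 2 Ω L G) {a b r : ℕ}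
    {f : Fin r → MvPolynomial (Fin 2) Ω}
    {B g ε h : MvPolynomial (Fin 2) Ω} {x y t : K} {w : Fin r → K} (hab : 0 < a + b) (hg0 : g ≠ 0)
    (hgeh : g ^ 2 = ε * h ^ 3) (hE : wdeg a b ε + wdeg a b h ≤ 2 * (a + b))
    (hf : ∀ i, wdeg a b (f i) + 2 * wdeg a b ε ≤ 6 * (a + b))
    (hB : wdeg a b B + wdeg a b ε ≤ 4 * (a + b)) (hxy : AlgebraicIndependent Ω ![x, y])
    (htop : adjoin Ω ({x, y, t} ∪ Set.range w) = ⊤)
    (ht : t ^ 4 + t = MvPolynomial.aeval ![x, y] B / MvPolynomial.aeval ![x, y] (ε * h ^ 2))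
    (hw : ∀ i, w i ^ 2 - w i =
      MvPolynomial.aeval ![x, y] (f i) / MvPolynomial.aeval ![x, y] g ^ 2 ∨
      w i ^ 2 - w i = t ^ 3 +
        MvPolynomial.aeval ![x, y] (f i) / MvPolynomial.aeval ![x, y] g ^ 2)
    (hSS : ∀ (C : Type) [Field C] [Algebra Ω C] (u s : C), Transcendental Ω u →
      u ^ 2 - u = s ^ 3 → adjoin Ω {u, s} = ⊤ → T.IsSS C) :
    LinearMap.id ∈ T.Good K := by
  classical
  have hchΩ : CharP Ω 2 := charP_of_injective_algebraMap (algebraMap (ZMod 2) Ω).injective 2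
  obtain ⟨D, hD, hG0, hG1, hDt, hw', hC⟩ := qcov_data hab hg0 hgeh hE hf hB hxy htop ht hw
  have hfin := hC.galois.1
  have : Fintype (Gp Ω x y) := Fintype.ofFinite _
  have hmem := mem_of_good (L := L) hC D hD hG0 hG1 hDt hw' (T.Good K)
    (fun g => T.map 2 (toHom g)) fun t' v' h1 h2 h3 => cc_good T hC h1 h2 h3 hSS
  have h1 : T.map 2 (toHom (1 : Gp Ω x y)) = (LinearMap.id : T.H 2 K →ₗ[L] T.H 2 K) := by
    rw [toHom_one]
    exact T.map_id 2 K
  rwa [← h1]

end

/-- **Wild covers of the plane.** -/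
theorem id_good_wild {p : ℕ} [hp : Fact p.Prime] {Ω L G : Type} [Field Ω] [CharP Ω p]
    [IsAlgClosed Ω] [Field L] [CharZero L] [IsAlgClosed L] (T : SSTheory p Ω L G)
    (hSS : ∀ (C : Type) [Field C] [Algebra Ω C] (u s : C), Transcendental Ω u →
      u ^ p - u = s ^ aux p → adjoin Ω {u, s} = ⊤ → T.IsSS C) {K : Type} [Field K] [Algebra Ω K]
    (hK : IsWildPlane p Ω K) : LinearMap.id ∈ T.Good K := by
  let _ : Algebra (ZMod p) Ω := ZMod.algebra Ω p
  obtain ⟨a, b, n, f, B, g, ε, h, x, y, t, w, hab, hg0, hgeh, hE, hf, hB, hxy, htop, htp, ht,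
    hw⟩ := hK
  by_cases hp2 : p = 2
  · subst hp2
    exact id_good_two T hab hg0 hgeh (by simpa using hE) (fun i => by simpa using hf i) hB hxy
      htop ht hw hSS
  · have ht0 : t = 0 := htp.resolve_right hp2
    have hw' : ∀ i, w i ^ p - w i =
        MvPolynomial.aeval ![x, y] (f i) / MvPolynomial.aeval ![x, y] g ^ 2 := by
      intro i
      rcases hw i with h1 | h1
      · exact h1
      · rw [h1, ht0, zero_pow three_ne_zero, zero_add]
    have htop' : adjoin Ω ({x, y} ∪ Set.range w) = ⊤ := by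
      rw [eq_top_iff, ← htop, adjoin_le_iff]
      rintro s ((rfl | rfl | hs) | hs)
      · exact subset_adjoin _ _ (by simp)
      · exact subset_adjoin _ _ (by simp)
      · rw [Set.mem_singleton_iff] at hs
        rw [hs, ht0]
        exact zero_mem _
      · exact subset_adjoin _ _ (Or.inr hs)
    exact id_good_cov T (cov_of hxy htop' hw') (aux_prime p)
      (QX.geo_comb hab hg0 hgeh hE hf hxy hw') (Helper35.WW.wildCurve_aux T.toBaseTheory) hSS

end Pool.Agent.Helper73.SS
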