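import Pool.Agent.Helper73.SS.Tame
import Pool.Agent.Helper73.SS.WildQ

/-!
# Supersingular twists: the final theorem
-/

set_option autoImplicit false

namespace Pool.Agent.Helper73.SS

open IntermediateField TensorProduct Module Pool.Agent.Helper75.QC Pool.Agent.Helper48.TT
  Pool.Agent.Helper75.WC Pool.Agent.Helper15.WC

/-- `K` is a finite abelian extension of `R`, the exponent of the group divides `p ^ f + 1`, and the
cyclic subextensions are in the list. -/
def IsTameCover (p : ℕ) (Ω K : Type) [Field Ω] [Field K] [Algebra Ω K] : Prop :=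
  ∃ (R : IntermediateField Ω K) (f : ℕ), FiniteDimensional R K ∧ IsGalois R K ∧
    (∀ g h : K ≃ₐ[R] K, g * h = h * g) ∧ (∀ g : K ≃ₐ[R] K, g ^ (p ^ f + 1) = 1) ∧
    ∀ M : IntermediateField R K, IsCyclic (M ≃ₐ[R] M) → LstM Ω R M

variable {p : ℕ} {Ω L G : Type} [Field Ω] [Field L]

/-- the degree of a cyclic subextension -/
theorem finrank_dvd_of_pow {R K : Type} [Field R] [Field K] [Algebra R K] [FiniteDimensional R K]
    [IsGalois R K] {N : ℕ} (hN : ∀ g : K ≃ₐ[R] K, g ^ N = 1) (M : IntermediateField R K)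
    [IsGalois R M] (hc : IsCyclic (M ≃ₐ[R] M)) : Module.finrank R M ∣ N := by
  obtain ⟨g, hg⟩ := hc.exists_generator
  obtain ⟨g', hg'⟩ := AlgEquiv.restrictNormalHom_surjective (F := R) (K₁ := M) K g
  have h1 : g ^ N = 1 := by
    rw [← hg', ← map_pow, hN, map_one]
  have h2 : orderOf g = Nat.card (M ≃ₐ[R] M) := orderOf_eq_card_of_forall_mem_zpowers hg
  rw [← IsGalois.card_aut_eq_finrank R M, ← h2]
  exact orderOf_dvd_of_pow_eq_one h1

theorem id_good_tame [IsAlgClosed Ω] [CharZero L] [IsAlgClosed L] (T : SSTheory p Ω L G)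
    {K : Type} [Field K] [Algebra Ω K] (hK : IsTameCover p Ω K) :
    LinearMap.id ∈ T.Good K := by
  obtain ⟨R, f, hfin, hgal, hab, hexp, hM⟩ := hK
  refine T.id_good_cover R hab fun M hc => ?_
  have hG : IsGalois R M := Pool.Agent.Helper35.WC.isGalois_of_comm hab M
  obtain ⟨n, hn, h⟩ := LstN.of_lstM (hM M hc)
  rcases row_of_lst T.toBaseTheory h with h1 | h1
  · exact Or.inl h1
  · exact Or.inr ⟨n, f, hn.trans (finrank_dvd_of_pow hexp M hc), h1⟩

theorem id_good_plane [hp : Fact p.Prime] [CharP Ω p] [IsAlgClosed Ω] [CharZero L]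
    [IsAlgClosed L] (T : SSTheory p Ω L G) {K : Type} [Field K] [Algebra Ω K]
    (hK : IsTameCover p Ω K ∨ Pool.Agent.Helper73.QX.IsWildPlane p Ω K ∨ Uniruled Ω K 2) :
    LinearMap.id ∈ T.Good K := by
  rcases hK with h | h | h
  · exact id_good_tame T h
  · exact id_good_wild T (T.isSS_wild) h
  · have h1 : (LinearMap.id : T.H 2 K →ₗ[L] T.H 2 K) = 0 :=
      LinearMap.ext fun z => T.uniruled 2 K h z
    rw [h1]
    exact Submodule.zero_mem _

/-- **The main theorem.** -/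
theorem main [hp : Fact p.Prime] [CharP Ω p] [IsAlgClosed Ω] [CharZero L] [IsAlgClosed L]
    (T : SSTheory p Ω L G) {K K' K₀ K₀' : Type} [Field K] [Algebra Ω K]
    [Field K'] [Algebra Ω K'] [Field K₀] [Algebra Ω K₀] [Field K₀'] [Algebra Ω K₀']
    (hK : IsTameCover p Ω K ∨ Pool.Agent.Helper73.QX.IsWildPlane p Ω K ∨ Uniruled Ω K 2)
    (hK' : IsTameCover p Ω K' ∨ Pool.Agent.Helper73.QX.IsWildPlane p Ω K' ∨ Uniruled Ω K' 2)
    (j : K₀ →ₐ[Ω] K) (j' : K₀' →ₐ[Ω] K') (hj : ∀ k : K, IsAlgebraic j.fieldRange k)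
    (hj' : ∀ k : K', IsAlgebraic j'.fieldRange k) (t : T.H 2 K₀ ⊗[L] T.H 2 K₀') :
    t ∈ T.sup K₀ K₀' ∧
      ((∀ γ, T.tate γ ^ 2 • TensorProduct.map (T.act 2 K₀ γ) (T.act 2 K₀' γ) t = t) →
        t ∈ T.cycles K₀ K₀') :=
  T.product_dom (id_good_plane T hK) (id_good_plane T hK') j j' hj hj' t

end Pool.Agent.Helper73.SS
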