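import Pool.Agent.Helper73.SS.Main

/-!
# Supersingular twists: the action is semisimple
-/

set_option autoImplicit false

namespace Pool.Agent.Helper73.SS

open IntermediateField TensorProduct Pool.Agent.Helper75.QC

/-- the tensor product of two semisimple endomorphisms -/
theorem isSemisimple_map {L V V' : Type} [Field L] [PerfectField L] [AddCommGroup V] [Module L V]
    [AddCommGroup V'] [Module L V'] [FiniteDimensional L V] [FiniteDimensional L V']
    {A : Module.End L V} {A' : Module.End L V'} (hA : A.IsSemisimple) (hA' : A'.IsSemisimple) :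
    Module.End.IsSemisimple (TensorProduct.map A A' : Module.End L (V ⊗[L] V')) := by
  have h1 : Module.End.IsSemisimple (A.rTensor V' : Module.End L (V ⊗[L] V')) := by
    refine Module.End.isSemisimple_of_squarefree_aeval_eq_zero hA.minpoly_squarefree ?_
    have h2 := Polynomial.aeval_algHom_apply (Module.End.rTensorAlgHom L V V') A (minpoly L A)
    rw [minpoly.aeval, map_zero] at h2
    exact h2
  have h2 : Module.End.IsSemisimple (A'.lTensor V : Module.End L (V ⊗[L] V')) := by
    refine Module.End.isSemisimple_of_squarefree_aeval_eq_zero hA'.minpoly_squarefree ?_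
    have h2 := Polynomial.aeval_algHom_apply (Module.End.lTensorAlgHom L V' V) A' (minpoly L A')
    rw [minpoly.aeval, map_zero] at h2
    exact h2
  have h3 : Commute (A.rTensor V' : Module.End L (V ⊗[L] V')) (A'.lTensor V) := by
    show A.rTensor V' ∘ₗ A'.lTensor V = A'.lTensor V ∘ₗ A.rTensor V'
    rw [LinearMap.rTensor_comp_lTensor, LinearMap.lTensor_comp_rTensor]
  have h4 := h1.mul_of_commute h3 h2
  have h5 : (A.rTensor V' : Module.End L (V ⊗[L] V')) * A'.lTensor V =
      TensorProduct.map A A' := LinearMap.rTensor_comp_lTensor _ _ _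
  rwa [h5] at h4

/-- a nilpotent vector of a semisimple endomorphism -/
theorem eq_of_nilpotent {L V : Type} [Field L] [AddCommGroup V] [Module L V]
    [FiniteDimensional L V] {A : Module.End L V} (hA : A.IsSemisimple) (μ : L) (v : V) (N : ℕ)
    (h : ((A - algebraMap L (Module.End L V) μ) ^ N) v = 0) : A v = μ • v := by
  have h1 := hA.isFinitelySemisimple.genEigenspace_eq_eigenspace μ (k := (N + 1 : ℕ))
    (by norm_cast; omega)
  have h2 : v ∈ A.genEigenspace μ ((N + 1 : ℕ) : ℕ∞) := by
    rw [Module.End.mem_genEigenspace_nat, LinearMap.mem_ker, pow_succ', Module.End.mul_apply]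
    have h3 : A - μ • (1 : Module.End L V) = A - algebraMap L (Module.End L V) μ := by
      rw [Algebra.algebraMap_eq_smul_one]
    rw [h3, h, map_zero]
  rw [h1] at h2
  exact Module.End.mem_eigenspace_iff.1 h2

/-- the image of a nilpotent vector -/
theorem map_eq_zero_of_nilpotent {L V W : Type} [Field L] [AddCommGroup V] [Module L V]
    [AddCommGroup W] [Module L W] [FiniteDimensional L W] {A : Module.End L V}
    {B : Module.End L W} (hB : B.IsSemisimple) (r : V →ₗ[L] W) {c : L} (hc : c ≠ 0)
    (hr : ∀ v, B (r v) = c • r (A v)) (μ : L) (v : V) (N : ℕ)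
    (h : ((A - algebraMap L (Module.End L V) μ) ^ N) v = 0) : r (A v - μ • v) = 0 := by
  have h4 : ∀ (k : ℕ) (u : V), ((B - algebraMap L (Module.End L W) (c * μ)) ^ k) (r u) =
      c ^ k • r (((A - algebraMap L (Module.End L V) μ) ^ k) u) := by
    intro k
    induction k with
    | zero => intro u; simp
    | succ k ih =>
      intro u
      have e1 : (B - algebraMap L (Module.End L W) (c * μ)) (r u) =
          r (c • (A - algebraMap L (Module.End L V) μ) u) := by
        rw [LinearMap.sub_apply, LinearMap.sub_apply, hr, Module.algebraMap_end_apply,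
          Module.algebraMap_end_apply, mul_smul, ← smul_sub, map_smul, map_sub, map_smul]
      rw [pow_succ, Module.End.mul_apply, e1, ih, map_smul, map_smul, smul_smul, pow_succ,
        pow_succ _ k, Module.End.mul_apply]
  have h5 : ((B - algebraMap L (Module.End L W) (c * μ)) ^ N) (r v) = 0 := by
    rw [h4, h, map_zero, smul_zero]
  have h6 := eq_of_nilpotent hB _ _ _ h5
  rw [hr, mul_smul] at h6
  have h7 : c • r (A v - μ • v) = 0 := by
    rw [map_sub, map_smul, smul_sub, h6, sub_self]
  exact (smul_eq_zero.1 h7).resolve_left hc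

variable {p : ℕ} {Ω L G : Type} [Field Ω] [Field L]

/-- The Tate classes which are killed by a power are Tate classes. -/
theorem SSTheory.invariant [CharZero L] [Subsingleton G] (T : SSTheory p Ω L G) {K K' : Type}
    [Field K] [Algebra Ω K] [Field K'] [Algebra Ω K'] (hK : LinearMap.id ∈ T.Good K)
    (hK' : LinearMap.id ∈ T.Good K') (γ : G) (A : Module.End L (T.H 2 K ⊗[L] T.H 2 K'))
    (hA : A = TensorProduct.map (T.act 2 K γ) (T.act 2 K' γ)) (μ : L)
    (t : T.H 2 K ⊗[L] T.H 2 K') (N : ℕ)
    (ht : ((A - algebraMap L (Module.End L (T.H 2 K ⊗[L] T.H 2 K')) μ) ^ N) t = 0) :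
    A t = μ • t := by
  have hss : ∀ (D : Type) [Field D] [Algebra Ω D], (⊤ : IntermediateField Ω D).FG →
      Module.End.IsSemisimple (T.act 1 D γ : Module.End L (T.H 1 D)) := by
    intro D _ _ hD
    rw [Module.End.isSemisimple_iff]
    intro P hP
    obtain ⟨Q, hQ, hPQ⟩ := T.semisimple D hD P fun γ' v hv => by
      rw [Subsingleton.elim γ' γ]
      exact hP hv
    exact ⟨Q, fun v hv => hQ γ v hv, hPQ⟩
  have hh : T.tate γ * (T.half γ * T.half γ) = 1 := T.half_sq γ
  have h1 : ∀ φ ∈ T.Good K, ∀ φ' ∈ T.Good K', TensorProduct.map φ φ' (A t - μ • t) = 0 := by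
    intro φ hφ φ' hφ'
    induction hφ using Submodule.span_induction with
    | mem φ h =>
      obtain ⟨M, C, D, _, _, _, _, _, _, j, g, l, r, hj, hC, hg, hD, hr, rfl⟩ := h
      induction hφ' using Submodule.span_induction with
      | mem φ' h' =>
        obtain ⟨M', C', D', _, _, _, _, _, _, j', g', l', r', hj', hC', hg', hD', hr', rfl⟩ := h'
        have : FiniteDimensional L (T.H 1 D) := T.fin 1 D hD
        have : FiniteDimensional L (T.H 1 D') := T.fin 1 D' hD'
        have h6 := map_eq_zero_of_nilpotent (A := A) (isSemisimple_map (hss D hD) (hss D' hD'))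
          (TensorProduct.map r r') (c := (T.tate γ * T.half γ) * (T.tate γ * T.half γ)) (by
            intro h0
            have h1 : T.tate γ * T.half γ = 0 := mul_self_eq_zero.1 h0
            rw [← mul_assoc, h1, zero_mul] at hh
            exact zero_ne_one hh) (fun u => by
              rw [hA]
              induction u using TensorProduct.induction_on with
              | zero => simp
              | tmul u v =>
                rw [map_tmul, map_tmul, map_tmul, map_tmul, hr, hr', smul_tmul_smul]
              | add u v hu hv => simp only [map_add, smul_add, hu, hv]) μ t N ht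
        rw [TensorProduct.map_comp, TensorProduct.map_comp, TensorProduct.map_comp,
          LinearMap.comp_apply, LinearMap.comp_apply, LinearMap.comp_apply, h6, map_zero,
          map_zero, map_zero]
      | zero =>
        rw [TensorProduct.map_zero_right]
        rfl
      | add u v _ _ hu hv =>
        rw [TensorProduct.map_add_right, LinearMap.add_apply, hu, hv, add_zero]
      | smul c u _ hu =>
        rw [TensorProduct.map_smul_right, LinearMap.smul_apply, hu, smul_zero]
    | zero =>
      rw [TensorProduct.map_zero_left]
      rfl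
    | add u v _ _ hu hv =>
      rw [TensorProduct.map_add_left, LinearMap.add_apply, hu, hv, add_zero]
    | smul c u _ hu =>
      rw [TensorProduct.map_smul_left, LinearMap.smul_apply, hu, smul_zero]
  have h2 := h1 _ hK _ hK'
  rw [TensorProduct.map_id] at h2
  exact sub_eq_zero.1 h2

end Pool.Agent.Helper73.SS
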