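import Pool.Agent.Helper73.SS.Coh
import Pool.Agent.Helper73.SS.Nilp
import Pool.Agent.Helper73.SS.Final
import Pool.Agent.Helper15.GD.Conv

/-! From the axioms as stated in `Coh` to the structure used in the proofs. -/

set_option autoImplicit false

namespace Pool.Agent.Helper73.SS

open IntermediateField TensorProduct CategoryTheory MonoidalCategory Pool.Agent.Helper75.QC
  Pool.Agent.Helper48.TT Pool.Agent.Helper15.GD

variable {p : ℕ} {Ω L : Type} [Field Ω] [Field L]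

/-- a form as a morphism -/
def formHom {A B : ModuleCat.{0} L} (q : A ⊗[L] B →ₗ[L] L) :
    A ⊗ B ⟶ 𝟙_ (ModuleCat.{0} L) := ModuleCat.ofHom q

theorem FrobCoh.product_apply (T : FrobCoh Ω L) {K C D K' C' D' : Ext Ω}
    (g : T.H 1 D ⟶ T.H 2 K ⊗ T.H 1 C) (g' : T.H 1 D' ⟶ T.H 2 K' ⊗ T.H 1 C')
    (q : (T.H 1 C) ⊗[L] (T.H 1 C') →ₗ[L] L) (r : (T.H 1 D) ⊗[L] (T.H 1 D')) :
    (T.product g g' (formHom q)).hom r =
      contr (V := T.H 2 K) (W := T.H 1 C) (V' := T.H 2 K') (W' := T.H 1 C') q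
        (TensorProduct.map (g.hom : T.H 1 D →ₗ[L] (T.H 2 K) ⊗[L] (T.H 1 C))
          (g'.hom : T.H 1 D' →ₗ[L] (T.H 2 K') ⊗[L] (T.H 1 C')) r) := by
  have h : ∀ u : ((T.H 2 K) ⊗[L] (T.H 1 C)) ⊗[L] ((T.H 2 K') ⊗[L] (T.H 1 C')),
      (tensorμ (T.H 2 K) (T.H 1 C) (T.H 2 K') (T.H 1 C') ≫
        ((T.H 2 K ⊗ T.H 2 K') ◁ (formHom q : T.H 1 C ⊗ T.H 1 C' ⟶ 𝟙_ _)) ≫ (ρ_ _).hom).hom u =
      contr (V := T.H 2 K) (W := T.H 1 C) (V' := T.H 2 K') (W' := T.H 1 C') q u := by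
    intro u
    induction u using TensorProduct.induction_on with
    | zero => rw [map_zero, map_zero]
    | add a b ha hb => rw [map_add, map_add, ha, hb]
    | tmul a b =>
      induction a using TensorProduct.induction_on with
      | zero => rw [zero_tmul, map_zero, map_zero]
      | add a a' ha hb => rw [add_tmul, map_add, map_add, ha, hb]
      | tmul a a' =>
        induction b using TensorProduct.induction_on with
        | zero => rw [tmul_zero, map_zero, map_zero]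
        | add a a' ha hb => rw [tmul_add, map_add, map_add, ha, hb]
        | tmul b b' =>
          rw [contr_tmul]
          rfl
  exact h _

theorem FrobCoh.isTateForm [CharZero L] [hp : Fact p.Prime] (T : FrobCoh Ω L) {C C' : Ext Ω}
    (q : (T.H 1 C) ⊗[L] (T.H 1 C') →ₗ[L] L)
    (hq : ∀ t, (p : L)⁻¹ • q (TensorProduct.map (T.frob 1 C).hom (T.frob 1 C').hom t) = q t) :
    T.IsTateForm p (formHom q) := by
  have e3 : (p : L) ≠ 0 := by exact_mod_cast hp.out.ne_zero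
  refine ModuleCat.hom_ext (LinearMap.ext fun t => ?_)
  exact (inv_smul_eq_iff₀ e3).1 (hq t)

/-- the structure used in the proofs -/
noncomputable def FrobCoh.toSS [CharZero L] [hp : Fact p.Prime] (T : FrobCoh Ω L)
    (h : T.IsFrob p) : SSTheory p Ω L Unit where
  toBaseTheory := T.toCoh.toBase h.base
  act := fun i K _ _ _ => (T.frob i ⟨K⟩).hom
  map_act := fun i {K K'} _ _ _ _ g _ t =>
    congrArg (fun f => f.hom t) (h.natural i ⟨K⟩ ⟨K'⟩ g)
  tate := fun _ => (p : L)⁻¹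
  half := fun _ => T.half
  half_sq := fun _ => by
    rw [← sq, h.half_sq, inv_mul_cancel₀ (by exact_mod_cast hp.out.ne_zero)]
  fermat := fun M _ _ x y n f hn hx hxy hM _ z => by
    have h1 := h.fermat ⟨M⟩ x y n f hn hx hxy hM
    exact congrArg (fun f => f.hom z) h1
  semisimple := fun K _ _ hK P hP => by
    have h1 := h.weil ⟨K⟩ hK
    rw [Module.End.isSemisimple_iff] at h1
    obtain ⟨Q, hQ, hPQ⟩ := h1 P (fun v hv => hP () v hv)
    exact ⟨Q, fun _ t ht => hQ ht, hPQ⟩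
  corr := fun K C D _ _ _ _ _ _ => {g | ModuleCat.ofHom g ∈ T.corr ⟨K⟩ ⟨C⟩ ⟨D⟩}
  gysin := fun {K C N} _ _ _ _ _ _ a b x y v h1 h2 h3 h4 h5 => by
    obtain ⟨D, g, hD, hg, hk⟩ := h.gysin ⟨K⟩ ⟨C⟩ ⟨N⟩ a b ⟨h1, h2, ⟨x, y, h3⟩, ⟨v, h4, h5⟩⟩
    refine ⟨D.carrier, D.field, D.algebra, g.hom, hD, hg, fun _ s => ?_, fun t ht => ?_⟩
    · have e1 := congrArg (fun f => f.hom s) (h.corr ⟨K⟩ ⟨C⟩ D g hg)
      have e2 : TensorProduct.map (T.frob 2 ⟨K⟩).hom (T.frob 1 ⟨C⟩).hom (g.hom s) =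
          (p : L) • g.hom ((T.frob 1 D).hom s) := e1
      have e3 : (p : L) ≠ 0 := by exact_mod_cast hp.out.ne_zero
      show (p : L)⁻¹ • TensorProduct.map (T.frob 2 ⟨K⟩).hom (T.frob 1 ⟨C⟩).hom (g.hom s) =
        g.hom ((T.frob 1 D).hom s)
      rw [e2, smul_smul, inv_mul_cancel₀ e3, one_smul]
    · obtain ⟨s, hs⟩ := hk t (by
        rw [T.cross_eq (K := ⟨K⟩) (C := ⟨C⟩) (N := ⟨N⟩) a b]
        exact ht)
      exact ⟨s, hs⟩
  sup := fun K K' _ _ _ _ => T.sup ⟨K⟩ ⟨K'⟩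
  cycles := fun K K' _ _ _ _ => T.cyc ⟨K⟩ ⟨K'⟩
  supp := fun K C D K' C' D' _ _ _ _ _ _ _ _ _ _ _ _ g hg g' hg' r q hq => by
    have h1 := h.support ⟨K⟩ ⟨K'⟩ ⟨D⟩ ⟨D'⟩ _ ⟨⟨C⟩, ⟨C'⟩, _, hg, _, hg', formHom q,
      T.isTateForm q fun t => hq () t, rfl⟩ r
    rw [T.product_apply] at h1
    exact h1
  pair := fun K C D K' C' D' _ _ _ _ _ _ _ _ _ _ _ _ g hg g' hg' r q hr hq => by
    have h1 := h.tate ⟨K⟩ ⟨K'⟩ ⟨D⟩ ⟨D'⟩ _ ⟨⟨C⟩, ⟨C'⟩, _, hg, _, hg', formHom q,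
      T.isTateForm q fun t => hq () t, rfl⟩ r (by
        have e1 := hr ()
        have e3 : (p : L) ≠ 0 := by exact_mod_cast hp.out.ne_zero
        exact (inv_smul_eq_iff₀ e3).1 e1)
    rw [T.product_apply] at h1
    exact h1
  sup_transfer := fun {K K₁ K' K₁'} _ _ _ _ _ _ _ _ j j' hj hj' t =>
    h.transferSup ⟨K⟩ ⟨K₁⟩ ⟨K'⟩ ⟨K₁'⟩ j j' hj hj' t
  transfer := fun {K K₁ K' K₁'} _ _ _ _ _ _ _ _ j j' hj hj' t =>
    h.transferCyc ⟨K⟩ ⟨K₁⟩ ⟨K'⟩ ⟨K₁'⟩ j j' hj hj' t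

theorem mem_maxGenEigenspace_map {V W : Type} [AddCommGroup V] [Module L V] [AddCommGroup W]
    [Module L W] (f : V →ₗ[L] W) (A : Module.End L V) (B : Module.End L W)
    (h : ∀ v, B (f v) = f (A v)) (μ : L) {v : V} (hv : v ∈ A.maxGenEigenspace μ) :
    f v ∈ B.maxGenEigenspace μ := by
  obtain ⟨N, hN⟩ := (Module.End.mem_maxGenEigenspace _ _ _).1 hv
  refine (Module.End.mem_maxGenEigenspace _ _ _).2 ⟨N, ?_⟩
  have h1 : ∀ (k : ℕ) (u : V), ((B - μ • (1 : Module.End L W)) ^ k) (f u) =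
      f (((A - μ • (1 : Module.End L V)) ^ k) u) := by
    intro k
    induction k with
    | zero => intro u; simp
    | succ k ih =>
      intro u
      have e1 : (B - μ • (1 : Module.End L W)) (f u) = f ((A - μ • (1 : Module.End L V)) u) := by
        simp [h]
      rw [pow_succ, Module.End.mul_apply, e1, ih, pow_succ _ k, Module.End.mul_apply]
  rw [h1, hN, map_zero]

/-- **The main theorem**, for good surfaces. -/
theorem FrobCoh.main_of_good [hp : Fact p.Prime] [CharZero L]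
    (T : FrobCoh Ω L) (h : T.IsFrob p) {K K' K₀ K₀' : Ext Ω}
    (h1 : LinearMap.id ∈ (T.toSS h).Good K) (h2 : LinearMap.id ∈ (T.toSS h).Good K')
    (j : K₀.Hom K) (j' : K₀'.Hom K') (hj : j.IsAlgebraic) (hj' : j'.IsAlgebraic) :
    T.sup K₀ K₀' = ⊤ ∧ T.tateClasses p K₀ K₀' ≤ T.cyc K₀ K₀' := by
  have e3 : (p : L) ≠ 0 := by exact_mod_cast hp.out.ne_zero
  refine ⟨?_, fun t ht => ?_⟩
  · rw [eq_top_iff]
    intro t _
    exact ((T.toSS h).product_dom h1 h2 j j' hj hj' t).1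
  · refine (h.transferCyc K₀ K K₀' K' j j' hj hj' t).1 ?_
    refine ((T.toSS h).product h1 h2 _).2 fun _ => ?_
    have h5 : T.mapTensor j j' ≫ T.frobTensor 2 2 K K' =
        T.frobTensor 2 2 K₀ K₀' ≫ T.mapTensor j j' := by
      unfold FrobCoh.frobTensor FrobCoh.mapTensor
      rw [tensorHom_comp_tensorHom, tensorHom_comp_tensorHom, h.natural, h.natural]
    have h6 := mem_maxGenEigenspace_map (T.mapTensor j j').hom
      (T.frobTensor 2 2 K₀ K₀').hom (T.frobTensor 2 2 K K').hom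
      (fun u => congrArg (fun f => f.hom u) h5) ((p : L) ^ 2) ht
    obtain ⟨N, hN⟩ := (Module.End.mem_maxGenEigenspace _ _ _).1 h6
    have h7 := (T.toSS h).invariant h1 h2 () (T.frobTensor 2 2 K K').hom rfl ((p : L) ^ 2)
      ((T.mapTensor j j').hom t) N (by
        rw [Algebra.algebraMap_eq_smul_one]
        exact hN)
    have e4 : ∀ u : (T.H 2 K ⊗ T.H 2 K' : ModuleCat.{0} L),
        (T.frobTensor 2 2 K K').hom u = ((p : L) ^ 2) • u → (p : L)⁻¹ ^ 2 •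
          TensorProduct.map (T.frob 2 K).hom (T.frob 2 K').hom u = u := by
      intro u hu
      have e5 : TensorProduct.map (T.frob 2 K).hom (T.frob 2 K').hom u = ((p : L) ^ 2) • u := hu
      rw [e5, smul_smul, inv_pow, inv_mul_cancel₀ (pow_ne_zero 2 e3), one_smul]
    exact e4 _ h7

/-- **The main theorem.** -/
theorem FrobCoh.main [hp : Fact p.Prime] [CharP Ω p] [IsAlgClosed Ω] [CharZero L] [IsAlgClosed L]
    (T : FrobCoh Ω L) (h : T.IsFrob p) {K K' K₀ K₀' : Ext Ω}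
    (hK : IsTameCover p Ω K ∨ Pool.Agent.Helper73.QX.IsWildPlane p Ω K ∨
      Pool.Agent.Helper75.QC.Uniruled Ω K 2)
    (hK' : IsTameCover p Ω K' ∨ Pool.Agent.Helper73.QX.IsWildPlane p Ω K' ∨
      Pool.Agent.Helper75.QC.Uniruled Ω K' 2)
    (j : K₀.Hom K) (j' : K₀'.Hom K') (hj : j.IsAlgebraic) (hj' : j'.IsAlgebraic) :
    T.sup K₀ K₀' = ⊤ ∧ T.tateClasses p K₀ K₀' ≤ T.cyc K₀ K₀' :=
  T.main_of_good h (id_good_plane (T.toSS h) (K := K) hK)
    (id_good_plane (T.toSS h) (K := K') hK') j j' hj hj'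

end Pool.Agent.Helper73.SS
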