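import Pool.Agent.Helper73.SS.Defs
import Pool.Agent.Helper73.QX.Main

/-!
# Supersingular twists: the supersingular curves
-/

set_option autoImplicit false

namespace Pool.Agent.Helper73.SS

open IntermediateField TensorProduct Module Pool.Agent.Helper75.QC Pool.Agent.Helper48.TT

theorem alg_of_comp {Ω C M E : Type} [Field Ω] [Field C] [Algebra Ω C] [Field M] [Algebra Ω M]
    [Field E] [Algebra Ω E] (i : C →ₐ[Ω] E) (j : C →ₐ[Ω] M) (v : M →ₐ[Ω] E)
    (h : ∀ c, v (j c) = i c) (hi : ∀ a : E, IsAlgebraic i.fieldRange a) (a : M) :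
    IsAlgebraic j.fieldRange a := by
  obtain ⟨q, hq0, hq⟩ := hi (v a)
  let e0 : i.fieldRange →+* C := (AlgEquiv.ofInjectiveField i).symm.toAlgHom.toRingHom
  have he0 : ∀ c : i.fieldRange, i (e0 c) = (c : E) := by
    intro c
    have h2 := (AlgEquiv.ofInjectiveField i).apply_symm_apply c
    exact congrArg Subtype.val h2
  let e1 : C →+* j.fieldRange := j.rangeRestrict.toRingHom
  have he1 : ∀ c : C, ((e1 c : j.fieldRange) : M) = j c := fun _ => rfl
  let e : i.fieldRange →+* j.fieldRange := e1.comp e0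
  have he : ∀ c : i.fieldRange, v (e c : M) = (c : E) := by
    intro c
    rw [← he0 c, ← h, ← he1]
    rfl
  refine ⟨q.map e, ?_, ?_⟩
  · rw [Ne, Polynomial.map_eq_zero_iff e.injective]
    exact hq0
  · apply v.injective
    rw [map_zero, Polynomial.aeval_def, Polynomial.eval₂_map]
    have h4 := Polynomial.hom_eval₂ q ((algebraMap j.fieldRange M).comp e) (v : M →+* E) a
    refine h4.trans ?_
    rw [← hq, Polynomial.aeval_def]
    congr 1
    exact RingHom.ext he

theorem exists_sub {Ω C E : Type} [Field Ω] [Field C] [Algebra Ω C] [Field E] [Algebra Ω E]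
    (i : C →ₐ[Ω] E) (x y : E) (S : Set C) (hS : adjoin Ω S = ⊤)
    (hSm : ∀ s ∈ S, i s ∈ adjoin Ω {x, y}) :
    ∃ (M : Type) (_ : Field M) (_ : Algebra Ω M) (j : C →ₐ[Ω] M) (v : M →ₐ[Ω] E) (x' y' : M),
      (∀ c, v (j c) = i c) ∧ v x' = x ∧ v y' = y ∧ adjoin Ω {x', y'} = ⊤ := by
  have hxM : x ∈ adjoin Ω {x, y} := subset_adjoin Ω _ (by simp)
  have hyM : y ∈ adjoin Ω {x, y} := subset_adjoin Ω _ (by simp)
  have hmem : ∀ c : C, i c ∈ (adjoin Ω {x, y} : IntermediateField Ω E) := by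
    intro c
    have h1 : (⊤ : IntermediateField Ω C) ≤
        (adjoin Ω {x, y} : IntermediateField Ω E).comap i := by
      rw [← hS, adjoin_le_iff]
      intro s hs
      exact hSm s hs
    exact h1 mem_top
  refine ⟨(adjoin Ω {x, y} : IntermediateField Ω E), inferInstance, inferInstance,
    AlgHom.codRestrict i (adjoin Ω {x, y} : IntermediateField Ω E).toSubalgebra hmem,
    (adjoin Ω {x, y} : IntermediateField Ω E).val, ⟨x, hxM⟩, ⟨y, hyM⟩, fun _ => rfl, rfl, rfl, ?_⟩
  apply IntermediateField.map_injective (adjoin Ω {x, y} : IntermediateField Ω E).val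
  rw [IntermediateField.adjoin_map, Set.image_pair]
  have h1 : (⊤ : IntermediateField Ω (adjoin Ω {x, y} : IntermediateField Ω E)).map
      (adjoin Ω {x, y} : IntermediateField Ω E).val = adjoin Ω {x, y} := by
    rw [← AlgHom.fieldRange_eq_map, IntermediateField.fieldRange_val]
  rw [h1]
  rfl

variable {p : ℕ} {Ω L G : Type} [Field Ω] [Field L]

/-- A curve which is dominated by a Fermat curve of degree dividing `p ^ f + 1` is
supersingular. -/
theorem SSTheory.IsSS.of_fermat (T : SSTheory p Ω L G) {C E : Type} [Field C] [Algebra Ω C]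
    [Field E] [Algebra Ω E] (i : C →ₐ[Ω] E) (hi : ∀ a : E, IsAlgebraic i.fieldRange a)
    {n f : ℕ} (hn : n ∣ p ^ f + 1) (x y : E) (hx : Transcendental Ω x) (hxy : x ^ n + y ^ n = 1)
    (S : Set C) (hS : adjoin Ω S = ⊤) (hSm : ∀ s ∈ S, i s ∈ adjoin Ω {x, y}) : T.IsSS C := by
  obtain ⟨M, _, _, j, v, x', y', h1, h2, h3, h4⟩ := exists_sub i x y S hS hSm
  have hM : T.IsSS M := by
    intro γ z
    refine T.fermat M x' y' n f hn ?_ ?_ h4 γ z
    · intro h
      apply hx
      rw [← h2]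
      exact h.algHom v
    · have h5 : v (x' ^ n + y' ^ n) = v 1 := by
        rw [map_add, map_pow, map_pow, h2, h3, hxy, map_one]
      exact v.injective h5
  exact hM.of_hom T j (alg_of_comp i j v h1 hi)

/-- the algebraic closure -/
theorem exists_closure (Ω C : Type) [Field Ω] [Field C] [Algebra Ω C] :
    ∃ (E : Type) (_ : Field E) (_ : Algebra Ω E) (i : C →ₐ[Ω] E), IsAlgClosed E ∧
      ∀ a : E, IsAlgebraic i.fieldRange a := by
  refine ⟨AlgebraicClosure C, inferInstance, inferInstance,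
    IsScalarTower.toAlgHom Ω C (AlgebraicClosure C), inferInstance, fun a => ?_⟩
  obtain ⟨q, hq0, hq⟩ := (Algebra.IsAlgebraic.isAlgebraic a : IsAlgebraic C a)
  let e1 : C →+* (IsScalarTower.toAlgHom Ω C (AlgebraicClosure C)).fieldRange :=
    (IsScalarTower.toAlgHom Ω C (AlgebraicClosure C)).rangeRestrict.toRingHom
  refine ⟨q.map e1, ?_, ?_⟩
  · rw [Ne, Polynomial.map_eq_zero_iff e1.injective]
    exact hq0
  · rw [Polynomial.aeval_def, Polynomial.eval₂_map, ← hq, Polynomial.aeval_def]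
    rfl

theorem exists_root_pow {E : Type} [Field E] [IsAlgClosed E] {n : ℕ} (hn : 0 < n) (a : E) :
    ∃ z : E, z ^ n = a := by
  obtain ⟨z, hz⟩ := IsAlgClosed.exists_pow_nat_eq a hn
  exact ⟨z, hz⟩

/-- the Fermat quotients -/
theorem SSTheory.isSS_kummer [IsAlgClosed Ω] (T : SSTheory p Ω L G) (C : Type) [Field C]
    [Algebra Ω C] {n f : ℕ} (a b : ℕ) (hn : n ∣ p ^ f + 1) (v u : C) (hv : Transcendental Ω v)
    (hu : u ^ n = v ^ a * (1 - v) ^ b) (hC : adjoin Ω {v, u} = ⊤) : T.IsSS C := by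
  have hn0 : 0 < n := Nat.pos_of_dvd_of_pos hn (Nat.succ_pos _)
  obtain ⟨E, _, _, i, _, hi⟩ := exists_closure Ω C
  obtain ⟨x, hx⟩ := exists_root_pow hn0 (i v)
  obtain ⟨y, hy⟩ := exists_root_pow hn0 (1 - i v)
  have hv' : Transcendental Ω (i v) := fun h => hv ((isAlgebraic_algHom_iff i i.injective).1 h)
  have hxt : Transcendental Ω x := by
    intro h
    apply hv'
    rw [← hx]
    exact h.pow n
  refine SSTheory.IsSS.of_fermat T i hi hn x y hxt (by rw [hx, hy]; ring) {v, u} hC ?_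
  have hxm : x ∈ adjoin Ω {x, y} := subset_adjoin Ω _ (by simp)
  have hym : y ∈ adjoin Ω {x, y} := subset_adjoin Ω _ (by simp)
  have hiv : i v ≠ 0 := fun h => hv' (by rw [h]; exact isAlgebraic_zero)
  have hiv' : 1 - i v ≠ 0 := by
    intro h
    apply hv'
    rw [← sub_eq_zero.1 h]
    exact isAlgebraic_one
  have hx0 : x ≠ 0 := by
    rintro rfl
    rw [zero_pow hn0.ne'] at hx
    exact hiv hx.symm
  have hy0 : y ≠ 0 := by
    rintro rfl
    rw [zero_pow hn0.ne'] at hy
    exact hiv' hy.symm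
  rintro s (rfl | hs)
  · rw [← hx]
    exact pow_mem hxm n
  · rw [Set.mem_singleton_iff] at hs
    subst hs
    -- `u = ζ x ^ a y ^ b`
    have h1 : (i s / (x ^ a * y ^ b)) ^ n = 1 := by
      have h2 : (x ^ a * y ^ b) ^ n = i s ^ n := by
        rw [← map_pow, hu, map_mul, map_pow, map_pow, map_sub, map_one, ← hy, ← hx, mul_pow,
          ← pow_mul, ← pow_mul, ← pow_mul, ← pow_mul, mul_comm a n, mul_comm b n]
      rw [div_pow, h2, div_self]
      rw [← h2]
      exact pow_ne_zero _ (mul_ne_zero (pow_ne_zero _ hx0) (pow_ne_zero _ hy0))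
    obtain ⟨ζ, hζ⟩ : ∃ ζ : Ω, algebraMap Ω E ζ = i s / (x ^ a * y ^ b) := by
      have h3 : IsIntegral Ω (i s / (x ^ a * y ^ b)) := by
        refine ⟨Polynomial.X ^ n - 1, Polynomial.monic_X_pow_sub_C 1 hn0.ne', ?_⟩
        rw [Polynomial.eval₂_sub, Polynomial.eval₂_X_pow, Polynomial.eval₂_one, h1, sub_self]
      exact minpoly.mem_range_of_degree_eq_one Ω _
        (IsAlgClosed.degree_eq_one_of_irreducible Ω (minpoly.irreducible h3))
    have h4 : i s = algebraMap Ω E ζ * (x ^ a * y ^ b) := by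
      rw [hζ, div_mul_cancel₀]
      exact mul_ne_zero (pow_ne_zero _ hx0) (pow_ne_zero _ hy0)
    rw [h4]
    exact mul_mem ((adjoin Ω {x, y}).algebraMap_mem ζ) (mul_mem (pow_mem hxm a) (pow_mem hym b))

/-- the Hermitian curve and the Fermat curve of degree `p + 1` -/
theorem hermitian [hp : Fact p.Prime] [CharP Ω p] [IsAlgClosed Ω] {E : Type} [Field E]
    [Algebra Ω E] (t z : E) (ht : Transcendental Ω t) (h : t ^ p + t = z ^ (p + 1)) :
    ∃ x y : E, Transcendental Ω x ∧ x ^ (p + 1) + y ^ (p + 1) = 1 ∧ t ∈ adjoin Ω {x, y} ∧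
      z ∈ adjoin Ω {x, y} := by
  have hpE : CharP E p := charP_of_injective_algebraMap (algebraMap Ω E).injective p
  obtain ⟨ω, hω⟩ := exists_root_pow (E := Ω) (Nat.succ_pos p) (-1)
  obtain ⟨e, he⟩ : ∃ e : Ω, e ^ p + e = 1 := by
    obtain ⟨e, he⟩ := IsAlgClosed.exists_root
      (Polynomial.X ^ p + (Polynomial.X - Polynomial.C (1 : Ω))) (by
        have h1 : (Polynomial.X - Polynomial.C (1 : Ω)).degree <
            ((Polynomial.X : Polynomial Ω) ^ p).degree := by
          rw [Polynomial.degree_X_sub_C, Polynomial.degree_X_pow]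
          exact_mod_cast hp.out.one_lt
        rw [Polynomial.degree_add_eq_left_of_degree_lt h1, Polynomial.degree_X_pow]
        exact_mod_cast hp.out.ne_zero)
    refine ⟨e, ?_⟩
    have h1 : e ^ p + (e - 1) = 0 := by simpa [Polynomial.IsRoot] using he
    linear_combination h1
  obtain ⟨ω', hω'⟩ : ∃ ω', ω' = algebraMap Ω E ω := ⟨_, rfl⟩
  obtain ⟨e', he'⟩ : ∃ e', e' = algebraMap Ω E e := ⟨_, rfl⟩
  have hω1 : ω' ^ (p + 1) = -1 := by
    rw [hω', ← map_pow, hω, map_neg, map_one]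
  have he1 : e' ^ p + e' = 1 := by
    rw [he', ← map_pow, ← map_add, he, map_one]
  have hω0 : ω' ≠ 0 := by
    rintro h0
    rw [h0, zero_pow (Nat.succ_ne_zero p)] at hω1
    exact one_ne_zero (neg_eq_zero.1 hω1.symm)
  have hz0 : z ≠ 0 := by
    rintro rfl
    rw [zero_pow (Nat.succ_ne_zero p)] at h
    apply ht
    refine ⟨Polynomial.X ^ p + Polynomial.X, ?_, ?_⟩
    · intro h0
      have h1 := congrArg (fun q => Polynomial.coeff q 1) h0
      simp only [Polynomial.coeff_add, Polynomial.coeff_X_pow, Polynomial.coeff_X_one,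
        Polynomial.coeff_zero] at h1
      rw [if_neg hp.out.one_lt.ne] at h1
      simp at h1
    · rw [map_add, map_pow, Polynomial.aeval_X, h]
  obtain ⟨x, hx⟩ : ∃ x, x = (t - e') / (ω' * z) := ⟨_, rfl⟩
  obtain ⟨y, hy⟩ : ∃ y, y = (1 + t - e') / z := ⟨_, rfl⟩
  have hxm : x ∈ adjoin Ω {x, y} := subset_adjoin Ω _ (by simp)
  have hym : y ∈ adjoin Ω {x, y} := subset_adjoin Ω _ (by simp)
  have hωm : ω' ∈ adjoin Ω {x, y} := by
    rw [hω']
    exact (adjoin Ω {x, y}).algebraMap_mem ω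
  have hem : e' ∈ adjoin Ω {x, y} := by
    rw [he']
    exact (adjoin Ω {x, y}).algebraMap_mem e
  have hzx : z = (y - ω' * x)⁻¹ := by
    have h1 : y - ω' * x = z⁻¹ := by
      rw [hx, hy]
      field_simp
      ring
    rw [h1, inv_inv]
  have hzm : z ∈ adjoin Ω {x, y} := by
    rw [hzx]
    exact inv_mem (sub_mem hym (mul_mem hωm hxm))
  have htx : t = ω' * x * z + e' := by
    rw [hx]
    field_simp
    ring
  have htm : t ∈ adjoin Ω {x, y} := by
    rw [htx]
    exact add_mem (mul_mem (mul_mem hωm hxm) hzm) hem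
  have hxy : x ^ (p + 1) + y ^ (p + 1) = 1 := by
    have h1 : (t - e') ^ p = t ^ p - e' ^ p := sub_pow_char t e'
    have h2 : (1 + (t - e')) ^ p = 1 + (t - e') ^ p := by
      rw [add_pow_char, one_pow]
    have h3 : y = (1 + (t - e')) / z := by
      rw [hy]
      ring
    rw [hx, h3, div_pow, div_pow, mul_pow, hω1, ← h]
    have h4 : t ^ p + t ≠ 0 := by
      rw [h]
      exact pow_ne_zero _ hz0
    have h5 : (1 + (t - e')) ^ (p + 1) - (t - e') ^ (p + 1) = t ^ p + t := by
      rw [pow_succ, pow_succ, h2, h1]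
      linear_combination -he1
    rw [neg_one_mul, div_neg, neg_add_eq_sub, ← sub_div, h5, div_self h4]
  refine ⟨x, y, ?_, hxy, htm, hzm⟩
  -- `x` is transcendental
  intro hxa
  apply ht
  have hclos : ∀ a : E, IsAlgebraic Ω a ↔ a ∈ algebraicClosure Ω E := fun a =>
    (mem_algebraicClosure_iff).symm
  have hya : IsAlgebraic Ω y := by
    have h1 : IsAlgebraic Ω (y ^ (p + 1)) := by
      have h2 : y ^ (p + 1) = 1 - x ^ (p + 1) := by
        linear_combination hxy
      rw [h2]
      exact isAlgebraic_one.sub (hxa.pow _)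
    exact h1.of_pow (Nat.succ_pos p)
  have hle : adjoin Ω {x, y} ≤ algebraicClosure Ω E := by
    rw [adjoin_le_iff]
    rintro s (rfl | hs)
    · exact (hclos _).1 hxa
    · rw [Set.mem_singleton_iff] at hs
      rw [hs]
      exact (hclos _).1 hya
  exact (hclos _).2 (hle htm)

/-- the curves `u ^ p - u = s ^ 2`, and `u ^ 2 - u = s ^ 3` in characteristic two -/
theorem SSTheory.isSS_wild [hp : Fact p.Prime] [CharP Ω p] [IsAlgClosed Ω] (T : SSTheory p Ω L G)
    (C : Type) [Field C] [Algebra Ω C] (u s : C) (hu : Transcendental Ω u)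
    (hs : u ^ p - u = s ^ Pool.Agent.Helper73.QX.aux p) (hC : adjoin Ω {u, s} = ⊤) :
    T.IsSS C := by
  obtain ⟨E, _, _, i, _, hi⟩ := exists_closure Ω C
  have hpE : CharP E p := charP_of_injective_algebraMap (algebraMap Ω E).injective p
  have hu' : Transcendental Ω (i u) := fun h => hu ((isAlgebraic_algHom_iff i i.injective).1 h)
  obtain ⟨c, k, m, t, z, hc0, h1, h2, h3⟩ : ∃ (c k : Ω) (m : ℕ) (t z : E), c ≠ 0 ∧
      i u = algebraMap Ω E c * t ∧ i s = algebraMap Ω E k * z ^ m ∧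
      t ^ p + t = z ^ (p + 1) := by
    by_cases hp2 : p = 2
    · subst hp2
      refine ⟨1, 1, 1, i u, i s, one_ne_zero, by rw [map_one, one_mul],
        by rw [map_one, one_mul, pow_one], ?_⟩
      have h4 : (2 : E) = 0 := CharTwo.two_eq_zero
      have h5 := congrArg i hs
      have h6 : Pool.Agent.Helper73.QX.aux 2 = 3 := rfl
      rw [h6, map_sub, map_pow, map_pow] at h5
      linear_combination h5 + i u * h4
    · obtain ⟨m, hm⟩ : ∃ m, p + 1 = 2 * m := by
        obtain ⟨k, hk⟩ := hp.out.odd_of_ne_two hp2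
        exact ⟨k + 1, by omega⟩
      have hm0 : 0 < m := by omega
      obtain ⟨c, hc⟩ := exists_root_pow (E := Ω) (n := p - 1)
        (Nat.sub_pos_of_lt hp.out.one_lt) (-1)
      obtain ⟨k, hk⟩ := exists_root_pow (E := Ω) (n := 2) two_pos (-c)
      have hc0 : c ≠ 0 := by
        rintro rfl
        rw [zero_pow (Nat.sub_pos_of_lt hp.out.one_lt).ne'] at hc
        exact one_ne_zero (neg_eq_zero.1 hc.symm)
      have hk0 : k ≠ 0 := by
        rintro rfl
        rw [zero_pow two_ne_zero] at hk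
        exact hc0 (neg_eq_zero.1 hk.symm)
      have hcp : c ^ p = -c := by
        have h4 : c ^ p = c ^ (p - 1) * c := by
          rw [← pow_succ, Nat.sub_add_cancel hp.out.one_lt.le]
        rw [h4, hc]
        ring
      obtain ⟨c', hc'⟩ : ∃ c', c' = algebraMap Ω E c := ⟨_, rfl⟩
      obtain ⟨k', hk'⟩ : ∃ k', k' = algebraMap Ω E k := ⟨_, rfl⟩
      have hc1 : c' ≠ 0 := by
        rw [hc']
        exact (map_ne_zero _).2 hc0
      have hk1 : k' ≠ 0 := by
        rw [hk']
        exact (map_ne_zero _).2 hk0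
      have e1 : c' ^ p = -c' := by
        rw [hc', ← map_pow, hcp, map_neg]
      have e2 : k' ^ 2 = -c' := by
        rw [hc', hk', ← map_pow, hk, map_neg]
      obtain ⟨z, hz⟩ := exists_root_pow hm0 (i s / k')
      refine ⟨c, k, m, i u / c', z, hc0, ?_, ?_, ?_⟩
      · rw [← hc', mul_div_cancel₀ _ hc1]
      · rw [← hk', hz, mul_div_cancel₀ _ hk1]
      · have h5 := congrArg i hs
        have h6 : Pool.Agent.Helper73.QX.aux p = 2 := if_neg hp2
        rw [h6, map_sub, map_pow, map_pow] at h5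
        rw [hm, mul_comm 2 m, pow_mul, hz, div_pow, div_pow, e1, e2, ← h5]
        field_simp
        ring
  have ht : Transcendental Ω t := by
    intro h
    apply hu'
    rw [h1]
    exact (isAlgebraic_algebraMap c).mul h
  obtain ⟨x, y, hx, hxy, htm, hzm⟩ := hermitian (p := p) t z ht h3
  refine SSTheory.IsSS.of_fermat T i hi (n := p + 1) (f := 1) (by rw [pow_one]) x y hx hxy
    {u, s} hC ?_
  rintro w (rfl | hw)
  · rw [h1]
    exact mul_mem ((adjoin Ω {x, y}).algebraMap_mem c) htm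
  · rw [Set.mem_singleton_iff] at hw
    rw [hw, h2]
    exact mul_mem ((adjoin Ω {x, y}).algebraMap_mem k) (pow_mem hzm m)

end Pool.Agent.Helper73.SS
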