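import Pool.Agent.Helper48.TT.MainM

/-!
# Supersingular twists: the structure used in the proofs
-/

set_option autoImplicit false

namespace Pool.Agent.Helper73.SS

open IntermediateField TensorProduct Pool.Agent.Helper75.QC Pool.Agent.Helper48.TT

/-- the contraction with a linear form on the second factor -/
noncomputable def con {L V W : Type} [Field L] [AddCommGroup V] [Module L V] [AddCommGroup W]
    [Module L W] (l : W →ₗ[L] L) : V ⊗[L] W →ₗ[L] V :=
  (TensorProduct.rid L V : V ⊗[L] L →ₗ[L] V) ∘ₗ l.lTensor V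

@[simp]
theorem con_tmul {L V W : Type} [Field L] [AddCommGroup V] [Module L V] [AddCommGroup W]
    [Module L W] (l : W →ₗ[L] L) (v : V) (w : W) : con l (v ⊗ₜ[L] w) = l w • v := by
  simp [con]

/-- the product of two linear forms -/
noncomputable def prodForm {L W W' : Type} [Field L] [AddCommGroup W] [Module L W]
    [AddCommGroup W'] [Module L W'] (l : W →ₗ[L] L) (l' : W' →ₗ[L] L) : W ⊗[L] W' →ₗ[L] L :=
  (TensorProduct.lid L L).toLinearMap ∘ₗ TensorProduct.map l l'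

theorem prodForm_tmul {L W W' : Type} [Field L] [AddCommGroup W] [Module L W]
    [AddCommGroup W'] [Module L W'] (l : W →ₗ[L] L) (l' : W' →ₗ[L] L) (w : W) (w' : W') :
    prodForm l l' (w ⊗ₜ w') = l w * l' w' := by
  simp [prodForm]

theorem contr_prodForm {L V W V' W' : Type} [Field L] [AddCommGroup V] [Module L V]
    [AddCommGroup W] [Module L W] [AddCommGroup V'] [Module L V'] [AddCommGroup W'] [Module L W']
    (l : W →ₗ[L] L) (l' : W' →ₗ[L] L) (t : (V ⊗[L] W) ⊗[L] (V' ⊗[L] W')) :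
    contr (prodForm l l') t = TensorProduct.map (con l) (con l') t := by
  have h : contr (prodForm l l') = TensorProduct.map (con l) (con l') (M := V ⊗[L] W)
      (N := V' ⊗[L] W') := by
    apply TensorProduct.ext_fourfold'
    intro v w v' w'
    rw [contr_tmul, prodForm_tmul, map_tmul, con_tmul, con_tmul, smul_tmul_smul]
  rw [h]

/-- The structure used in the proofs. -/
structure SSTheory (p : ℕ) (Ω L G : Type) [Field Ω] [Field L] extends BaseTheory Ω L where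
  act : ∀ (i : ℕ) (K : Type) [Field K] [Algebra Ω K], G → (H i K →ₗ[L] H i K)
  map_act : ∀ (i : ℕ) {K K' : Type} [Field K] [Algebra Ω K] [Field K'] [Algebra Ω K']
    (g : K →ₐ[Ω] K') (γ : G) (t : H i K), map i g (act i K γ t) = act i K' γ (map i g t)
  tate : G → L
  half : G → L
  half_sq : ∀ γ, tate γ * (half γ * half γ) = 1
  fermat : ∀ (M : Type) [Field M] [Algebra Ω M] (x y : M) (n f : ℕ), n ∣ p ^ f + 1 →
    Transcendental Ω x → x ^ n + y ^ n = 1 → adjoin Ω {x, y} = ⊤ →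
    ∀ γ z, act 1 M γ z = half γ • z
  semisimple : ∀ (K : Type) [Field K] [Algebra Ω K], (⊤ : IntermediateField Ω K).FG →
    ∀ P : Submodule L (H 1 K), (∀ γ, ∀ t ∈ P, act 1 K γ t ∈ P) →
      ∃ Q : Submodule L (H 1 K), (∀ γ, ∀ t ∈ Q, act 1 K γ t ∈ Q) ∧ IsCompl P Q
  corr : ∀ (K C D : Type) [Field K] [Algebra Ω K] [Field C] [Algebra Ω C] [Field D]
    [Algebra Ω D], Set (H 1 D →ₗ[L] H 2 K ⊗[L] H 1 C)
  gysin : ∀ {K C N : Type} [Field K] [Algebra Ω K] [Field C] [Algebra Ω C] [Field N]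
    [Algebra Ω N] (a : K →ₐ[Ω] N) (b : C →ₐ[Ω] N) (x y : K) (v : C),
    (⊤ : IntermediateField Ω K).FG → (⊤ : IntermediateField Ω C).FG →
    (∀ k : K, k ∈ Acl Ω {x, y}) → (∀ k : C, k ∈ Acl Ω {v}) →
    Transcendental a.fieldRange (b v) →
    ∃ (D : Type) (_ : Field D) (_ : Algebra Ω D) (g : H 1 D →ₗ[L] H 2 K ⊗[L] H 1 C),
      (⊤ : IntermediateField Ω D).FG ∧ g ∈ corr K C D ∧
      (∀ (γ : G) (s : H 1 D), tate γ • TensorProduct.map (act 2 K γ) (act 1 C γ) (g s) =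
        g (act 1 D γ s)) ∧
      ∀ t, TensorProduct.lift ((cup N).compl₁₂ (map 2 a) (map 1 b)) t = 0 →
        t ∈ LinearMap.range g
  sup : ∀ (K K' : Type) [Field K] [Algebra Ω K] [Field K'] [Algebra Ω K'],
    Submodule L (H 2 K ⊗[L] H 2 K')
  cycles : ∀ (K K' : Type) [Field K] [Algebra Ω K] [Field K'] [Algebra Ω K'],
    Submodule L (H 2 K ⊗[L] H 2 K')
  supp : ∀ (K C D K' C' D' : Type) [Field K] [Algebra Ω K] [Field C] [Algebra Ω C] [Field D]
    [Algebra Ω D] [Field K'] [Algebra Ω K'] [Field C'] [Algebra Ω C'] [Field D'] [Algebra Ω D'],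
    ∀ g ∈ corr K C D, ∀ g' ∈ corr K' C' D', ∀ (r : H 1 D ⊗[L] H 1 D') (q : H 1 C ⊗[L] H 1 C' →ₗ[L] L),
      (∀ γ t, tate γ • q (TensorProduct.map (act 1 C γ) (act 1 C' γ) t) = q t) →
      contr q (TensorProduct.map g g' r) ∈ sup K K'
  pair : ∀ (K C D K' C' D' : Type) [Field K] [Algebra Ω K] [Field C] [Algebra Ω C] [Field D]
    [Algebra Ω D] [Field K'] [Algebra Ω K'] [Field C'] [Algebra Ω C'] [Field D'] [Algebra Ω D'],
    ∀ g ∈ corr K C D, ∀ g' ∈ corr K' C' D', ∀ (r : H 1 D ⊗[L] H 1 D') (q : H 1 C ⊗[L] H 1 C' →ₗ[L] L),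
      (∀ γ, tate γ • TensorProduct.map (act 1 D γ) (act 1 D' γ) r = r) →
      (∀ γ t, tate γ • q (TensorProduct.map (act 1 C γ) (act 1 C' γ) t) = q t) →
      contr q (TensorProduct.map g g' r) ∈ cycles K K'
  sup_transfer : ∀ {K K₁ K' K₁' : Type} [Field K] [Algebra Ω K] [Field K₁] [Algebra Ω K₁]
    [Field K'] [Algebra Ω K'] [Field K₁'] [Algebra Ω K₁'] (j : K →ₐ[Ω] K₁) (j' : K' →ₐ[Ω] K₁'),
    (∀ a : K₁, IsAlgebraic j.fieldRange a) → (∀ a : K₁', IsAlgebraic j'.fieldRange a) →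
    ∀ t, TensorProduct.map (map 2 j) (map 2 j') t ∈ sup K₁ K₁' ↔ t ∈ sup K K'
  transfer : ∀ {K K₁ K' K₁' : Type} [Field K] [Algebra Ω K] [Field K₁] [Algebra Ω K₁] [Field K']
    [Algebra Ω K'] [Field K₁'] [Algebra Ω K₁'] (j : K →ₐ[Ω] K₁) (j' : K' →ₐ[Ω] K₁'),
    (∀ a : K₁, IsAlgebraic j.fieldRange a) → (∀ a : K₁', IsAlgebraic j'.fieldRange a) →
    ∀ t, TensorProduct.map (map 2 j) (map 2 j') t ∈ cycles K₁ K₁' ↔ t ∈ cycles K K'

variable {p : ℕ} {Ω L G : Type} [Field Ω] [Field L]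

/-- `C` is supersingular. -/
def SSTheory.IsSS (T : SSTheory p Ω L G) (C : Type) [Field C] [Algebra Ω C] : Prop :=
  ∀ γ z, T.act 1 C γ z = T.half γ • z

/-- A curve which is dominated by a supersingular curve is supersingular. -/
theorem SSTheory.IsSS.of_hom (T : SSTheory p Ω L G) {C C' : Type} [Field C] [Algebra Ω C]
    [Field C'] [Algebra Ω C'] (h : T.IsSS C') (j : C →ₐ[Ω] C')
    (hj : ∀ a : C', IsAlgebraic j.fieldRange a) : T.IsSS C := by
  intro γ z
  apply T.inj 1 j hj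
  rw [T.map_act, h γ, map_smul]

/-- The endomorphisms of `H² (K)` which factor through the first cohomology of a variety, up to the
twist by a supersingular curve. -/
def SSTheory.Good (T : SSTheory p Ω L G) (K : Type) [Field K] [Algebra Ω K] :
    Submodule L (T.H 2 K →ₗ[L] T.H 2 K) :=
  Submodule.span L {φ | ∃ (M C D : Type) (_ : Field M) (_ : Algebra Ω M) (_ : Field C)
    (_ : Algebra Ω C) (_ : Field D) (_ : Algebra Ω D) (j : M →ₐ[Ω] K)
    (g : T.H 1 D →ₗ[L] T.H 2 M ⊗[L] T.H 1 C) (l : T.H 1 C →ₗ[L] L)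
    (r : T.H 2 K →ₗ[L] T.H 1 D), (∀ a : K, IsAlgebraic j.fieldRange a) ∧ T.IsSS C ∧
      g ∈ T.corr M C D ∧ (⊤ : IntermediateField Ω D).FG ∧
      (∀ γ z, T.act 1 D γ (r z) = (T.tate γ * T.half γ) • r (T.act 2 K γ z)) ∧
      φ = T.map 2 j ∘ₗ con l ∘ₗ g ∘ₗ r}

end Pool.Agent.Helper73.SS
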