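import Pool.Agent.Helper73.QX.Group
import Pool.Agent.Helper73.CHA.Dual
import Pool.Agent.Helper75.WC.Prim

/-! Elementary abelian extensions `K = R(w_1, …, w_r)`, `w_i ^ p - w_i ∈ R`: the cyclic
subextensions `M ≠ R` are generated by linear combinations of the `w_i`. -/

set_option autoImplicit false

namespace Pool.Agent.Helper73.SS

open IntermediateField Pool.Agent.Helper73.QX

section

variable {p : ℕ} [hp : Fact p.Prime] {Ω : Type} [Field Ω] [Algebra (ZMod p) Ω]
  {K : Type} [Field K] [Algebra Ω K] {R : IntermediateField Ω K} {r : ℕ} {w : Fin r → K}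

omit hp [Algebra (ZMod p) Ω] in
theorem aut_const (g : K ≃ₐ[R] K) (c : Ω) : g (algebraMap Ω K c) = algebraMap Ω K c :=
  g.commutes (algebraMap Ω R c)

theorem aut_em (g : K ≃ₐ[R] K) (c : ZMod p) : g (em p Ω K c) = em p Ω K c :=
  aut_const g _

/-- the translations -/
theorem exists_sh (hw : ∀ i, w i ^ p - w i ∈ R) (g : K ≃ₐ[R] K) :
    ∃ c : Fin r → ZMod p, ∀ i, g (w i) = w i + em p Ω K (c i) := by
  have h : ∀ i, ∃ c : ZMod p, g (w i) = w i + em p Ω K c := by
    intro i
    apply exists_em_of_eq p Ω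
    rw [← map_pow, ← map_sub]
    exact g.commutes ⟨_, hw i⟩
  choose c hc using h
  exact ⟨c, hc⟩

/-- **The cyclic subextensions.** -/
theorem elem_cyclic [FiniteDimensional R K] [IsGalois R K] (hw : ∀ i, w i ^ p - w i ∈ R)
    (hinj : ∀ g : K ≃ₐ[R] K, (∀ i, g (w i) = w i) → g = 1) :
    (∀ g h : K ≃ₐ[R] K, g * h = h * g) ∧
    ∀ M : IntermediateField R K, IsCyclic (M ≃ₐ[R] M) → M = ⊥ ∨
      (∃ k : Fin r → ZMod p, M = adjoin R {comb p Ω k w}) ∧ Module.finrank R M = p := by
  classical
  choose sh hsh using exists_sh (p := p) hw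
  have hext : ∀ g g' : K ≃ₐ[R] K, (∀ i, g (w i) = g' (w i)) → g = g' := by
    intro g g' h
    have h1 : g'⁻¹ * g = 1 := hinj _ fun i => by
      rw [AlgEquiv.mul_apply, h i]
      exact g'.symm_apply_apply _
    exact (inv_mul_eq_one.1 h1).symm
  have hsh_mul : ∀ g g', sh (g * g') = sh g + sh g' := by
    intro g g'
    funext i
    apply em_injective p Ω K
    have h1 := hsh (g * g') i
    rw [AlgEquiv.mul_apply, hsh g' i, map_add, aut_em, hsh g i] at h1
    rw [Pi.add_apply, map_add]
    linear_combination -h1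
  have hab : ∀ g h : K ≃ₐ[R] K, g * h = h * g := by
    intro g h
    refine hext _ _ fun i => ?_
    rw [hsh, hsh, hsh_mul, hsh_mul, add_comm (sh g) (sh h)]
  refine ⟨hab, fun M hcyc => ?_⟩
  have hsh_one : sh 1 = 0 := by
    have h1 := hsh_mul 1 1
    rw [mul_one] at h1
    exact left_eq_add.1 h1
  have hsh_inj : ∀ g g', sh g = sh g' → g = g' := by
    intro g g' h
    exact hext _ _ fun i => by rw [hsh, hsh, h]
  obtain ⟨hMgal, hres, hsurj⟩ := Pool.Agent.Helper75.WC.exists_restrict hab M
  choose res hres using hres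
  have hres_eq : ∀ g g' : K ≃ₐ[R] K, (∀ a : M, g a = g' a) → res g = res g' := by
    intro g g' hg
    refine AlgEquiv.ext fun a => Subtype.ext ?_
    rw [hres, hres, hg]
  have hres_mul : ∀ g g' : K ≃ₐ[R] K, res (g * g') = res g * res g' := by
    intro g g'
    refine AlgEquiv.ext fun a => Subtype.ext ?_
    rw [AlgEquiv.mul_apply, hres, hres, hres, AlgEquiv.mul_apply]
  have hres_one : res 1 = 1 := by
    refine AlgEquiv.ext fun a => Subtype.ext ?_
    rw [hres]
    rfl
  -- the exponent
  have hpow : ∀ g : K ≃ₐ[R] K, g ^ p = 1 := by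
    intro g
    have key : ∀ n : ℕ, sh (g ^ n) = n • sh g := by
      intro n
      induction n with
      | zero => rw [pow_zero, hsh_one, zero_smul]
      | succ n ih => rw [pow_succ, hsh_mul, ih, succ_nsmul]
    apply hsh_inj
    rw [key, hsh_one]
    funext i
    rw [Pi.smul_apply, nsmul_eq_mul, CharP.cast_eq_zero, zero_mul, Pi.zero_apply]
  have hpowC : ∀ g : M ≃ₐ[R] M, g ^ p = 1 := by
    intro g
    obtain ⟨g', hg'⟩ := hsurj g
    have h1 : g = res g' := AlgEquiv.ext fun a => Subtype.ext (by rw [hres, hg'])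
    have h2 : ∀ n : ℕ, res (g' ^ n) = res g' ^ n := by
      intro n
      induction n with
      | zero => rw [pow_zero, pow_zero, hres_one]
      | succ n ih => rw [pow_succ, pow_succ, hres_mul, ih]
    rw [h1, ← h2, hpow, hres_one]
  have hfinC : Finite (M ≃ₐ[R] M) := inferInstance
  have hcardM : Nat.card (M ≃ₐ[R] M) = Module.finrank R M := IsGalois.card_aut_eq_finrank _ _
  have hdvd : Nat.card (M ≃ₐ[R] M) ∣ p := by
    rw [← IsCyclic.exponent_eq_card]
    exact Monoid.exponent_dvd_of_forall_pow_eq_one hpowC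
  rcases (Nat.dvd_prime hp.out).1 hdvd with h1 | h1
  · left
    rw [h1] at hcardM
    exact finrank_eq_one_iff.1 hcardM.symm
  right
  refine ⟨?_, by rw [← hcardM, h1]⟩
  -- the linear form
  have hcZ : Nat.card (Multiplicative (ZMod p)) = p := by
    rw [Nat.card_congr Multiplicative.toAdd, Nat.card_zmod]
  let θ : (M ≃ₐ[R] M) ≃* Multiplicative (ZMod p) := mulEquivOfPrimeCardEq h1 hcZ
  let S : AddSubgroup (Fin r → ZMod p) :=
    { carrier := Set.range sh
      zero_mem' := ⟨1, hsh_one⟩
      add_mem' := by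
        rintro _ _ ⟨g, rfl⟩ ⟨g', rfl⟩
        exact ⟨g * g', hsh_mul g g'⟩
      neg_mem' := by
        rintro _ ⟨g, rfl⟩
        refine ⟨g⁻¹, ?_⟩
        have h2 := hsh_mul g g⁻¹
        rw [mul_inv_cancel, hsh_one] at h2
        exact (neg_eq_of_add_eq_zero_right h2.symm).symm }
  have hS : ∀ v : S, ∃ g, sh g = v := fun v => v.2
  choose au hau using hS
  have hau_add : ∀ v v' : S, au (v + v') = au v * au v' := by
    intro v v'
    apply hsh_inj
    rw [hau, hsh_mul, hau, hau]
    rfl
  have hau_zero : au 0 = 1 := by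
    apply hsh_inj
    rw [hau, hsh_one]
    rfl
  let l : S →+ ZMod p :=
    { toFun := fun v => Multiplicative.toAdd (θ (res (au v)))
      map_zero' := by
        show Multiplicative.toAdd (θ (res (au 0))) = 0
        rw [hau_zero, hres_one, map_one]
        rfl
      map_add' := fun v v' => by
        show Multiplicative.toAdd (θ (res (au (v + v')))) = _
        rw [hau_add, hres_mul, map_mul]
        rfl }
  obtain ⟨l', hl'⟩ : ∃ l' : (Fin r → ZMod p) →ₗ[ZMod p] ZMod p, ∀ v : S, l' v = l v := by
    let S' : Submodule (ZMod p) (Fin r → ZMod p) := AddSubgroup.toZModSubmodule p S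
    let l₀ : S' →+ ZMod p := l
    obtain ⟨l', h2⟩ := LinearMap.exists_extend (l₀.toZModLinearMap p)
    exact ⟨l', fun v => LinearMap.congr_fun h2 v⟩
  obtain ⟨k, hk⟩ : ∃ k : Fin r → ZMod p, ∀ i, k i = l' (Pi.single i 1) := ⟨_, fun _ => rfl⟩
  have hkl : ∀ v : Fin r → ZMod p, l' v = ∑ i, k i * v i := by
    intro v
    have h2 : v = ∑ i, v i • (Pi.single i 1 : Fin r → ZMod p) := by
      funext j
      rw [Finset.sum_apply, Finset.sum_eq_single j]
      · rw [Pi.smul_apply, Pi.single_eq_same, smul_eq_mul, mul_one]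
      · intro i _ hij
        rw [Pi.smul_apply, Pi.single_eq_of_ne (Ne.symm hij), smul_zero]
      · intro h
        exact absurd (Finset.mem_univ j) h
    conv_lhs => rw [h2]
    rw [map_sum]
    refine Finset.sum_congr rfl fun i _ => ?_
    rw [map_smul, ← hk, smul_eq_mul, mul_comm]
  refine ⟨k, ?_⟩
  obtain ⟨w', hw'⟩ : ∃ w' : K, w' = comb p Ω k w := ⟨_, rfl⟩
  have hshift : ∀ g : K ≃ₐ[R] K, g w' = w' + em p Ω K (l' (sh g)) := by
    intro g
    have h2 : g w' = comb p Ω k fun i => w i + em p Ω K (sh g i) := by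
      rw [hw']
      unfold comb
      rw [map_sum]
      refine Finset.sum_congr rfl fun i _ => ?_
      rw [map_mul, aut_em, hsh]
    rw [h2, comb_shift, ← hw', hkl]
  have hmemM : ∀ g : K ≃ₐ[R] K, g ∈ M.fixingSubgroup ↔ g w' = w' := by
    intro g
    have hg : au ⟨sh g, g, rfl⟩ = g := hsh_inj _ _ (hau _)
    have hlg : l' (sh g) = Multiplicative.toAdd (θ (res g)) := by
      have h2 := hl' ⟨sh g, g, rfl⟩
      have h3 : l ⟨sh g, g, rfl⟩ = Multiplicative.toAdd (θ (res (au ⟨sh g, g, rfl⟩))) := rfl
      rw [h3, hg] at h2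
      exact h2
    rw [hshift, hlg]
    have h2 : g ∈ M.fixingSubgroup ↔ res g = 1 := by
      rw [IntermediateField.mem_fixingSubgroup_iff]
      constructor
      · intro h3
        refine AlgEquiv.ext fun a => Subtype.ext ?_
        rw [hres, h3 a a.2]
        rfl
      · intro h3 a ha
        have h4 := hres g ⟨a, ha⟩
        rw [h3] at h4
        exact h4.symm
    rw [h2]
    constructor
    · intro h3
      rw [h3, map_one]
      show w' + em p Ω K 0 = w'
      rw [map_zero, add_zero]
    · intro h3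
      have h4 : em p Ω K (Multiplicative.toAdd (θ (res g))) = 0 := by
        have := congrArg (fun z => z - w') h3
        simpa using this
      have h5 : Multiplicative.toAdd (θ (res g)) = 0 := by
        apply em_injective p Ω K
        rw [map_zero]
        exact h4
      apply θ.injective
      rw [map_one]
      exact Multiplicative.toAdd.injective h5
  rw [← hw']
  have h2 : M.fixingSubgroup = (adjoin R {w'}).fixingSubgroup := by
    ext g
    rw [hmemM]
    constructor
    · intro h3
      rw [IntermediateField.mem_fixingSubgroup_iff]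
      intro z hz
      induction hz using adjoin_induction with
      | mem z hz =>
        rw [Set.mem_singleton_iff] at hz
        rw [hz]
        exact h3
      | algebraMap c => exact g.commutes c
      | add x y _ _ hx hy => rw [map_add, hx, hy]
      | inv x _ hx => rw [map_inv₀, hx]
      | mul x y _ _ hx hy => rw [map_mul, hx, hy]
    · intro h3
      exact (IntermediateField.mem_fixingSubgroup_iff _ _).1 h3 w' (mem_adjoin_simple_self _ _)
  rw [← IsGalois.fixedField_fixingSubgroup M, h2, IsGalois.fixedField_fixingSubgroup]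

end

end Pool.Agent.Helper73.SS
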