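import Pool.Agent.Helper73.SS.Defs

/-!
# Supersingular twists: the general results
-/

set_option autoImplicit false

namespace Pool.Agent.Helper73.SS

open IntermediateField TensorProduct Pool.Agent.Helper75.QC Pool.Agent.Helper48.TT

/-- a section of `g` on its image -/
theorem exists_section {L V V' W D I : Type} [Field L] [AddCommGroup V] [Module L V]
    [AddCommGroup V'] [Module L V'] [AddCommGroup W] [Module L W] [AddCommGroup D] [Module L D]
    (aV : I → V →ₗ[L] V) (aV' : I → V' →ₗ[L] V') (aW : I → W →ₗ[L] W) (aD : I → D →ₗ[L] D)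
    (c d : I → L) (g : D →ₗ[L] V' ⊗[L] W)
    (heq : ∀ i s, c i • TensorProduct.map (aV' i) (aW i) (g s) = g (aD i s))
    (hD : ∀ P : Submodule L D, (∀ i, ∀ x ∈ P, aD i x ∈ P) →
      ∃ Q : Submodule L D, (∀ i, ∀ x ∈ Q, aD i x ∈ Q) ∧ IsCompl P Q)
    (m : V →ₗ[L] V' ⊗[L] W)
    (hmi : ∀ i x, TensorProduct.map (aV' i) (aW i) (m x) = d i • m (aV i x))
    (hm : ∀ x, m x ∈ LinearMap.range g) :
    ∃ r : V →ₗ[L] D, (∀ x, g (r x) = m x) ∧ ∀ i x, aD i (r x) = (c i * d i) • r (aV i x) := by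
  classical
  have hKs : ∀ i, ∀ s ∈ LinearMap.ker g, aD i s ∈ LinearMap.ker g := by
    intro i s hs
    rw [LinearMap.mem_ker] at hs ⊢
    rw [← heq, hs, map_zero, smul_zero]
  obtain ⟨R, hR, hKR⟩ := hD _ hKs
  have hinj : ∀ q ∈ R, g q = 0 → q = 0 := by
    intro q hq h
    have h2 : q ∈ LinearMap.ker g ⊓ R := ⟨h, hq⟩
    rwa [hKR.inf_eq_bot, Submodule.mem_bot] at h2
  obtain ⟨l, hl⟩ := LinearMap.exists_leftInverse_of_injective (g ∘ₗ R.subtype) (by
    rw [LinearMap.ker_eq_bot']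
    intro q hq
    exact Subtype.ext (hinj q q.2 hq))
  have hlq : ∀ q : R, l (g q) = q := fun q => LinearMap.congr_fun hl q
  have hgl : ∀ u ∈ LinearMap.range g, g (l u : R) = u := by
    rintro _ ⟨p, rfl⟩
    obtain ⟨k, hk, q, hq, rfl⟩ := Submodule.mem_sup.1
      (show p ∈ LinearMap.ker g ⊔ R by rw [hKR.sup_eq_top]; trivial)
    rw [map_add, LinearMap.mem_ker.1 hk, zero_add, hlq ⟨q, hq⟩]
  obtain ⟨r, hr⟩ : ∃ r : V →ₗ[L] D, r = R.subtype ∘ₗ l ∘ₗ m := ⟨_, rfl⟩
  have hrv : ∀ x, r x = (l (m x) : R) := by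
    intro x
    rw [hr]
    rfl
  have hrR : ∀ x, r x ∈ R := by
    intro x
    rw [hrv]
    exact Subtype.property _
  have hgr : ∀ x, g (r x) = m x := by
    intro x
    rw [hrv]
    exact hgl _ (hm x)
  refine ⟨r, hgr, fun i x => ?_⟩
  have h1 : g (aD i (r x)) = g ((c i * d i) • r (aV i x)) := by
    rw [← heq, hgr, hmi, map_smul, hgr, smul_smul]
  have h2 : aD i (r x) - (c i * d i) • r (aV i x) ∈ R :=
    R.sub_mem (hR i _ (hrR x)) (R.smul_mem _ (hrR _))
  refine sub_eq_zero.1 (hinj _ h2 ?_)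
  rw [map_sub, h1, sub_self]

variable {p : ℕ} {Ω L G : Type} [Field Ω] [Field L]

/-- The basic source of good endomorphisms. -/
theorem SSTheory.good_of_map (T : SSTheory p Ω L G) {K M C N : Type} [Field K] [Algebra Ω K]
    [Field M] [Algebra Ω M] [Field C] [Algebra Ω C] [Field N] [Algebra Ω N] (j : M →ₐ[Ω] K)
    (hj : ∀ k : K, IsAlgebraic j.fieldRange k) (a : M →ₐ[Ω] N)
    (b : C →ₐ[Ω] N) (x y : M)
    (v : C) (hM : (⊤ : IntermediateField Ω M).FG) (hC : (⊤ : IntermediateField Ω C).FG)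
    (hxy : ∀ k : M, k ∈ Acl Ω {x, y}) (hv : ∀ k : C, k ∈ Acl Ω {v})
    (htr : Transcendental a.fieldRange (b v)) (hSS : T.IsSS C)
    (m : T.H 2 K →ₗ[L] T.H 2 M ⊗[L] T.H 1 C)
    (hm : ∀ t, TensorProduct.lift ((T.cup N).compl₁₂ (T.map 2 a) (T.map 1 b)) (m t) = 0)
    (hme : ∀ γ t, TensorProduct.map (T.act 2 M γ) (T.act 1 C γ) (m t) =
      T.half γ • m (T.act 2 K γ t)) (l : T.H 1 C →ₗ[L] L) :
    T.map 2 j ∘ₗ con l ∘ₗ m ∈ T.Good K := by
  obtain ⟨D, _, _, g, hD, hg, heq, hker⟩ := T.gysin a b x y v hM hC hxy hv htr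
  obtain ⟨r, h1, h2⟩ := exists_section (T.act 2 K) (T.act 2 M) (T.act 1 C) (T.act 1 D) T.tate
    T.half g heq (T.semisimple D hD) m hme fun t => hker _ (hm t)
  refine Submodule.subset_span ⟨M, C, D, _, _, _, _, _, _, j, g, l, r, hj, hSS, hg, hD, h2, ?_⟩
  have h3 : g ∘ₗ r = m := LinearMap.ext h1
  rw [h3]

/-- The basic source of good endomorphisms. -/
theorem SSTheory.good_of_map' (T : SSTheory p Ω L G) {K C N : Type} [Field K] [Algebra Ω K]
    [Field C] [Algebra Ω C] [Field N] [Algebra Ω N] (a : K →ₐ[Ω] N) (b : C →ₐ[Ω] N) (x y : K)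
    (v : C) (hK : (⊤ : IntermediateField Ω K).FG) (hC : (⊤ : IntermediateField Ω C).FG)
    (hxy : ∀ k : K, k ∈ Acl Ω {x, y}) (hv : ∀ k : C, k ∈ Acl Ω {v})
    (htr : Transcendental a.fieldRange (b v)) (hSS : T.IsSS C)
    (m : T.H 2 K →ₗ[L] T.H 2 K ⊗[L] T.H 1 C)
    (hm : ∀ t, TensorProduct.lift ((T.cup N).compl₁₂ (T.map 2 a) (T.map 1 b)) (m t) = 0)
    (hme : ∀ γ t, TensorProduct.map (T.act 2 K γ) (T.act 1 C γ) (m t) =
      T.half γ • m (T.act 2 K γ t)) (l : T.H 1 C →ₗ[L] L) :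
    con l ∘ₗ m ∈ T.Good K := by
  have h := T.good_of_map (AlgHom.id Ω K) (fun k => isAlgebraic_algebraMap
    (⟨k, k, rfl⟩ : (AlgHom.id Ω K).fieldRange)) a b x y v hK hC hxy hv htr hSS m hm hme l
  rwa [T.map_id, LinearMap.id_comp] at h

/-- The product of two surfaces all of whose classes are good: all classes are supported in
codimension one, and the Tate classes are algebraic. -/
theorem SSTheory.product (T : SSTheory p Ω L G) {K K' : Type} [Field K] [Algebra Ω K] [Field K']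
    [Algebra Ω K'] (hK : LinearMap.id ∈ T.Good K) (hK' : LinearMap.id ∈ T.Good K')
    (t : T.H 2 K ⊗[L] T.H 2 K') :
    t ∈ T.sup K K' ∧
      ((∀ γ, T.tate γ ^ 2 • TensorProduct.map (T.act 2 K γ) (T.act 2 K' γ) t = t) →
        t ∈ T.cycles K K') := by
  have key : ∀ W : Submodule L (T.H 2 K ⊗[L] T.H 2 K'),
      (∀ (M C D M' C' D' : Type) [Field M] [Algebra Ω M] [Field C] [Algebra Ω C] [Field D]
        [Algebra Ω D] [Field M'] [Algebra Ω M'] [Field C']
        [Algebra Ω C'] [Field D'] [Algebra Ω D'] (j : M →ₐ[Ω] K) (j' : M' →ₐ[Ω] K')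
        (g : T.H 1 D →ₗ[L] T.H 2 M ⊗[L] T.H 1 C)
        (g' : T.H 1 D' →ₗ[L] T.H 2 M' ⊗[L] T.H 1 C'),
        (∀ k : K, IsAlgebraic j.fieldRange k) → (∀ k : K', IsAlgebraic j'.fieldRange k) →
        g ∈ T.corr M C D → g' ∈ T.corr M' C' D' →
        T.IsSS C → T.IsSS C' → ∀ (l : T.H 1 C →ₗ[L] L) (l' : T.H 1 C' →ₗ[L] L)
        (r : T.H 2 K →ₗ[L] T.H 1 D) (r' : T.H 2 K' →ₗ[L] T.H 1 D'),
        (∀ γ z, T.act 1 D γ (r z) = (T.tate γ * T.half γ) • r (T.act 2 K γ z)) →
        (∀ γ z, T.act 1 D' γ (r' z) = (T.tate γ * T.half γ) • r' (T.act 2 K' γ z)) →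
        TensorProduct.map (T.map 2 j) (T.map 2 j') (contr (prodForm l l')
          (TensorProduct.map g g' (TensorProduct.map r r' t))) ∈ W) → t ∈ W := by
    intro W hW
    have h1 : ∀ φ ∈ T.Good K, ∀ φ' ∈ T.Good K', TensorProduct.map φ φ' t ∈ W := by
      intro φ hφ φ' hφ'
      induction hφ using Submodule.span_induction with
      | mem φ h =>
        obtain ⟨M, C, D, _, _, _, _, _, _, j, g, l, r, hj, hC, hg, -, hr, rfl⟩ := h
        induction hφ' using Submodule.span_induction with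
        | mem φ' h' =>
          obtain ⟨M', C', D', _, _, _, _, _, _, j', g', l', r', hj', hC', hg', -,
            hr', rfl⟩ := h'
          have h2 := hW M C D M' C' D' j j' g g' hj hj' hg hg' hC hC' l l' r r' hr hr'
          rw [contr_prodForm] at h2
          rw [TensorProduct.map_comp, TensorProduct.map_comp, TensorProduct.map_comp]
          exact h2
        | zero =>
          rw [TensorProduct.map_zero_right]
          exact W.zero_mem
        | add u v _ _ hu hv =>
          rw [TensorProduct.map_add_right]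
          exact W.add_mem hu hv
        | smul c u _ hu =>
          rw [TensorProduct.map_smul_right]
          exact W.smul_mem c hu
      | zero =>
        rw [TensorProduct.map_zero_left]
        exact W.zero_mem
      | add u v _ _ hu hv =>
        rw [TensorProduct.map_add_left]
        exact W.add_mem hu hv
      | smul c u _ hu =>
        rw [TensorProduct.map_smul_left]
        exact W.smul_mem c hu
    have h2 := h1 _ hK _ hK'
    rwa [TensorProduct.map_id] at h2
  have hform : ∀ (C C' : Type) [Field C] [Algebra Ω C] [Field C'] [Algebra Ω C'], T.IsSS C →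
      T.IsSS C' → ∀ (l : T.H 1 C →ₗ[L] L) (l' : T.H 1 C' →ₗ[L] L) (γ : G)
      (t : T.H 1 C ⊗[L] T.H 1 C'), T.tate γ • prodForm l l'
        (TensorProduct.map (T.act 1 C γ) (T.act 1 C' γ) t) = prodForm l l' t := by
    intro C C' _ _ _ _ hC hC' l l' γ t
    induction t using TensorProduct.induction_on with
    | zero => simp
    | add u u' hu hu' => rw [map_add, map_add, smul_add, hu, hu', map_add]
    | tmul u u' =>
      rw [map_tmul, prodForm_tmul, prodForm_tmul, hC, hC', map_smul, map_smul, smul_eq_mul,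
        smul_eq_mul, smul_eq_mul]
      linear_combination (l u * l' u') * T.half_sq γ
  refine ⟨key _ ?_, fun ht => key _ ?_⟩
  · intro M C D M' C' D' _ _ _ _ _ _ _ _ _ _ _ _ j j' g g' hj hj' hg hg' hC hC' l l' r r' _ _
    rw [T.sup_transfer j j' hj hj']
    exact T.supp M C D M' C' D' g hg g' hg' _ _ (hform C C' hC hC' l l')
  · intro M C D M' C' D' _ _ _ _ _ _ _ _ _ _ _ _ j j' g g' hj hj' hg hg' hC hC' l l' r r' hr hr'
    rw [T.transfer j j' hj hj']
    refine T.pair M C D M' C' D' g hg g' hg' _ _ (fun γ => ?_) (hform C C' hC hC' l l')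
    have h3 : ∀ u : T.H 2 K ⊗[L] T.H 2 K', T.tate γ • TensorProduct.map (T.act 1 D γ)
        (T.act 1 D' γ) (TensorProduct.map r r' u) =
          TensorProduct.map r r' (T.tate γ ^ 2 •
            TensorProduct.map (T.act 2 K γ) (T.act 2 K' γ) u) := by
      intro u
      induction u using TensorProduct.induction_on with
      | zero => simp
      | tmul u v =>
        rw [map_tmul, map_tmul, map_tmul, hr, hr', smul_tmul_smul, map_smul, map_tmul, smul_smul]
        congr 1
        linear_combination (T.tate γ ^ 2) * T.half_sq γ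
      | add u v hu hv =>
        simp only [map_add, smul_add] at hu hv ⊢
        rw [hu, hv]
    rw [h3, ht γ]

end Pool.Agent.Helper73.SS
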