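import Pool.Agent.Helper73.SS.Conv
import Pool.Agent.Helper15.V7.Lst
import Pool.Agent.Helper48.V7.All

/-! Supersingular twists: abelian covers whose cyclic subextensions are in the list `LstN` of
project V7. -/

set_option autoImplicit false

namespace Pool.Agent.Helper73.SS

open IntermediateField TensorProduct Module Pool.Agent.Helper75.QC Pool.Agent.Helper48.TT
  Pool.Agent.Helper75.WC Pool.Agent.Helper15.WC Pool.Agent.Helper15.V7 Pool.Agent.Helper15.GD

/-- `K` is a finite abelian extension of `R`, the exponent of the group divides `p ^ f + 1`, and the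
cyclic subextensions are uniruled or in the list. -/
def IsTameCoverN (p : ℕ) (Ω K : Type) [Field Ω] [Field K] [Algebra Ω K] : Prop :=
  ∃ (R : IntermediateField Ω K) (f : ℕ), FiniteDimensional R K ∧ IsGalois R K ∧
    (∀ g h : K ≃ₐ[R] K, g * h = h * g) ∧ (∀ g : K ≃ₐ[R] K, g ^ (p ^ f + 1) = 1) ∧
    ∀ M : IntermediateField R K, IsCyclic (M ≃ₐ[R] M) →
      Uniruled Ω M 2 ∨ Pool.Agent.Helper35.V7.LstN Ω R M

variable {p : ℕ} {Ω L G : Type} [Field Ω] [Field L]

/-- The degree in `RowB` divides the degree of `M / R`. -/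
theorem RowB.dvd {T : BaseTheory Ω L} {R M : Type} [Field R] [Field M] [Algebra Ω M]
    [Algebra R M] [FiniteDimensional R M] {n : ℕ} (h : RowB T R M n) : n ∣ Module.finrank R M := by
  obtain ⟨α, β, B, x, y, w, hn, hn', hab, hfg, hxy, hR, hM, hdeg, -⟩ := h
  let i : R →+* B := (algebraMap R M).codRestrict B hR
  letI : Algebra R B := i.toAlgebra
  haveI : IsScalarTower R B M := IsScalarTower.of_algebraMap_eq fun _ => rfl
  rw [← hdeg]
  exact ⟨Module.finrank R B, by rw [mul_comm]; exact (Module.finrank_mul_finrank R B M).symm⟩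

/-- **One cyclic cover.** -/
theorem SSTheory.good_pre [IsAlgClosed Ω] [CharZero L] (T : SSTheory p Ω L G)
    {M K₁ : Type} [Field M] [Algebra Ω M] [Field K₁] [Algebra Ω K₁] {n f : ℕ}
    (hnp : n ∣ p ^ f + 1) (j : M →ₐ[Ω] K₁) (hj : ∀ k : K₁, IsAlgebraic j.fieldRange k)
    (s : T.H 2 K₁ →ₗ[L] T.H 2 M) (hs : ∀ γ t, T.act 2 M γ (s t) = s (T.act 2 K₁ γ t))
    {C N : Type} [Field C] [Algebra Ω C] [Field N] [Algebra Ω N] {a : M →ₐ[Ω] N}
    {b : C →ₐ[Ω] N} {x y : M} {α β : ℕ} {ζ : Ω} {v u : C} {τ : C →ₐ[Ω] C} {ξ : L} {z : T.H 1 C}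
    (P : IsPre T.toBaseTheory n s a b x y α β ζ v u τ ξ z) :
    T.map 2 j ∘ₗ s ∈ T.Good K₁ := by
  have hSS : T.IsSS C := T.isSS_kummer C α β hnp v u P.transC P.eq P.gen
  obtain ⟨l, hl⟩ : ∃ l : T.H 1 C →ₗ[L] L, l z = 1 := by
    obtain ⟨l₀, hl₀⟩ : ∃ l₀ : T.H 1 C →ₗ[L] L, l₀ z ≠ 0 := by
      by_contra hcon
      push Not at hcon
      exact P.ne ((Module.forall_dual_apply_eq_zero_iff L z).1 hcon)
    exact ⟨(l₀ z)⁻¹ • l₀, inv_mul_cancel₀ hl₀⟩
  obtain ⟨mt, hmt⟩ : ∃ mt : T.H 2 K₁ →ₗ[L] T.H 2 M ⊗[L] T.H 1 C,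
      ∀ t, mt t = s t ⊗ₜ[L] z := ⟨(TensorProduct.mk L _ _).flip z ∘ₗ s, fun _ => rfl⟩
  have key := T.good_of_map j hj a b x y v P.fgM P.fgC P.algM P.algC P.trans hSS mt
    (fun t => by
      rw [hmt, TensorProduct.lift.tmul, LinearMap.compl₁₂_apply]
      exact P.zero t)
    (fun γ t => by
      rw [hmt, hmt, map_tmul, hSS γ z, TensorProduct.tmul_smul, hs]) l
  have h1 : con l ∘ₗ mt = s := by
    refine LinearMap.ext fun t => ?_
    rw [LinearMap.comp_apply, hmt, con_tmul, hl, one_smul]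
  rwa [h1] at key

/-- **Abelian covers.** -/
theorem id_good_tameN [IsAlgClosed Ω] [CharZero L] [IsAlgClosed L] (T : SSTheory p Ω L G)
    {K : Type} [Field K] [Algebra Ω K] (hK : IsTameCoverN p Ω K) :
    LinearMap.id ∈ T.Good K := by
  classical
  obtain ⟨R, f, hfin, hgal, hab, hexp, hM⟩ := hK
  obtain ⟨m, M, s, hsum, hcomm, hpre⟩ := cover_preB T.toBaseTheory R hab
    (fun n => n ∣ p ^ f + 1) (fun M hc => by
      have hG : IsGalois R M := Pool.Agent.Helper35.WC.isGalois_of_comm hab M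
      rcases hM M hc with h | h
      · exact Or.inl h
      rcases rowB_of_lst T.toBaseTheory h with h1 | ⟨n, h1⟩
      · exact Or.inl h1
      · exact Or.inr ⟨n, (RowB.dvd h1).trans (finrank_dvd_of_pow hexp M hc), h1⟩)
  have h1 : (LinearMap.id : T.H 2 K →ₗ[L] T.H 2 K) = ∑ i, T.map 2 (incl R (M i)) ∘ₗ s i := by
    refine LinearMap.ext fun t => ?_
    rw [LinearMap.sum_apply]
    exact (hsum t).symm
  rw [h1]
  refine Submodule.sum_mem _ fun i _ => ?_
  rcases hpre i with h | ⟨n, hn, C, N, iC, jC, iN, jN, a, b, x, y, α, β, ζ, v, u, τ, ξ, z, P⟩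
  · rw [h, LinearMap.comp_zero]
    exact Submodule.zero_mem _
  · exact T.good_pre hn (incl R (M i)) (incl_alg R (M i)) (s i) (fun γ t =>
      hcomm i (T.act 2 K γ) (T.act 2 (M i) γ) (fun h v => T.map_act 2 _ γ v)
        (fun v => T.map_act 2 _ γ v) t) P

theorem id_good_planeN [hp : Fact p.Prime] [CharP Ω p] [IsAlgClosed Ω] [CharZero L]
    [IsAlgClosed L] (T : SSTheory p Ω L G) {K : Type} [Field K] [Algebra Ω K]
    (hK : IsTameCoverN p Ω K ∨ Pool.Agent.Helper73.QX.IsWildPlane p Ω K ∨ Uniruled Ω K 2) :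
    LinearMap.id ∈ T.Good K := by
  rcases hK with h | h
  · exact id_good_tameN T h
  · exact id_good_plane T (Or.inr h)

/-- **The main theorem.** -/
theorem FrobCoh.mainN [hp : Fact p.Prime] [CharP Ω p] [IsAlgClosed Ω] [CharZero L] [IsAlgClosed L]
    (T : FrobCoh Ω L) (h : T.IsFrob p) {K K' K₀ K₀' : Ext Ω}
    (hK : IsTameCoverN p Ω K ∨ Pool.Agent.Helper73.QX.IsWildPlane p Ω K ∨
      Pool.Agent.Helper75.QC.Uniruled Ω K 2)
    (hK' : IsTameCoverN p Ω K' ∨ Pool.Agent.Helper73.QX.IsWildPlane p Ω K' ∨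
      Pool.Agent.Helper75.QC.Uniruled Ω K' 2)
    (j : K₀.Hom K) (j' : K₀'.Hom K') (hj : j.IsAlgebraic) (hj' : j'.IsAlgebraic) :
    T.sup K₀ K₀' = ⊤ ∧ T.tateClasses p K₀ K₀' ≤ T.cyc K₀ K₀' :=
  T.main_of_good h (id_good_planeN (T.toSS h) (K := K) hK)
    (id_good_planeN (T.toSS h) (K := K') hK') j j' hj hj'

end Pool.Agent.Helper73.SS
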