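import Pool.Agent.Helper73.SS.Main
import Pool.Agent.Helper73.SS.Curves

/-!
# Supersingular twists: cyclic covers of the plane, and domination
-/

set_option autoImplicit false

namespace Pool.Agent.Helper73.SS

open IntermediateField TensorProduct Module Pool.Agent.Helper75.QC Pool.Agent.Helper48.TT
  Pool.Agent.Helper75.WC Pool.Agent.Helper15.WC

variable {p : ℕ} {Ω L G : Type} [Field Ω] [Field L]

/-- **One cyclic cover.** -/
theorem SSTheory.good_row [IsAlgClosed Ω] [CharZero L] [IsAlgClosed L] (T : SSTheory p Ω L G)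
    {K : Type} [Field K]
    [Algebra Ω K] (R : IntermediateField Ω K) (M : IntermediateField R K) [FiniteDimensional R M]
    {n : ℕ} (hrow : RowN T.toBaseTheory R M n) {f : ℕ} (hnp : n ∣ p ^ f + 1)
    {K₁ : Type} [Field K₁] [Algebra Ω K₁] (j : M →ₐ[Ω] K₁)
    (hj : ∀ k : K₁, IsAlgebraic j.fieldRange k) (s : T.H 2 K₁ →ₗ[L] T.H 2 M)
    (hs : ∀ γ t, T.act 2 M γ (s t) = s (T.act 2 K₁ γ t)) (c : (M ≃ₐ[R] M) → L)
    (hc : ∀ (g : M ≃ₐ[R] M) t, T.map 2 ((g : M →ₐ[R] M).restrictScalars Ω) (s t) = c g • s t)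
    (hc1 : ∀ (g : M ≃ₐ[R] M) (d : ℕ), c g ^ d = 1 → g ^ d = 1) (hs0 : s ≠ 0) :
    T.map 2 j ∘ₗ s ∈ T.Good K₁ := by
  classical
  obtain ⟨α, β, x, y, w, hn, hn', hab, hR, hM, hdeg, hw0, hwm, huni, hexc⟩ := hrow
  obtain ⟨t₀, ht₀⟩ : ∃ t, s t ≠ 0 := by
    by_contra h
    push Not at h
    exact hs0 (LinearMap.ext h)
  have : NeZero (n : Ω) := ⟨hn'⟩
  obtain ⟨ζ, hζ⟩ : ∃ ζ : Ω, IsPrimitiveRoot ζ n :=
    HasEnoughRootsOfUnity.exists_primitiveRoot Ω n
  obtain ⟨σ, ξ, hσ, hσw, hξn, hξd, hξ⟩ := prim_kummerM T.toBaseTheory R M 2 hn hn'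
    hζ x y w hR hM hdeg hwm hw0 (s t₀) (fun g => ⟨c g, hc g t₀, hc1 g⟩) ht₀
  -- the same eigenvalue for all classes
  let σ' : M →ₐ[R] M := { toRingHom := (σ : M →+* M), commutes' := fun a => hσ _ (hR a) }
  let g₀ : M ≃ₐ[R] M := AlgEquiv.ofBijective σ' (Algebra.IsAlgebraic.algHom_bijective σ')
  have hg₀ : ((g₀ : M →ₐ[R] M).restrictScalars Ω) = σ := AlgHom.ext fun _ => rfl
  have hξ' : ∀ t, T.map 2 σ (s t) = ξ • s t := by
    have e1 : c g₀ = ξ := by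
      have e2 := hc g₀ t₀
      rw [hg₀, hξ] at e2
      have e3 : (ξ - c g₀) • s t₀ = 0 := by rw [sub_smul, e2, sub_self]
      exact (sub_eq_zero.1 ((smul_eq_zero.1 e3).resolve_right ht₀)).symm
    intro t
    have e2 := hc g₀ t
    rwa [hg₀, e1] at e2
  have hx : σ x = x := hσ _ (subset_adjoin _ _ (by simp))
  have hy : σ y = y := hσ _ (subset_adjoin _ _ (by simp))
  have hnex : ¬ (ξ ^ α = 1 ∨ ξ ^ β = 1 ∨ ξ ^ (α + β) = 1) := fun h =>
    ht₀ (hexc ζ σ hζ hx hy hσw ξ (s t₀) hξd hξn h hξ)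
  have hfg : (⊤ : IntermediateField Ω M).FG := by
    rw [← hM]
    exact fg_adjoin_of_finite (Set.toFinite _)
  have hxy : ∀ k : M, k ∈ Acl Ω {x, y} := by
    intro k
    have : FiniteDimensional (adjoin Ω {x, y}) M :=
      Module.finite_of_finrank_pos (by rw [hdeg]; exact hn)
    exact Algebra.IsAlgebraic.isAlgebraic k
  have hξ0 : ξ ≠ 0 := by
    rintro rfl
    rw [zero_pow hn.ne'] at hξn
    exact zero_ne_one hξn
  have hinv : ∀ j : ℕ, ξ ^ j ≠ 1 → ξ⁻¹ ^ j ≠ 1 := by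
    intro j hj h
    apply hj
    rwa [inv_pow, inv_eq_one] at h
  obtain ⟨C, N, iC, jC, iN, jN, v, u, a, b, hv, hu, hC, hbv, hNg, hsig, -, -⟩ :=
    Pool.Agent.Helper35.TD.exists_curve_ab (Ω := Ω) (α := α) (β := β) hn hab M
  obtain ⟨τ, hτ⟩ := hsig ζ hζ.pow_eq_one
  have hfinC : (⊤ : IntermediateField Ω C).FG := by
    rw [← hC]
    exact fg_adjoin_of_finite (Set.toFinite _)
  obtain ⟨z, hz0, hz⟩ := T.curve C n α β ζ v u τ hn' hζ hv hu hC hτ.1 hτ.2 ξ⁻¹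
    (by rw [inv_pow, hξn, inv_one]) (hinv _ fun h => hnex (Or.inl h))
    (hinv _ fun h => hnex (Or.inr (Or.inl h))) (hinv _ fun h => hnex (Or.inr (Or.inr h)))
  have hSS : T.IsSS C := T.isSS_kummer C α β hnp v u hv hu hC
  have huni' : ∀ z : T.H 3 (adjoin Ω {a x, a y, b v, b u / a w} : IntermediateField Ω N), z = 0 := by
    apply T.uniruled
    refine huni N a (b v) (b u / a w) hbv ?_
    have h2 : b u ^ n = b v ^ α * (1 - b v) ^ β := by
      rw [← map_pow, hu, map_mul, map_pow, map_pow, map_sub, map_one]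
    have h3 : a w ≠ 0 := fun h => hw0 (a.injective (h.trans (map_zero a).symm))
    rw [div_pow, h2, div_mul_cancel₀ _ (pow_ne_zero _ h3)]
  obtain ⟨l, hl⟩ : ∃ l : T.H 1 C →ₗ[L] L, l z = 1 := by
    obtain ⟨l₀, hl₀⟩ : ∃ l₀ : T.H 1 C →ₗ[L] L, l₀ z ≠ 0 := by
      by_contra hcon
      push Not at hcon
      exact hz0 ((Module.forall_dual_apply_eq_zero_iff L z).1 hcon)
    exact ⟨(l₀ z)⁻¹ • l₀, inv_mul_cancel₀ hl₀⟩
  obtain ⟨mt, hmt⟩ : ∃ mt : T.H 2 K₁ →ₗ[L] T.H 2 M ⊗[L] T.H 1 C,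
      ∀ t, mt t = s t ⊗ₜ[L] z := ⟨(TensorProduct.mk L _ _).flip z ∘ₗ s, fun _ => rfl⟩
  have key := T.good_of_map j hj a b x y v hfg hfinC hxy (mem_Acl_of hn v u hu hC) hbv hSS mt
    (fun t => by
      rw [hmt, TensorProduct.lift.tmul, LinearMap.compl₁₂_apply]
      exact cross_zero T.toBaseTheory hn hn' hζ a b x y w v u hM hC hNg hw0 hwm σ
        ⟨hx, hy, hσw⟩ τ hτ huni' ξ hξ0 (s t) (hξ' t) z hz)
    (fun γ t => by
      rw [hmt, hmt, map_tmul, hSS γ z, TensorProduct.tmul_smul, hs]) l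
  have h1 : con l ∘ₗ mt = s := by
    refine LinearMap.ext fun t => ?_
    rw [LinearMap.comp_apply, hmt, con_tmul, hl, one_smul]
  rwa [h1] at key

/-- **Abelian covers.** -/
theorem SSTheory.id_good_cover [IsAlgClosed Ω] [CharZero L] [IsAlgClosed L] (T : SSTheory p Ω L G)
    {K : Type} [Field K] [Algebra Ω K] (R : IntermediateField Ω K) [FiniteDimensional R K]
    [IsGalois R K] (hab : ∀ g h : K ≃ₐ[R] K, g * h = h * g)
    (hM : ∀ M : IntermediateField R K, IsCyclic (M ≃ₐ[R] M) →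
      Uniruled Ω M 2 ∨ ∃ n f, n ∣ p ^ f + 1 ∧ RowN T.toBaseTheory R M n) :
    LinearMap.id ∈ T.Good K := by
  classical
  obtain ⟨m, χ, E, hsum, hE, hcomm⟩ := exists_projectors hab (galRep T.toBaseTheory R 2)
  have hl := fun i => exists_lift T.toBaseTheory R 2 (χ i) (E i) (fun g t => hE i g t)
  choose M hcyc s c hs hc hc1 using hl
  have h1 : (LinearMap.id : T.H 2 K →ₗ[L] T.H 2 K) = ∑ i, T.map 2 (incl R (M i)) ∘ₗ s i := by
    refine LinearMap.ext fun t => ?_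
    rw [LinearMap.sum_apply]
    exact ((Finset.sum_congr rfl fun i _ => hs i t).trans (hsum t)).symm
  rw [h1]
  refine Submodule.sum_mem _ fun i _ => ?_
  by_cases h0 : s i = 0
  · rw [h0, LinearMap.comp_zero]
    exact Submodule.zero_mem _
  rcases hM (M i) (hcyc i) with h | ⟨n, f, hn, hrow⟩
  · have h2 : s i = 0 := LinearMap.ext fun t => T.uniruled 2 (M i) h (s i t)
    exact absurd h2 h0
  · refine T.good_row R (M i) hrow hn (incl R (M i)) (incl_alg R (M i)) (s i) (fun γ t => ?_)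
      (c i) (hc i) (hc1 i) h0
    apply T.inj 2 _ (incl_alg R (M i))
    rw [T.map_act, hs, hs]
    exact hcomm i (T.act 2 K γ) (fun g v => (T.map_act 2 _ γ v).symm) t

/-- **Domination.** -/
theorem SSTheory.product_dom (T : SSTheory p Ω L G) {K K' K₀ K₀' : Type} [Field K] [Algebra Ω K]
    [Field K'] [Algebra Ω K'] [Field K₀] [Algebra Ω K₀] [Field K₀'] [Algebra Ω K₀']
    (hK : LinearMap.id ∈ T.Good K) (hK' : LinearMap.id ∈ T.Good K')
    (j : K₀ →ₐ[Ω] K) (j' : K₀' →ₐ[Ω] K') (hj : ∀ k : K, IsAlgebraic j.fieldRange k)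
    (hj' : ∀ k : K', IsAlgebraic j'.fieldRange k) (t : T.H 2 K₀ ⊗[L] T.H 2 K₀') :
    t ∈ T.sup K₀ K₀' ∧
      ((∀ γ, T.tate γ ^ 2 • TensorProduct.map (T.act 2 K₀ γ) (T.act 2 K₀' γ) t = t) →
        t ∈ T.cycles K₀ K₀') := by
  have h1 : ∀ γ (u : T.H 2 K₀ ⊗[L] T.H 2 K₀'),
      TensorProduct.map (T.act 2 K γ) (T.act 2 K' γ)
        (TensorProduct.map (T.map 2 j) (T.map 2 j') u) =
      TensorProduct.map (T.map 2 j) (T.map 2 j')
        (TensorProduct.map (T.act 2 K₀ γ) (T.act 2 K₀' γ) u) := by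
    intro γ u
    induction u using TensorProduct.induction_on with
    | zero => simp
    | add u u' hu hu' => simp only [map_add, hu, hu']
    | tmul p q => rw [map_tmul, map_tmul, map_tmul, map_tmul, T.map_act, T.map_act]
  obtain ⟨h2, h3⟩ := T.product hK hK' (TensorProduct.map (T.map 2 j) (T.map 2 j') t)
  refine ⟨(T.sup_transfer j j' hj hj' t).1 h2, fun ht => (T.transfer j j' hj hj' t).1 (h3 ?_)⟩
  intro γ
  rw [h1, ← map_smul, ht]

end Pool.Agent.Helper73.SS
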