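import Pool.Agent.Helper73.SS.Main
import Pool.Agent.Helper73.QX.Main

/-!
# Supersingular twists: elementary abelian covers of exponent `p`
-/

set_option autoImplicit false

namespace Pool.Agent.Helper73.SS

open IntermediateField TensorProduct Module Pool.Agent.Helper75.QC Pool.Agent.Helper48.TT
  Pool.Agent.Helper73.QX Pool.Agent.Helper73.QW

variable {p : ℕ} [hp : Fact p.Prime] {Ω L G : Type} [Field Ω] [Algebra (ZMod p) Ω] [Field L]
  {K : Type} [Field K] [Algebra Ω K] {r : ℕ} {x y : K} {w : Fin r → K}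

/-- **Elementary abelian covers of exponent `p`.** -/
theorem id_good_cov [CharZero L] [IsAlgClosed L] (T : SSTheory p Ω L G) (hC : Cov p Ω x y w)
    {m : ℕ} (hm : m.Prime)
    (hG : ∀ k : Fin r → ZMod p, Geo Ω p m x y (comb p Ω k fun i => w i ^ p - w i))
    (hcurve : WildCurve p m T.toCohomology)
    (hSS : ∀ (C : Type) [Field C] [Algebra Ω C] (u s : C), Transcendental Ω u →
      u ^ p - u = s ^ m → adjoin Ω {u, s} = ⊤ → T.IsSS C) :
    LinearMap.id ∈ T.Good K := by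
  classical
  have hfin := hC.fg
  have : FiniteDimensional L (T.H 2 K) := T.fin 2 K hfin
  have := hC.galois.1
  have : Finite (Gp Ω x y) := inferInstance
  let ρ : Gp Ω x y →* End L (T.H 2 K) :=
    { toFun := fun τ => T.map 2 (toHom τ)
      map_one' := by
        rw [toHom_one]
        exact T.map_id 2 K
      map_mul' := fun σ τ => by
        rw [toHom_mul]
        exact T.map_comp 2 (toHom τ) (toHom σ) }
  obtain ⟨mm, χ, E, hsum, hE, hcomm⟩ := exists_projectors (fun σ τ => hC.comm σ τ) ρ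
  have hid : (LinearMap.id : T.H 2 K →ₗ[L] T.H 2 K) = ∑ i, E i := by
    refine LinearMap.ext fun t => ?_
    rw [LinearMap.sum_apply, hsum t]
    rfl
  rw [hid]
  refine Submodule.sum_mem _ fun i _ => ?_
  -- one character
  obtain ⟨ψ, -, hψ, hchar⟩ := exists_addChar (p := p) (L := L)
  obtain ⟨χ', hχ'⟩ := exists_extension hC.iota hC.iota_injective (χ i)
  obtain ⟨k, hk⟩ := hchar χ'
  have hEi : ∀ (τ : Gp Ω x y) t, T.map 2 (toHom τ) (E i t) =
      ψ (∑ i, k i * hC.sh τ i) • E i t := by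
    intro τ t
    have h1 := hE i τ t
    rw [← hχ' τ] at h1
    rw [← hk (hC.sh τ)]
    exact h1
  obtain ⟨C, N, iC, jC, iN, jN, u, s, a, b, hu, hs, hCt, hb, hN, huniv⟩ :=
    exists_as_curve p (Ω := Ω) hm K
  have hsig : ∀ c : ZMod p, ∃ τ : C →ₐ[Ω] C, τ u = u + em p Ω C c ∧ τ s = s := by
    intro c
    refine huniv C _ _ (transcendental_add hu c) ?_
    rw [sub_add_em, hs]
  have hfinC : (⊤ : IntermediateField Ω C).FG := by
    rw [← hCt]
    exact fg_adjoin_of_finite (Set.toFinite _)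
  obtain ⟨σ, hσ1, hσ2⟩ := hsig 1
  rw [map_one] at hσ1
  obtain ⟨c, hc0, hc1⟩ := hcurve C u s σ hu hs hCt hσ1 hσ2 (ψ 1)⁻¹
    (by rw [inv_pow, pow_eq_one_of, inv_one]) (by
      intro h
      exact hψ (inv_eq_one.1 h))
  have hc : ∀ (e : ZMod p) (τ : C →ₐ[Ω] C), τ u = u + em p Ω C e → τ s = s →
      T.map 1 τ c = (ψ e)⁻¹ • c := fun e τ h3 h4 =>
    translations T.toCohomology hCt σ hσ1 hσ2 ψ hc1 e τ h3 h4
  obtain ⟨l, hl⟩ : ∃ l : T.H 1 C →ₗ[L] L, l c = 1 := by
    obtain ⟨l₀, hl₀⟩ : ∃ l₀ : T.H 1 C →ₗ[L] L, l₀ c ≠ 0 := by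
      by_contra hcon
      push Not at hcon
      exact hc0 ((Module.forall_dual_apply_eq_zero_iff L c).1 hcon)
    exact ⟨(l₀ c)⁻¹ • l₀, inv_mul_cancel₀ hl₀⟩
  have hSSC := hSS C u s hu hs hCt
  obtain ⟨mt, hmt⟩ : ∃ mt : T.H 2 K →ₗ[L] T.H 2 K ⊗[L] T.H 1 C,
      ∀ t, mt t = E i t ⊗ₜ[L] c := ⟨(TensorProduct.mk L _ _).flip c ∘ₗ E i, fun _ => rfl⟩
  have key := T.good_of_map' a b x y u hfin hfinC (by
      intro k
      have : FiniteDimensional (adjoin Ω {x, y}) K := hC.galois.1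
      exact Algebra.IsAlgebraic.isAlgebraic k) (fun k => sq_pow_ne hm.pos hu hs k hCt) hb hSSC mt
    (fun t => by
      rw [hmt, TensorProduct.lift.tmul, LinearMap.compl₁₂_apply]
      exact hC.cross_zero T.toBaseTheory k (hG k) ψ u s hs hCt a b hb hN hsig c hc (E i t)
        fun τ => hEi τ t)
    (fun γ t => by
      rw [hmt, hmt, map_tmul, hSSC γ c, TensorProduct.tmul_smul]
      congr 2
      exact hcomm i (T.act 2 K γ) (fun τ v => (T.map_act 2 _ γ v).symm) t) l
  have h1 : con l ∘ₗ mt = E i := by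
    refine LinearMap.ext fun t => ?_
    rw [LinearMap.comp_apply, hmt, con_tmul, hl, one_smul]
  rwa [h1] at key

end Pool.Agent.Helper73.SS
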